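import Mathlib

set_option autoImplicit false

/-!
# Gluing union-closed families on `S` along a set `T`
-/

namespace Pool.Agent.N188.FC

open Finset
open scoped Classical

variable {α : Type*} [DecidableEq α]

section

variable (S T : Finset α) (G0 : Finset (Finset α)) (K : α → Finset (Finset α))

/-- the trace on `T` -/
def Bt (T : Finset α) : Option (Option α) → Finset α
  | none => ∅
  | some none => T
  | some (some t) => T.erase t

/-- the traces on `S` -/
def Rt (G0 : Finset (Finset α)) (K : α → Finset (Finset α)) (A : Finset α) :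
    Option (Option α) → Prop
  | none => A ∈ G0
  | some none => True
  | some (some t) => A ∈ K t

/-- the glued family -/
noncomputable def Ft (S T : Finset α) (G0 : Finset (Finset α)) (K : α → Finset (Finset α)) :
    Finset (Finset α) :=
  ((S.powerset ×ˢ insertNone (insertNone T)).filter (fun p => Rt G0 K p.1 p.2)).image
    (fun p => p.1 ∪ Bt T p.2)

variable {S T G0 K}

theorem mem_Ft {A : Finset α} {s : Option (Option α)} (hA : A ⊆ S)
    (hs : s ∈ insertNone (insertNone T)) (h : Rt G0 K A s) : A ∪ Bt T s ∈ Ft S T G0 K := by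
  unfold Ft
  rw [mem_image]
  exact ⟨(A, s), by rw [mem_filter, mem_product, mem_powerset]; exact ⟨⟨hA, hs⟩, h⟩, rfl⟩

theorem mem_Ft' {X A : Finset α} (s : Option (Option α)) (hA : A ⊆ S)
    (hs : s ∈ insertNone (insertNone T)) (h : Rt G0 K A s) (hX : X = A ∪ Bt T s) :
    X ∈ Ft S T G0 K := hX ▸ mem_Ft hA hs h

theorem Ft_union (hG0 : ∀ A ∈ G0, ∀ B ∈ G0, A ∪ B ∈ G0)
    (hK : ∀ t ∈ T, ∀ A ∈ K t, ∀ B ∈ K t, A ∪ B ∈ K t)
    (hKG : ∀ t ∈ T, ∀ A ∈ K t, ∀ B ∈ G0, A ∪ B ∈ K t) :
    ∀ A ∈ Ft S T G0 K, ∀ B ∈ Ft S T G0 K, A ∪ B ∈ Ft S T G0 K := by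
  have n0 : (none : Option (Option α)) ∈ insertNone (insertNone T) := by simp
  have n1 : (some none : Option (Option α)) ∈ insertNone (insertNone T) := by simp
  have n2 : ∀ t ∈ T, (some (some t) : Option (Option α)) ∈ insertNone (insertNone T) := by simp
  intro X hX Y hY
  unfold Ft at hX hY
  rw [mem_image] at hX hY
  obtain ⟨⟨A, s⟩, h1, rfl⟩ := hX
  obtain ⟨⟨B, t⟩, h2, rfl⟩ := hY
  rw [mem_filter, mem_product, mem_powerset] at h1 h2
  obtain ⟨⟨hA, hs⟩, h1⟩ := h1
  obtain ⟨⟨hB, ht⟩, h2⟩ := h2
  simp only at hA hB hs ht h1 h2 ⊢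
  have hAB : A ∪ B ⊆ S := union_subset hA hB
  have e : A ∪ Bt T s ∪ (B ∪ Bt T t) = (A ∪ B) ∪ (Bt T s ∪ Bt T t) := by
    ext x; simp only [mem_union]; tauto
  rw [e]
  rcases s with _ | _ | s
  · rcases t with _ | _ | t
    · exact mem_Ft' none hAB n0 (hG0 A h1 B h2) (by simp [Bt])
    · exact mem_Ft' (some none) hAB n1 trivial (by simp [Bt])
    · have ht' : t ∈ T := by simpa using ht
      exact mem_Ft' (some (some t)) hAB ht (by
        have := hKG t ht' B h2 A h1
        rw [union_comm] at this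
        exact this) (by simp [Bt])
  · refine mem_Ft' (some none) hAB n1 trivial ?_
    congr 1
    apply Subset.antisymm _ subset_union_left
    apply union_subset Subset.rfl
    rcases t with _ | _ | t
    · simp [Bt]
    · exact Subset.rfl
    · exact erase_subset _ _
  · have hs' : s ∈ T := by simpa using hs
    rcases t with _ | _ | t
    · exact mem_Ft' (some (some s)) hAB hs (hKG s hs' A h1 B h2) (by simp [Bt])
    · refine mem_Ft' (some none) hAB n1 trivial ?_
      congr 1
      apply Subset.antisymm _ subset_union_right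
      exact union_subset (erase_subset _ _) Subset.rfl
    · have ht' : t ∈ T := by simpa using ht
      by_cases hst : s = t
      · subst hst
        exact mem_Ft' (some (some s)) hAB hs (hK s hs' A h1 B h2) (by rw [union_self])
      · refine mem_Ft' (some none) hAB n1 trivial ?_
        congr 1
        ext x
        simp only [Bt, mem_union, mem_erase]
        constructor
        · tauto
        · intro hx
          by_cases hxs : x = s
          · right; exact ⟨fun h => hst (hxs.symm.trans h), hx⟩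
          · left; exact ⟨hxs, hx⟩

theorem Bt_sub {s : Option (Option α)} : Bt T s ⊆ T := by
  rcases s with _ | _ | s
  · simp [Bt]
  · exact Subset.rfl
  · exact erase_subset _ _

theorem Bt_inj (hT : 2 ≤ T.card) {s t : Option (Option α)} (hs : s ∈ insertNone (insertNone T))
    (ht : t ∈ insertNone (insertNone T)) (h : Bt T s = Bt T t) : s = t := by
  have c := congrArg card h
  rcases s with _ | _ | s <;> rcases t with _ | _ | t
  · rfl
  · simp only [Bt, card_empty] at c; omega
  · have : t ∈ T := by simpa using ht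
    simp only [Bt, card_empty, card_erase_of_mem this] at c; omega
  · simp only [Bt, card_empty] at c; omega
  · rfl
  · have : t ∈ T := by simpa using ht
    simp only [Bt, card_erase_of_mem this] at c; omega
  · have : s ∈ T := by simpa using hs
    simp only [Bt, card_empty, card_erase_of_mem this] at c; omega
  · have : s ∈ T := by simpa using hs
    simp only [Bt, card_erase_of_mem this] at c; omega
  · have h1 : s ∈ T := by simpa using hs
    simp only [Bt] at h
    have h2 : s ∉ T.erase t := h ▸ notMem_erase s T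
    have : s = t := by
      by_contra hst
      exact h2 (mem_erase.2 ⟨hst, h1⟩)
    rw [this]

theorem Ft_sum (hST : Disjoint S T) (hT : 2 ≤ T.card) (f : Finset α → ℤ) :
    ∑ X ∈ Ft S T G0 K, f X = ∑ A ∈ S.powerset, (if A ∈ G0 then f A else 0) +
      (∑ A ∈ S.powerset, f (A ∪ T) + ∑ t ∈ T, ∑ A ∈ S.powerset,
        if A ∈ K t then f (A ∪ T.erase t) else 0) := by
  have h1 : ∑ X ∈ Ft S T G0 K, f X = ∑ s ∈ insertNone (insertNone T), ∑ A ∈ S.powerset,
      if Rt G0 K A s then f (A ∪ Bt T s) else 0 := by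
    unfold Ft
    rw [sum_image, sum_filter, sum_product_right]
    rintro ⟨A, s⟩ h1 ⟨B, t⟩ h2 h
    simp only [coe_filter, mem_product, mem_powerset, Set.mem_setOf_eq] at h1 h2
    simp only at h
    have e1 : ∀ {A : Finset α} {s : Option (Option α)}, A ⊆ S → (A ∪ Bt T s) ∩ S = A := by
      intro A s hA
      ext x
      simp only [mem_inter, mem_union]
      constructor
      · rintro ⟨h3 | h3, h4⟩
        · exact h3
        · exact absurd (Bt_sub h3) (disjoint_left.1 hST h4)
      · intro h3
        exact ⟨Or.inl h3, hA h3⟩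
    have e2 : ∀ {A : Finset α} {s : Option (Option α)}, A ⊆ S → (A ∪ Bt T s) ∩ T = Bt T s := by
      intro A s hA
      ext x
      simp only [mem_inter, mem_union]
      constructor
      · rintro ⟨h3 | h3, h4⟩
        · exact absurd h4 (disjoint_left.1 hST (hA h3))
        · exact h3
      · intro h3
        exact ⟨Or.inr h3, Bt_sub h3⟩
    have h3 : A = B := by rw [← e1 h1.1.1 (s := s), h, e1 h2.1.1]
    have h4 : Bt T s = Bt T t := by rw [← e2 h1.1.1 (s := s), h, e2 h2.1.1]
    rw [h3, Bt_inj hT h1.1.2 h2.1.2 h4]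
  rw [h1, sum_insertNone, sum_insertNone]
  refine congrArg₂ (· + ·) ?_ (congrArg₂ (· + ·) ?_ ?_)
  · refine sum_congr rfl fun A _ => ?_
    simp only [Rt, Bt, union_empty]
  · exact sum_congr rfl fun A _ => if_pos trivial
  · refine sum_congr rfl fun t _ => sum_congr rfl fun A _ => ?_
    exact if_congr Iff.rfl rfl rfl

/-- the sign of `y` in `A` -/
def sg (y : α) (A : Finset α) : ℤ := if y ∈ A then 1 else -1

theorem signed' {y : α} (hy : y ∈ S) (P : Finset α → Prop) :
    ∑ A ∈ S.powerset, (if P A then sg y A else 0) =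
      ∑ A ∈ (S.erase y).powerset, ((if P (insert y A) then (1 : ℤ) else 0) -
        (if P A then (1 : ℤ) else 0)) := by
  conv_lhs => rw [← insert_erase hy]
  rw [sum_powerset_insert (notMem_erase y S), ← sum_add_distrib]
  refine sum_congr rfl fun A hA => ?_
  have hyA : y ∉ A := fun h => notMem_erase y S (mem_powerset.1 hA h)
  unfold sg
  rw [if_neg hyA, if_pos (mem_insert_self y A)]
  split_ifs <;> simp

/-- The count for the glued family. -/
theorem Ft_count (hST : Disjoint S T) (hT : 2 ≤ T.card) {y : α} (hy : y ∈ S) :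
    ∑ X ∈ Ft S T G0 K, sg y X = ∑ A ∈ S.powerset, (if A ∈ G0 then sg y A else 0) +
      ∑ t ∈ T, ∑ A ∈ S.powerset, if A ∈ K t then sg y A else 0 := by
  have hyT : y ∉ T := disjoint_left.1 hST hy
  have e : ∀ A B : Finset α, B ⊆ T → sg y (A ∪ B) = sg y A := by
    intro A B hB
    unfold sg
    have : y ∉ B := fun h => hyT (hB h)
    simp [this]
  rw [Ft_sum hST hT]
  congr 1
  have h0 : ∑ A ∈ S.powerset, sg y (A ∪ T) = 0 := by
    have h1 := signed' hy (fun _ => True)
    simp only [if_true, sub_self, sum_const_zero] at h1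
    rw [← h1]
    exact sum_congr rfl fun A _ => e A T Subset.rfl
  rw [h0, zero_add]
  refine sum_congr rfl fun t _ => sum_congr rfl fun A _ => ?_
  rw [e A _ (erase_subset _ _)]

theorem sg_sum (F : Finset (Finset α)) (y : α) : ∑ X ∈ F, sg y X =
    2 * ((F.filter (fun A => y ∈ A)).card : ℤ) - F.card := by
  unfold sg
  rw [← sum_filter_add_sum_filter_not F (fun A => y ∈ A)]
  rw [sum_congr rfl (fun A hA => if_pos (mem_filter.1 hA).2),
    sum_congr rfl (fun A hA => if_neg (mem_filter.1 hA).2), sum_const, sum_const,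
    nsmul_eq_mul, nsmul_eq_mul]
  have h6 := card_filter_add_card_filter_not (s := F) (fun A => y ∈ A)
  have h7 : ((F.filter (fun A => y ∈ A)).card : ℤ) + (F.filter (fun A => ¬ y ∈ A)).card =
      F.card := by exact_mod_cast h6
  linarith

/-- the test family of `x` and `𝒟` -/
noncomputable def Kt (S : Finset α) (x : α) (𝒟 : Finset (Finset α)) : Finset (Finset α) :=
  S.powerset.filter (fun A => x ∉ A ∨ A.erase x ∉ 𝒟)

theorem Kt_union {x : α} {𝒟 : Finset (Finset α)} (hD : ∀ D ∈ 𝒟, ∀ D' ⊆ D, D' ∈ 𝒟) :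
    ∀ A ∈ Kt S x 𝒟, ∀ B ∈ Kt S x 𝒟, A ∪ B ∈ Kt S x 𝒟 := by
  intro A hA B hB
  unfold Kt at *
  rw [mem_filter, mem_powerset] at *
  refine ⟨union_subset hA.1 hB.1, ?_⟩
  by_cases hx : x ∈ A ∪ B
  · right
    intro h
    rcases mem_union.1 hx with h1 | h1
    · exact hA.2.elim (fun h2 => h2 h1)
        (fun h2 => h2 (hD _ h _ (erase_subset_erase x subset_union_left)))
    · exact hB.2.elim (fun h2 => h2 h1)
        (fun h2 => h2 (hD _ h _ (erase_subset_erase x subset_union_right)))
  · left; exact hx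

/-- the entries of the test matrix -/
noncomputable def vt (x : α) (𝒟 : Finset (Finset α)) (y : α) : ℤ :=
  if y = x then -(𝒟.card : ℤ) else ((𝒟.filter (fun E => y ∉ E ∧ insert y E ∉ 𝒟)).card : ℤ)

theorem Kt_count {x y : α} (hx : x ∈ S) (hy : y ∈ S) {𝒟 : Finset (Finset α)}
    (hN : ∀ D ∈ 𝒟, D ⊆ S.erase x) (hD : ∀ D ∈ 𝒟, ∀ D' ⊆ D, D' ∈ 𝒟) :
    ∑ A ∈ S.powerset, (if A ∈ Kt S x 𝒟 then sg y A else 0) = vt x 𝒟 y := by
  obtain ⟨P, hP⟩ : ∃ P : Finset α → Prop, ∀ A, P A ↔ (x ∉ A ∨ A.erase x ∉ 𝒟) :=
    ⟨_, fun _ => Iff.rfl⟩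
  have h0 : ∑ A ∈ S.powerset, (if A ∈ Kt S x 𝒟 then sg y A else 0) =
      ∑ A ∈ S.powerset, (if P A then sg y A else 0) := by
    refine sum_congr rfl fun A hA => if_congr ?_ rfl rfl
    unfold Kt
    rw [mem_filter, hP]
    exact ⟨fun h => h.2, fun h => ⟨hA, h⟩⟩
  rw [h0, signed' hy P]
  unfold vt
  split_ifs with hyx
  · subst hyx
    have h1 : ∀ A ∈ (S.erase y).powerset,
        ((if P (insert y A) then (1 : ℤ) else 0) - (if P A then (1 : ℤ) else 0)) =
          -(if A ∈ 𝒟 then 1 else 0) := by
      intro A hA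
      have hyA : y ∉ A := fun h => notMem_erase y S (mem_powerset.1 hA h)
      have e1 := hP A
      have e2 := hP (insert y A)
      rw [erase_insert hyA] at e2
      by_cases h : A ∈ 𝒟
      · have e3 : ¬ P (insert y A) := by rw [e2]; simp [h]
        have e4 : P A := by rw [e1]; exact Or.inl hyA
        simp [e3, e4, h]
      · have e3 : P (insert y A) := by rw [e2]; exact Or.inr h
        have e4 : P A := by rw [e1]; exact Or.inl hyA
        simp [e3, e4, h]
    rw [sum_congr rfl h1, sum_neg_distrib, sum_boole]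
    congr 3
    ext A
    simp only [mem_filter, mem_powerset]
    exact ⟨fun h => h.2, fun h => ⟨hN A h, h⟩⟩
  · have hxy : x ∈ S.erase y := mem_erase.2 ⟨fun h => hyx h.symm, hx⟩
    have hsw : (S.erase y).powerset = (insert x ((S.erase y).erase x)).powerset := by
      rw [insert_erase hxy]
    rw [hsw, sum_powerset_insert (notMem_erase x _)]
    have hxA' : ∀ A ∈ ((S.erase y).erase x).powerset, x ∉ A ∧ x ∉ insert y A := by
      intro A hA
      have hxA : x ∉ A := fun h => notMem_erase x _ (mem_powerset.1 hA h)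
      refine ⟨hxA, ?_⟩
      rw [mem_insert]; rintro (h | h)
      · exact hyx h.symm
      · exact hxA h
    have h1 : ∀ A ∈ ((S.erase y).erase x).powerset,
        ((if P (insert y A) then (1 : ℤ) else 0) - (if P A then (1 : ℤ) else 0)) = 0 := by
      intro A hA
      obtain ⟨hxA, hxyA⟩ := hxA' A hA
      have e1 : P A := (hP A).2 (Or.inl hxA)
      have e2 : P (insert y A) := (hP _).2 (Or.inl hxyA)
      simp [e1, e2]
    have h2 : ∀ A ∈ ((S.erase y).erase x).powerset,
        ((if P (insert y (insert x A)) then (1 : ℤ) else 0) -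
          (if P (insert x A) then (1 : ℤ) else 0)) =
          if (A ∈ 𝒟 ∧ insert y A ∉ 𝒟) then 1 else 0 := by
      intro A hA
      obtain ⟨hxA, hxyA⟩ := hxA' A hA
      have e0 : (insert y (insert x A)).erase x = insert y A := by
        rw [insert_comm, erase_insert hxyA]
      have e1 : P (insert x A) ↔ A ∉ 𝒟 := by
        rw [hP, erase_insert hxA]; simp
      have e2 : P (insert y (insert x A)) ↔ insert y A ∉ 𝒟 := by
        rw [hP, e0]; simp
      by_cases h3 : A ∈ 𝒟 <;> by_cases h4 : insert y A ∈ 𝒟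
      · simp [h3, h4, e1, e2]
      · simp [h3, h4, e1, e2]
      · exact absurd (hD _ h4 _ (subset_insert _ _)) h3
      · simp [h3, h4, e1, e2]
    rw [sum_congr rfl h1, sum_const_zero, zero_add, sum_congr rfl h2, sum_boole]
    congr 2
    ext A
    simp only [mem_filter, mem_powerset]
    constructor
    · rintro ⟨h3, h4, h5⟩
      exact ⟨h4, fun h6 => by
        have := mem_erase.1 (mem_of_mem_erase (h3 h6))
        exact this.1 rfl, h5⟩
    · rintro ⟨h4, h6, h5⟩
      refine ⟨?_, h4, h5⟩
      intro z hz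
      have h7 := hN A h4 hz
      rw [mem_erase] at h7
      rw [mem_erase, mem_erase]
      exact ⟨h7.1, fun h8 => h6 (h8 ▸ hz), h7.2⟩

end

end Pool.Agent.N188.FC
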