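import Mathlib

set_option autoImplicit false

/-!
# Down-closed families all of whose members are small
-/

namespace Pool.Agent.N188.FC

open Finset
open scoped Classical

variable {α : Type*} [DecidableEq α]

section

variable {𝒟 : Finset (Finset α)} {N : Finset α}

theorem up_pairs (hN : ∀ D ∈ 𝒟, D ⊆ N) (hD : ∀ D ∈ 𝒟, ∀ D' ⊆ D, D' ∈ 𝒟) :
    ∑ E ∈ 𝒟, (N.filter (fun k => k ∉ E ∧ insert k E ∈ 𝒟)).card = ∑ E ∈ 𝒟, E.card := by
  have h1 : ∀ E ∈ 𝒟, (N.filter (fun k => k ∉ E ∧ insert k E ∈ 𝒟)).card =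
      ∑ k ∈ N, if (k ∉ E ∧ insert k E ∈ 𝒟) then 1 else 0 := by
    intro E _; rw [card_filter]
  have h2 : ∀ E ∈ 𝒟, E.card = ∑ k ∈ N, if k ∈ E then 1 else 0 := by
    intro E hE
    rw [← card_filter]
    congr 1
    ext k
    simp only [mem_filter]
    exact ⟨fun h => ⟨hN E hE h, h⟩, fun h => h.2⟩
  rw [sum_congr rfl h1, sum_congr rfl h2, sum_comm, sum_comm (s := 𝒟)]
  refine sum_congr rfl fun k hk => ?_
  rw [← card_filter, ← card_filter]
  refine card_bij (fun E _ => insert k E) ?_ ?_ ?_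
  · intro E hE
    rw [mem_filter] at hE ⊢
    exact ⟨hE.2.2, mem_insert_self _ _⟩
  · intro E hE E' hE' h
    rw [mem_filter] at hE hE'
    rw [← erase_insert hE.2.1, ← erase_insert hE'.2.1]
    exact congrArg (fun A => A.erase k) h
  · intro E hE
    rw [mem_filter] at hE
    refine ⟨E.erase k, ?_, insert_erase hE.2⟩
    rw [mem_filter]
    exact ⟨hD E hE.1 _ (erase_subset _ _), notMem_erase _ _, by rw [insert_erase hE.2]; exact hE.1⟩

theorem edges_eq (hN : ∀ D ∈ 𝒟, D ⊆ N) (hD : ∀ D ∈ 𝒟, ∀ D' ⊆ D, D' ∈ 𝒟) :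
    ∑ E ∈ 𝒟, (N.filter (fun k => k ∉ E ∧ insert k E ∉ 𝒟)).card + 2 * ∑ E ∈ 𝒟, E.card =
      𝒟.card * N.card := by
  have h1 := up_pairs hN hD
  have h2 : ∀ E ∈ 𝒟, (N.filter (fun k => k ∉ E ∧ insert k E ∉ 𝒟)).card +
      (N.filter (fun k => k ∉ E ∧ insert k E ∈ 𝒟)).card + E.card = N.card := by
    intro E hE
    have h3 := card_sdiff_add_card_eq_card (hN E hE)
    have h4 := card_filter_add_card_filter_not (s := N \ E) (fun k => insert k E ∈ 𝒟)
    have h5 : (N \ E).filter (fun k => insert k E ∈ 𝒟) =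
        N.filter (fun k => k ∉ E ∧ insert k E ∈ 𝒟) := by
      ext k; simp only [mem_filter, mem_sdiff]; tauto
    have h6 : (N \ E).filter (fun k => ¬ insert k E ∈ 𝒟) =
        N.filter (fun k => k ∉ E ∧ insert k E ∉ 𝒟) := by
      ext k; simp only [mem_filter, mem_sdiff]; tauto
    rw [h5, h6] at h4
    omega
  have h7 := sum_congr (rfl : 𝒟 = 𝒟) h2
  rw [sum_add_distrib, sum_add_distrib, h1, sum_const, smul_eq_mul] at h7
  omega

theorem level_step (hN : ∀ D ∈ 𝒟, D ⊆ N) (hD : ∀ D ∈ 𝒟, ∀ D' ⊆ D, D' ∈ 𝒟) (i : ℕ) :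
    (i + 1) * (𝒟.filter (fun E => E.card = i + 1)).card ≤
      (N.card - i) * (𝒟.filter (fun E => E.card = i)).card := by
  have h1 : (i + 1) * (𝒟.filter (fun E => E.card = i + 1)).card =
      ∑ k ∈ N, ((𝒟.filter (fun E => E.card = i + 1)).filter (fun E => k ∈ E)).card := by
    have h2 : ∀ k ∈ N, ((𝒟.filter (fun E => E.card = i + 1)).filter (fun E => k ∈ E)).card =
        ∑ E ∈ 𝒟.filter (fun E => E.card = i + 1), if k ∈ E then 1 else 0 := by
      intro k _; rw [card_filter]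
    rw [sum_congr rfl h2, sum_comm]
    have h3 : ∀ E ∈ 𝒟.filter (fun E => E.card = i + 1), ∑ k ∈ N, (if k ∈ E then 1 else 0) =
        i + 1 := by
      intro E hE
      rw [mem_filter] at hE
      rw [← card_filter, filter_mem_eq_inter, inter_eq_right.2 (hN E hE.1), hE.2]
    rw [sum_congr rfl h3, sum_const, smul_eq_mul, mul_comm]
  have h4 : (N.card - i) * (𝒟.filter (fun E => E.card = i)).card =
      ∑ k ∈ N, ((𝒟.filter (fun E => E.card = i)).filter (fun E => k ∉ E)).card := by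
    have h2 : ∀ k ∈ N, ((𝒟.filter (fun E => E.card = i)).filter (fun E => k ∉ E)).card =
        ∑ E ∈ 𝒟.filter (fun E => E.card = i), if k ∉ E then 1 else 0 := by
      intro k _; rw [card_filter]
    rw [sum_congr rfl h2, sum_comm]
    have h3 : ∀ E ∈ 𝒟.filter (fun E => E.card = i), ∑ k ∈ N, (if k ∉ E then 1 else 0) =
        N.card - i := by
      intro E hE
      rw [mem_filter] at hE
      rw [← card_filter, ← hE.2, ← card_sdiff_of_subset (hN E hE.1)]
      congr 1
      ext k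
      simp only [mem_filter, mem_sdiff]
    rw [sum_congr rfl h3, sum_const, smul_eq_mul, mul_comm]
  rw [h1, h4]
  refine sum_le_sum fun k _ => ?_
  refine card_le_card_of_injOn (fun E => E.erase k) ?_ ?_
  · intro E hE
    simp only [coe_filter, mem_filter, Set.mem_setOf_eq] at hE ⊢
    refine ⟨⟨hD E hE.1.1 _ (erase_subset _ _), ?_⟩, notMem_erase _ _⟩
    rw [card_erase_of_mem hE.2, hE.1.2]
    rfl
  · intro E hE E' hE' h
    simp only [coe_filter, mem_filter, Set.mem_setOf_eq] at hE hE'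
    rw [← insert_erase hE.2, ← insert_erase hE'.2]
    exact congrArg (fun A => insert k A) h

theorem choose_sum (m q : ℕ) :
    ∑ i ∈ range q, (m.choose i : ℝ) * (m - 2 * i) = q * m.choose q := by
  induction q with
  | zero => simp
  | succ q ih =>
    rw [sum_range_succ, ih]
    have h1 := Nat.choose_succ_right_eq m q
    rcases le_or_gt q m with h | h
    · have h2 : ((m.choose (q + 1) : ℝ)) * (q + 1) = m.choose q * (m - q) := by
        have h3 : ((m - q : ℕ) : ℝ) = m - q := by push_cast [h]; ring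
        rw [← h3]
        exact_mod_cast h1
      push_cast
      linarith
    · rw [Nat.choose_eq_zero_of_lt h, Nat.choose_eq_zero_of_lt (by omega)]
      simp

theorem small_members {q : ℕ} (hN : ∀ D ∈ 𝒟, D ⊆ N) (hD : ∀ D ∈ 𝒟, ∀ D' ⊆ D, D' ∈ 𝒟)
    (hq : ∀ D ∈ 𝒟, D.card < q)
    (hc : ∑ i ∈ range q, (N.card).choose i ≤ q * (N.card).choose q) :
    𝒟.card ≤ ∑ E ∈ 𝒟, (N.filter (fun k => k ∉ E ∧ insert k E ∉ 𝒟)).card := by
  set m := N.card with hm
  set a : ℕ → ℕ := fun i => (𝒟.filter (fun E => E.card = i)).card with ha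
  set b : ℕ → ℝ := fun i => a i / m.choose i with hb
  have ha0 : ∀ i, m < i → a i = 0 := by
    intro i hi
    rw [ha]
    simp only [card_eq_zero, filter_eq_empty_iff]
    intro E hE h
    have := card_le_card (hN E hE)
    omega
  have hab : ∀ i, (a i : ℝ) = b i * m.choose i := by
    intro i
    rcases le_or_gt i m with h | h
    · have : (m.choose i : ℝ) ≠ 0 := by
        have := Nat.choose_pos h
        positivity
      rw [hb]
      field_simp
    · rw [ha0 i h, Nat.choose_eq_zero_of_lt h]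
      simp
  have hanti : Antitone b := by
    refine antitone_nat_of_succ_le fun i => ?_
    rcases le_or_gt (i + 1) m with h | h
    · have h1 : (0 : ℝ) < m.choose i := by
        have := Nat.choose_pos (show i ≤ m by omega)
        exact_mod_cast this
      have h2 : (0 : ℝ) < m.choose (i + 1) := by
        have := Nat.choose_pos h
        exact_mod_cast this
      rw [hb]
      show (a (i + 1) : ℝ) / m.choose (i + 1) ≤ a i / m.choose i
      rw [div_le_div_iff₀ h2 h1]
      have h3 := level_step hN hD i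
      have h4 := Nat.choose_succ_right_eq m i
      have h5 : (i + 1) * (a (i + 1) * m.choose i) ≤ (i + 1) * (a i * m.choose (i + 1)) := by
        calc (i + 1) * (a (i + 1) * m.choose i) = (i + 1) * a (i + 1) * m.choose i := by ring
          _ ≤ (m - i) * a i * m.choose i := Nat.mul_le_mul_right _ h3
          _ = a i * (m.choose i * (m - i)) := by ring
          _ = a i * (m.choose (i + 1) * (i + 1)) := by rw [h4]
          _ = (i + 1) * (a i * m.choose (i + 1)) := by ring
      have h6 := Nat.le_of_mul_le_mul_left h5 (Nat.succ_pos i)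
      exact_mod_cast h6
    · rw [hb]
      show (a (i + 1) : ℝ) / m.choose (i + 1) ≤ a i / m.choose i
      rw [ha0 _ h]
      rw [Nat.cast_zero, zero_div]
      exact div_nonneg (Nat.cast_nonneg _) (Nat.cast_nonneg _)
  have hb0 : ∀ i, 0 ≤ b i := fun i => div_nonneg (Nat.cast_nonneg _) (Nat.cast_nonneg _)
  have h1 := edges_eq hN hD
  have h2 : ∀ f : ℕ → ℝ, ∑ E ∈ 𝒟, f E.card = ∑ i ∈ range q, (a i : ℝ) * f i := by
    intro f
    rw [← sum_fiberwise_of_maps_to (g := fun E : Finset α => E.card)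
      (fun E hE => mem_range.2 (hq E hE))]
    refine sum_congr rfl fun i _ => ?_
    rw [ha]
    rw [← nsmul_eq_mul, ← sum_const]
    refine sum_congr rfl fun E hE => ?_
    rw [(mem_filter.1 hE).2]
  have h3 : ∑ i ∈ range q, b ((m - 1) / 2) * ((m.choose i : ℝ) * (m - 2 * i - 1)) ≤
      ∑ i ∈ range q, (a i : ℝ) * ((m : ℝ) - 2 * i - 1) := by
    refine sum_le_sum fun i _ => ?_
    rw [hab i, mul_assoc]
    rcases le_or_gt (2 * i + 1) m with h | h
    · have h4 : (0 : ℝ) ≤ (m.choose i : ℝ) * (m - 2 * i - 1) := by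
        have : ((2 * i + 1 : ℕ) : ℝ) ≤ m := by exact_mod_cast h
        push_cast at this
        exact mul_nonneg (Nat.cast_nonneg _) (by linarith)
      exact mul_le_mul_of_nonneg_right (hanti (by omega)) h4
    · have h4 : (m.choose i : ℝ) * (m - 2 * i - 1) ≤ 0 := by
        have : (m : ℝ) ≤ ((2 * i + 1 : ℕ) : ℝ) := by exact_mod_cast h.le
        push_cast at this
        exact mul_nonpos_of_nonneg_of_nonpos (Nat.cast_nonneg _) (by linarith)
      exact mul_le_mul_of_nonpos_right (hanti (by omega)) h4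
  have h4 : 0 ≤ ∑ i ∈ range q, b ((m - 1) / 2) * ((m.choose i : ℝ) * (m - 2 * i - 1)) := by
    rw [← mul_sum]
    refine mul_nonneg (hb0 _) ?_
    have h5 := choose_sum m q
    have h6 : ∑ i ∈ range q, (m.choose i : ℝ) * (m - 2 * i - 1) =
        ∑ i ∈ range q, (m.choose i : ℝ) * (m - 2 * i) - ∑ i ∈ range q, (m.choose i : ℝ) := by
      rw [← sum_sub_distrib]
      exact sum_congr rfl fun i _ => by ring
    rw [h6, h5]
    have h7 : (∑ i ∈ range q, (m.choose i : ℝ)) ≤ q * m.choose q := by exact_mod_cast hc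
    linarith
  have h5 := h2 (fun i => (m : ℝ) - 2 * i - 1)
  rw [← h5] at h3
  have h6 : ∑ E ∈ 𝒟, ((m : ℝ) - 2 * (E.card : ℝ) - 1) =
      𝒟.card * m - 2 * ∑ E ∈ 𝒟, (E.card : ℝ) - 𝒟.card := by
    rw [sum_sub_distrib, sum_sub_distrib, ← mul_sum]
    simp
  rw [h6] at h3
  have h7 : ((∑ E ∈ 𝒟, (N.filter (fun k => k ∉ E ∧ insert k E ∉ 𝒟)).card : ℕ) : ℝ) +
      2 * ∑ E ∈ 𝒟, (E.card : ℝ) = 𝒟.card * m := by exact_mod_cast h1
  have h8 : (𝒟.card : ℝ) ≤ ((∑ E ∈ 𝒟, (N.filter (fun k => k ∉ E ∧ insert k E ∉ 𝒟)).card : ℕ) : ℝ) := by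
    linarith
  exact_mod_cast h8

end

end Pool.Agent.N188.FC
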