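import Mathlib

set_option autoImplicit false

/-!
# A theorem of the alternative (Ville), and integral multiplicities
-/

namespace Pool.Agent.N188.FC

open Finset

section

variable {ι κ : Type*} [Fintype ι] [Fintype κ]

theorem ville (v : ι → κ → ℝ)
    (h : ¬ ∃ w : ι → ℝ, (∀ i, 0 ≤ w i) ∧ ∀ y, ∑ i, w i * v i y < 0) :
    ∃ c : κ → ℝ, (∀ y, 0 ≤ c y) ∧ (∃ y, 0 < c y) ∧ ∀ i, 0 ≤ ∑ y, c y * v i y := by
  classical
  let O : Set (κ → ℝ) := {z | ∀ y, z y < 0}
  let C : Set (κ → ℝ) := {z | ∃ w : ι → ℝ, (∀ i, 0 ≤ w i) ∧ z = fun y => ∑ i, w i * v i y}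
  have hO : Convex ℝ O := by
    intro a ha b hb s t hs ht hst y
    have h1 := ha y
    have h2 := hb y
    simp only [Pi.add_apply, Pi.smul_apply, smul_eq_mul]
    rcases hs.eq_or_lt with h0 | h0
    · subst h0
      have : t = 1 := by linarith
      subst this
      linarith
    · nlinarith
  have hO2 : IsOpen O := by
    have : O = ⋂ y, {z : κ → ℝ | z y < 0} := by
      ext z; simp [O]
    rw [this]
    exact isOpen_iInter_of_finite fun y => isOpen_lt (continuous_apply y) continuous_const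
  have hC : Convex ℝ C := by
    rintro a ⟨w, hw, rfl⟩ b ⟨w', hw', rfl⟩ s t hs ht _
    refine ⟨fun i => s * w i + t * w' i, fun i => ?_, ?_⟩
    · exact add_nonneg (mul_nonneg hs (hw i)) (mul_nonneg ht (hw' i))
    · ext y
      simp only [Pi.add_apply, Pi.smul_apply, smul_eq_mul, mul_sum, ← sum_add_distrib]
      exact sum_congr rfl fun i _ => by ring
  have hd : Disjoint O C := by
    rw [Set.disjoint_left]
    rintro z hz ⟨w, hw, rfl⟩
    exact h ⟨w, hw, hz⟩
  obtain ⟨f, u, h1, h2⟩ := geometric_hahn_banach_open hO hO2 hC hd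
  have hf : ∀ z : κ → ℝ, f z = ∑ y, f (Pi.single y 1) * z y := by
    intro z
    conv_lhs => rw [pi_eq_sum_univ' z]
    rw [map_sum]
    refine sum_congr rfl fun y _ => ?_
    rw [map_smul, smul_eq_mul, mul_comm]
  have hC0 : ∀ b ∈ C, 0 ≤ f b := by
    rintro b ⟨w, hw, rfl⟩
    by_contra hneg
    push Not at hneg
    obtain ⟨N, hN⟩ := exists_nat_gt ((-u) / (-f (fun y => ∑ i, w i * v i y)))
    have h3 := h2 (fun y => ∑ i, ((N : ℝ) * w i) * v i y)
      ⟨fun i => N * w i, fun i => mul_nonneg (Nat.cast_nonneg _) (hw i), rfl⟩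
    have h4 : (fun y => ∑ i, ((N : ℝ) * w i) * v i y) =
        (N : ℝ) • (fun y => ∑ i, w i * v i y) := by
      ext y
      simp only [Pi.smul_apply, smul_eq_mul, mul_sum]
      exact sum_congr rfl fun i _ => by ring
    rw [h4, map_smul, smul_eq_mul] at h3
    rw [div_lt_iff₀ (by linarith)] at hN
    nlinarith
  have hu : u ≤ 0 := by
    have h3 := h2 (fun y => ∑ i, (0 : ℝ) * v i y) ⟨fun _ => 0, fun _ => le_rfl, rfl⟩
    have h4 : (fun y => ∑ i, (0 : ℝ) * v i y) = (0 : κ → ℝ) := by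
      ext y; simp
    rw [h4, map_zero] at h3
    exact h3
  have hneg : ∀ a ∈ O, f a < 0 := fun a ha => (h1 a ha).trans_le hu
  have hc0 : ∀ y, 0 ≤ f (Pi.single y 1) := by
    intro y
    by_contra hy
    push Not at hy
    set s := ∑ y', f (Pi.single y' 1) with hs
    have h3 : ∀ ε : ℝ, 0 < ε → -f (Pi.single y 1) - ε * s < 0 := by
      intro ε hε
      have h4 := hneg (fun y' => -(Pi.single y (1 : ℝ) : κ → ℝ) y' - ε) (by
        intro y'
        have : (0 : ℝ) ≤ (Pi.single y (1 : ℝ) : κ → ℝ) y' := by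
          rw [Pi.single_apply]; split_ifs <;> norm_num
        show -(Pi.single y (1 : ℝ) : κ → ℝ) y' - ε < 0
        linarith)
      have h5 : (fun y' => -(Pi.single y (1 : ℝ) : κ → ℝ) y' - ε) =
          -(Pi.single y (1 : ℝ) : κ → ℝ) - ε • (fun _ => (1 : ℝ)) := by
        ext y'; simp
      rw [h5, map_sub, map_neg, map_smul, hf (fun _ => (1 : ℝ))] at h4
      simpa [hs] using h4
    have h4 := h3 ((-f (Pi.single y 1)) / (2 * (|s| + 1)))
      (div_pos (by linarith) (by positivity))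
    have h5 : (-f (Pi.single y 1)) / (2 * (|s| + 1)) * s ≤ (-f (Pi.single y 1)) / 2 := by
      have h6 : s ≤ |s| + 1 := by linarith [le_abs_self s]
      have h7 : 0 ≤ (-f (Pi.single y 1)) / (2 * (|s| + 1)) :=
        div_nonneg (by linarith) (by positivity)
      calc (-f (Pi.single y 1)) / (2 * (|s| + 1)) * s
          ≤ (-f (Pi.single y 1)) / (2 * (|s| + 1)) * (|s| + 1) :=
            mul_le_mul_of_nonneg_left h6 h7
        _ = _ := by field_simp
    linarith
  refine ⟨fun y => f (Pi.single y 1), hc0, ?_, ?_⟩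
  · by_contra hno
    push Not at hno
    have h3 := hneg (fun _ => -1) (fun _ => by norm_num)
    rw [hf] at h3
    have h4 : ∀ y ∈ (univ : Finset κ), f (Pi.single y 1) * (-1) = 0 := by
      intro y _
      have := le_antisymm (hno y) (hc0 y)
      rw [this]; ring
    rw [sum_eq_zero h4] at h3
    exact lt_irrefl _ h3
  · intro i
    have h3 := hC0 (fun y => ∑ j, (if j = i then (1 : ℝ) else 0) * v j y)
      ⟨fun j => if j = i then 1 else 0, fun j => by dsimp only; split_ifs <;> norm_num, rfl⟩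
    have h4 : (fun y => ∑ j, (if j = i then (1 : ℝ) else 0) * v j y) = v i := by
      ext y
      simp
    rw [h4, hf] at h3
    exact h3

/-- Integral multiplicities. -/
theorem multiplicities (v : ι → κ → ℝ) (C : ℝ) {w : ι → ℝ} (hw : ∀ i, 0 ≤ w i)
    (h : ∀ y, ∑ i, w i * v i y < 0) : ∃ m : ι → ℕ, ∀ y, ∑ i, (m i : ℝ) * v i y < - C := by
  classical
  have h1 : ∀ y, ∃ N : ℕ, (C + ∑ i, |v i y|) / (-∑ i, w i * v i y) < N := fun y => exists_nat_gt _
  choose N hN using h1
  refine ⟨fun i => ⌈((∑ y, N y : ℕ) : ℝ) * w i⌉₊, fun y => ?_⟩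
  set M := ((∑ y, N y : ℕ) : ℝ) with hM
  have hMy : (N y : ℝ) ≤ M := by
    rw [hM]
    exact_mod_cast single_le_sum (f := N) (fun _ _ => Nat.zero_le _) (mem_univ y)
  have hM0 : 0 ≤ M := Nat.cast_nonneg _
  have h2 : ∑ i, (⌈M * w i⌉₊ : ℝ) * v i y ≤ ∑ i, (M * (w i * v i y) + |v i y|) := by
    refine sum_le_sum fun i _ => ?_
    have h3 := Nat.le_ceil (M * w i)
    have h4 := Nat.ceil_lt_add_one (mul_nonneg hM0 (hw i))
    have h5 : ((⌈M * w i⌉₊ : ℝ) - M * w i) * v i y ≤ |v i y| := by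
      rcases le_or_gt 0 (v i y) with h6 | h6
      · rw [abs_of_nonneg h6]; nlinarith
      · rw [abs_of_neg h6]; nlinarith
    linarith
  rw [sum_add_distrib, ← mul_sum] at h2
  have h3 := hN y
  have h4 := h y
  rw [div_lt_iff₀ (by linarith)] at h3
  have h5 : M * (∑ i, w i * v i y) ≤ N y * (∑ i, w i * v i y) := by nlinarith
  linarith

end

end Pool.Agent.N188.FC
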