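import Pool.Agent.N188.FC.Weight
import Pool.Agent.N188.FC.Uni
import Pool.Agent.N188.FC.Ville
import Pool.Agent.N188.FC.Constr

set_option autoImplicit false

/-!
# Characterization of the families forcing a frequent element
-/

namespace Pool.Agent.N188.FC

open Finset
open scoped Classical

section

variable {α : Type*} [DecidableEq α] {F G : Finset (Finset α)} {S : Finset α}

/-- `𝒟` is a down-closed family of subsets of `S \ {x}` which avoids `G` at `x` -/
def Valid (S : Finset α) (G : Finset (Finset α)) (x : α) (𝒟 : Finset (Finset α)) : Prop :=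
  (∀ D ∈ 𝒟, D ⊆ S.erase x) ∧ (∀ D ∈ 𝒟, ∀ D' ⊆ D, D' ∈ 𝒟) ∧
    ∀ D ∈ 𝒟, ∀ B ∈ G, x ∈ B → ¬ B ⊆ insert x D

theorem fc_of_weights (hF : ∀ A ∈ F, ∀ B ∈ F, A ∪ B ∈ F) (hG : ∀ B ∈ G, B ⊆ S)
    (ha : ∀ A ∈ F, ∀ B ∈ G, A ∪ B ∈ F) {c : α → ℝ} (hc0 : ∀ x, 0 ≤ c x)
    (hpos : ∃ x ∈ S, 0 < c x)
    (hc : ∀ x ∈ S, ∀ 𝒟 : Finset (Finset α), Valid S G x 𝒟 → c x * 𝒟.card ≤
      ∑ D ∈ 𝒟, ∑ k ∈ (S.erase x).filter (fun k => k ∉ D ∧ insert k D ∉ 𝒟), c k) :
    ∃ x ∈ S, F.card ≤ 2 * (F.filter (fun A => x ∈ A)).card := by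
  have h1 := crit_w (c := c) hF hG ha (l := 1) hc0 zero_le_one le_rfl (fun x hx =>
    isoW_of hc0 (fun 𝒟 h1 h2 h3 => by rw [one_mul]; exact hc x hx 𝒟 ⟨h1, h2, h3⟩))
  by_contra hno
  push Not at hno
  have h2 : ∑ A ∈ F, ∑ x ∈ A ∩ S, c x = ∑ x ∈ S, c x * ((F.filter (fun A => x ∈ A)).card : ℝ) := by
    have h3 : ∀ A ∈ F, ∑ x ∈ A ∩ S, c x = ∑ x ∈ S, if x ∈ A then c x else 0 := by
      intro A _
      rw [← sum_filter, filter_mem_eq_inter, inter_comm]
    rw [sum_congr rfl h3, sum_comm]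
    refine sum_congr rfl fun x _ => ?_
    rw [← sum_filter, sum_const, nsmul_eq_mul, mul_comm]
  rw [h2, mul_sum, one_mul, mul_sum] at h1
  obtain ⟨x0, hx0, hcx0⟩ := hpos
  have h4 : ∑ x ∈ S, (1 + 1) * (c x * ((F.filter (fun A => x ∈ A)).card : ℝ)) <
      ∑ x ∈ S, (F.card : ℝ) * c x := by
    refine sum_lt_sum ?_ ⟨x0, hx0, ?_⟩
    · intro x hx
      have h5 : (2 * (F.filter (fun A => x ∈ A)).card : ℝ) < F.card := by exact_mod_cast hno x hx
      nlinarith [hc0 x]
    · have h5 : (2 * (F.filter (fun A => x0 ∈ A)).card : ℝ) < F.card := by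
        exact_mod_cast hno x0 hx0
      nlinarith
  linarith

theorem Kt_absorb {x : α} {𝒟 : Finset (Finset α)} (hG : ∀ B ∈ G, B ⊆ S) (hv : Valid S G x 𝒟) :
    ∀ A ∈ Kt S x 𝒟, ∀ B ∈ G, A ∪ B ∈ Kt S x 𝒟 := by
  intro A hA B hB
  unfold Kt at *
  rw [mem_filter, mem_powerset] at *
  refine ⟨union_subset hA.1 (hG B hB), ?_⟩
  by_cases hx : x ∈ A ∪ B
  · right
    intro h
    by_cases hxB : x ∈ B
    · refine hv.2.2 _ h B hB hxB ?_
      rw [insert_erase hx]
      exact subset_union_right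
    · have hxA : x ∈ A := (mem_union.1 hx).resolve_right hxB
      exact hA.2.elim (fun h2 => h2 hxA)
        (fun h2 => h2 (hv.2.1 _ h _ (erase_subset_erase x subset_union_left)))
  · left; exact hx

/-- the pairs `(x, 𝒟)` -/
noncomputable def Pairs (S : Finset α) (G : Finset (Finset α)) :
    Finset (α × Finset (Finset α)) :=
  (S ×ˢ S.powerset.powerset).filter (fun p => Valid S G p.1 p.2)

theorem mem_Pairs {p : α × Finset (Finset α)} :
    p ∈ Pairs S G ↔ p.1 ∈ S ∧ Valid S G p.1 p.2 := by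
  unfold Pairs
  rw [mem_filter, mem_product, mem_powerset]
  constructor
  · rintro ⟨⟨h1, _⟩, h3⟩
    exact ⟨h1, h3⟩
  · rintro ⟨h1, h3⟩
    refine ⟨⟨h1, ?_⟩, h3⟩
    intro D hD
    rw [mem_powerset]
    exact (h3.1 D hD).trans (erase_subset _ _)

/-- the sets absorbed by all test families -/
noncomputable def G0s (S : Finset α) (G : Finset (Finset α)) : Finset (Finset α) :=
  S.powerset.filter (fun A => ∀ p ∈ Pairs S G, ∀ X ∈ Kt S p.1 p.2, X ∪ A ∈ Kt S p.1 p.2)

omit [DecidableEq α] in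
theorem exists_emb {J : Type*} [Fintype J] [Infinite α] (S : Finset α) :
    ∃ e : J ↪ α, ∀ j, e j ∉ S := by
  have : Infinite ((↑S : Set α)ᶜ : Set α) := (S.finite_toSet.infinite_compl).to_subtype
  refine ⟨((Fintype.equivFin J).toEmbedding.trans (Fin.valEmbedding.trans
    (Infinite.natEmbedding ((↑S : Set α)ᶜ : Set α)))).trans (Function.Embedding.subtype _), ?_⟩
  intro j
  have h := ((Infinite.natEmbedding ((↑S : Set α)ᶜ : Set α)) ((Fintype.equivFin J) j : ℕ)).2
  exact fun h1 => h (Finset.mem_coe.2 h1)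

theorem weights_of_fc [Infinite α] (hG : ∀ B ∈ G, B ⊆ S)
    (hFC : ∀ F : Finset (Finset α), (∀ A ∈ F, ∀ B ∈ F, A ∪ B ∈ F) → G ⊆ F →
      ∃ x ∈ S, F.card ≤ 2 * (F.filter (fun A => x ∈ A)).card) :
    ∃ c : α → ℝ, (∀ x, 0 ≤ c x) ∧ (∃ x ∈ S, 0 < c x) ∧
      ∀ x ∈ S, ∀ 𝒟 : Finset (Finset α), Valid S G x 𝒟 → c x * 𝒟.card ≤
      ∑ D ∈ 𝒟, ∑ k ∈ (S.erase x).filter (fun k => k ∉ D ∧ insert k D ∉ 𝒟), c k := by
  obtain ⟨y0, hy0, _⟩ := hFC S.powerset (by
    intro A hA B hB
    rw [mem_powerset] at *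
    exact union_subset hA hB) (by
    intro B hB
    rw [mem_powerset]
    exact hG B hB)
  let v : {p // p ∈ Pairs S G} → {y // y ∈ S} → ℝ := fun p y => (vt p.1.1 p.1.2 y.1 : ℝ)
  by_cases h : ∃ w : {p // p ∈ Pairs S G} → ℝ, (∀ i, 0 ≤ w i) ∧ ∀ y, ∑ i, w i * v i y < 0
  · exfalso
    obtain ⟨w, hw, hneg⟩ := h
    obtain ⟨m, hm⟩ := multiplicities v (S.powerset.card : ℝ) hw hneg
    obtain ⟨e, he⟩ := exists_emb (J := Σ i : {p // p ∈ Pairs S G}, Fin (2 * m i)) S
    set T : Finset α := univ.map e with hT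
    set K : α → Finset (Finset α) :=
      Function.extend e (fun j => Kt S j.1.1.1 j.1.1.2) (fun _ => ∅) with hK
    have hKe : ∀ j, K (e j) = Kt S j.1.1.1 j.1.1.2 := fun j => by
      rw [hK, e.injective.extend_apply]
    have hST : Disjoint S T := by
      rw [disjoint_right]
      intro t ht
      rw [hT, mem_map] at ht
      obtain ⟨j, _, rfl⟩ := ht
      exact he j
    have hTc : 2 ≤ T.card := by
      rw [hT, card_map, card_univ, Fintype.card_sigma]
      simp only [Fintype.card_fin]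
      obtain ⟨i, hi⟩ : ∃ i, 1 ≤ m i := by
        by_contra hno
        push Not at hno
        have h1 := hm ⟨y0, hy0⟩
        have h2 : ∑ i, (m i : ℝ) * v i ⟨y0, hy0⟩ = 0 := by
          refine sum_eq_zero fun i _ => ?_
          have : m i = 0 := by have := hno i; omega
          rw [this]; simp
        rw [h2] at h1
        have h3 : (0 : ℝ) ≤ S.powerset.card := Nat.cast_nonneg _
        linarith
      calc 2 ≤ 2 * m i := by omega
        _ ≤ ∑ i, 2 * m i := single_le_sum (f := fun i => 2 * m i) (fun _ _ => Nat.zero_le _)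
            (mem_univ i)
    have hT' : ∀ t ∈ T, ∃ j, e j = t := by
      intro t ht
      rw [hT, mem_map] at ht
      obtain ⟨j, _, hj⟩ := ht
      exact ⟨j, hj⟩
    have hpair : ∀ j : Σ i : {p // p ∈ Pairs S G}, Fin (2 * m i),
        j.1.1.1 ∈ S ∧ Valid S G j.1.1.1 j.1.1.2 := fun j => mem_Pairs.1 j.1.2
    obtain ⟨x, hx, hxF⟩ := hFC (Ft S T (G0s S G) K) (by
      apply Ft_union
      · intro A hA B hB
        unfold G0s at *
        rw [mem_filter, mem_powerset] at *
        refine ⟨union_subset hA.1 hB.1, fun p hp X hX => ?_⟩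
        rw [← union_assoc]
        exact hB.2 p hp _ (hA.2 p hp X hX)
      · intro t ht
        obtain ⟨j, rfl⟩ := hT' t ht
        rw [hKe]
        exact Kt_union (hpair j).2.2.1
      · intro t ht A hA B hB
        obtain ⟨j, rfl⟩ := hT' t ht
        rw [hKe] at hA ⊢
        unfold G0s at hB
        rw [mem_filter] at hB
        exact hB.2 j.1.1 j.1.2 A hA) (by
      intro B hB
      refine mem_Ft' none (hG B hB) (by simp) ?_ (by simp [Bt])
      show B ∈ G0s S G
      unfold G0s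
      rw [mem_filter, mem_powerset]
      exact ⟨hG B hB, fun p hp X hX => Kt_absorb hG (mem_Pairs.1 hp).2 X hX B hB⟩)
    have h1 := Ft_count (G0 := G0s S G) (K := K) hST hTc hx
    rw [sg_sum] at h1
    have h2 : ∑ t ∈ T, ∑ A ∈ S.powerset, (if A ∈ K t then sg x A else 0) =
        ∑ i : {p // p ∈ Pairs S G}, 2 * (m i : ℤ) * vt i.1.1 i.1.2 x := by
      rw [hT, sum_map, Fintype.sum_sigma]
      refine sum_congr rfl fun i _ => ?_
      have h3 : ∀ j : Fin (2 * m i), ∑ A ∈ S.powerset, (if A ∈ K (e ⟨i, j⟩) then sg x A else 0) =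
          vt i.1.1 i.1.2 x := by
        intro j
        have h4 := mem_Pairs.1 i.2
        rw [hKe]
        exact Kt_count h4.1 hx h4.2.1 h4.2.2.1
      rw [sum_congr rfl (fun j _ => h3 j), sum_const, card_univ, Fintype.card_fin, nsmul_eq_mul]
      push_cast
      ring
    have h3 : ∑ A ∈ S.powerset, (if A ∈ G0s S G then sg x A else 0) ≤ S.powerset.card := by
      have h4 : ∀ A ∈ S.powerset, (if A ∈ G0s S G then sg x A else 0) ≤ 1 := by
        intro A _
        unfold sg
        split_ifs <;> norm_num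
      refine (sum_le_sum h4).trans ?_
      simp
    have h5 := hm ⟨x, hx⟩
    have h6 : ((∑ i : {p // p ∈ Pairs S G}, 2 * (m i : ℤ) * vt i.1.1 i.1.2 x : ℤ) : ℝ) =
        2 * ∑ i, (m i : ℝ) * v i ⟨x, hx⟩ := by
      push_cast
      rw [mul_sum]
      exact sum_congr rfl fun i _ => by ring
    have h7 : ((2 * ((Ft S T (G0s S G) K).filter (fun A => x ∈ A)).card -
        (Ft S T (G0s S G) K).card : ℤ) : ℝ) < 0 := by
      rw [h1, h2]
      rw [Int.cast_add, h6]
      have h8 : ((∑ A ∈ S.powerset, (if A ∈ G0s S G then sg x A else 0) : ℤ) : ℝ) ≤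
          S.powerset.card := by exact_mod_cast h3
      have h9 : (0 : ℝ) ≤ S.powerset.card := Nat.cast_nonneg _
      linarith
    have h8 : ((Ft S T (G0s S G) K).card : ℝ) ≤
        2 * ((Ft S T (G0s S G) K).filter (fun A => x ∈ A)).card := by exact_mod_cast hxF
    push_cast at h7
    linarith
  · obtain ⟨c, hc0, ⟨y1, hy1⟩, hc⟩ := ville v h
    refine ⟨fun x => if hx : x ∈ S then c ⟨x, hx⟩ else 0, ?_, ?_, ?_⟩
    · intro x
      dsimp only
      split_ifs with hx
      · exact hc0 _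
      · exact le_rfl
    · refine ⟨y1.1, y1.2, ?_⟩
      simp only [y1.2, dif_pos]
      exact hy1
    · intro x hx 𝒟 hv
      set c' : α → ℝ := fun x => if hx : x ∈ S then c ⟨x, hx⟩ else 0 with hc'
      have h1 := hc ⟨(x, 𝒟), mem_Pairs.2 ⟨hx, hv⟩⟩
      have h2 : ∑ y : {y // y ∈ S}, c y * v ⟨(x, 𝒟), mem_Pairs.2 ⟨hx, hv⟩⟩ y =
          ∑ y ∈ S, c' y * (vt x 𝒟 y : ℝ) := by
        rw [← sum_coe_sort S]
        refine sum_congr rfl fun y _ => ?_
        have : c' y.1 = c y := by
          rw [hc']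
          simp only [y.2, dif_pos]
        rw [this]
      rw [h2, ← add_sum_erase S _ hx] at h1
      have h3 : ∑ D ∈ 𝒟, ∑ k ∈ (S.erase x).filter (fun k => k ∉ D ∧ insert k D ∉ 𝒟), c' k =
          ∑ k ∈ S.erase x, c' k * (vt x 𝒟 k : ℝ) := by
        have h4 : ∀ D ∈ 𝒟, ∑ k ∈ (S.erase x).filter (fun k => k ∉ D ∧ insert k D ∉ 𝒟), c' k =
            ∑ k ∈ S.erase x, if (k ∉ D ∧ insert k D ∉ 𝒟) then c' k else 0 := by
          intro D _
          rw [sum_filter]
        rw [sum_congr rfl h4, sum_comm]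
        refine sum_congr rfl fun k hk => ?_
        rw [← sum_filter, sum_const, nsmul_eq_mul, mul_comm]
        congr 1
        unfold vt
        rw [if_neg (mem_erase.1 hk).1]
        simp
      rw [h3]
      have h5 : (vt x 𝒟 x : ℝ) = -(𝒟.card : ℝ) := by
        unfold vt
        simp
      rw [h5] at h1
      linarith

omit [DecidableEq α] in
theorem card_lt_powerset' (N : Finset α) (q : ℕ) :
    (N.powerset.filter (fun A => A.card < q)).card = ∑ i ∈ range q, N.card.choose i := by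
  have h1 : ∀ A ∈ N.powerset.filter (fun A => A.card < q), A.card ∈ range q := by
    intro A hA
    exact mem_range.2 (mem_filter.1 hA).2
  rw [card_eq_sum_card_fiberwise h1]
  refine sum_congr rfl fun i hi => ?_
  rw [← card_powersetCard]
  congr 1
  ext A
  simp only [mem_filter, mem_powerset, mem_powersetCard]
  rw [mem_range] at hi
  constructor
  · rintro ⟨⟨h1, _⟩, h3⟩
    exact ⟨h1, h3⟩
  · rintro ⟨h1, h3⟩
    exact ⟨⟨h1, h3 ▸ hi⟩, h3⟩

/-- the isoperimetric inequality for all `k`-subsets -/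
theorem uniform_valid {k : ℕ} (hk : 1 ≤ k) (hGk : ∀ A ⊆ S, A.card = k → A ∈ G)
    (hc : ∑ i ∈ range (k - 1), (S.card - 1).choose i ≤ (k - 1) * (S.card - 1).choose (k - 1))
    {x : α} (hx : x ∈ S) {𝒟 : Finset (Finset α)} (hv : Valid S G x 𝒟) :
    𝒟.card ≤ ∑ D ∈ 𝒟, ((S.erase x).filter (fun k => k ∉ D ∧ insert k D ∉ 𝒟)).card := by
  refine small_members (q := k - 1) hv.1 hv.2.1 ?_ ?_
  · intro D hD
    by_contra hno
    push Not at hno
    obtain ⟨B, hB, hBk⟩ := exists_subset_card_eq hno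
    have hxD : x ∉ D := fun h => notMem_erase x S (hv.1 D hD h)
    have hxB : x ∉ B := fun h => hxD (hB h)
    refine hv.2.2 D hD (insert x B) (hGk _ ?_ ?_) (mem_insert_self _ _)
      (insert_subset_insert _ hB)
    · exact insert_subset hx ((hB.trans (hv.1 D hD)).trans (erase_subset _ _))
    · rw [card_insert_of_notMem hxB, hBk]; omega
  · rw [card_erase_of_mem hx]; exact hc

theorem uniform_iff [Infinite α] (hS : S.Nonempty) {k : ℕ} (hk : 1 ≤ k) :
    (∀ F : Finset (Finset α), (∀ A ∈ F, ∀ B ∈ F, A ∪ B ∈ F) →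
      (∀ A ⊆ S, A.card = k → A ∈ F) → ∃ x ∈ S, F.card ≤ 2 * (F.filter (fun A => x ∈ A)).card) ↔
    ∑ i ∈ range (k - 1), (S.card - 1).choose i ≤ (k - 1) * (S.card - 1).choose (k - 1) := by
  have hG : ∀ B ∈ S.powersetCard k, B ⊆ S := fun B hB => (mem_powersetCard.1 hB).1
  constructor
  · intro hFC
    rcases Nat.lt_or_ge k 2 with hk2 | hk2
    · have : k - 1 = 0 := by omega
      rw [this]; simp
    obtain ⟨c, hc0, ⟨x0, hx0, hcx0⟩, hc⟩ := weights_of_fc hG (fun F hF hGF =>
      hFC F hF (fun A hA hAk => hGF (mem_powersetCard.2 ⟨hA, hAk⟩)))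
    have hsum : 0 < ∑ x ∈ S, c x := sum_pos' (fun x _ => hc0 x) ⟨x0, hx0, hcx0⟩
    have hx1 : ∀ x ∈ S, c x * ((∑ i ∈ range (k - 1), (S.card - 1).choose i : ℕ) : ℝ) ≤
        (((S.card - 2).choose (k - 2) : ℕ) : ℝ) * ∑ y ∈ S.erase x, c y := by
      intro x hx
      have h1 := hc x hx ((S.erase x).powerset.filter (fun A => A.card < k - 1)) ⟨?_, ?_, ?_⟩
      · rw [card_lt_powerset', card_erase_of_mem hx] at h1
        refine h1.trans (le_of_eq ?_)
        have h4 : ∀ D ∈ (S.erase x).powerset.filter (fun A => A.card < k - 1),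
            ∑ y ∈ (S.erase x).filter (fun y => y ∉ D ∧ insert y D ∉
              (S.erase x).powerset.filter (fun A => A.card < k - 1)), c y =
            ∑ y ∈ S.erase x, if (y ∉ D ∧ D.card = k - 2) then c y else 0 := by
          intro D hD
          rw [mem_filter, mem_powerset] at hD
          rw [sum_filter]
          refine sum_congr rfl fun y hy => if_congr ?_ rfl rfl
          rw [mem_filter, mem_powerset]
          constructor
          · rintro ⟨h5, h6⟩
            refine ⟨h5, ?_⟩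
            by_contra h7
            apply h6
            refine ⟨insert_subset hy hD.1, ?_⟩
            rw [card_insert_of_notMem h5]
            omega
          · rintro ⟨h5, h6⟩
            refine ⟨h5, fun h7 => ?_⟩
            have h8 := h7.2
            rw [card_insert_of_notMem h5] at h8
            omega
        rw [sum_congr rfl h4, sum_comm, mul_sum]
        refine sum_congr rfl fun y hy => ?_
        rw [← sum_filter, sum_const, nsmul_eq_mul]
        congr 2
        have h5 : ((S.erase x).erase y).card = S.card - 2 := by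
          rw [card_erase_of_mem hy, card_erase_of_mem hx]; omega
        rw [← h5, ← card_powersetCard]
        congr 1
        ext D
        simp only [mem_filter, mem_powerset, mem_powersetCard]
        constructor
        · rintro ⟨⟨h6, _⟩, h7, h8⟩
          refine ⟨fun z hz => mem_erase.2 ⟨fun h => h7 (h ▸ hz), h6 hz⟩, h8⟩
        · rintro ⟨h6, h8⟩
          refine ⟨⟨h6.trans (erase_subset _ _), by omega⟩, fun h => ?_, h8⟩
          exact notMem_erase y _ (h6 h)
      · intro D hD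
        rw [mem_filter, mem_powerset] at hD
        exact hD.1
      · intro D hD D' hD'
        rw [mem_filter, mem_powerset] at hD ⊢
        exact ⟨hD'.trans hD.1, (card_le_card hD').trans_lt hD.2⟩
      · intro D hD B hB hxB hBD
        rw [mem_filter, mem_powerset] at hD
        rw [mem_powersetCard] at hB
        have h2 := card_le_card hBD
        have h3 := card_insert_le x D
        omega
    have h2 := sum_le_sum hx1
    rw [← sum_mul, ← mul_sum] at h2
    have h3 : ∑ x ∈ S, ∑ y ∈ S.erase x, c y = ((S.card : ℝ) - 1) * ∑ x ∈ S, c x := by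
      have h4 : ∀ x ∈ S, ∑ y ∈ S.erase x, c y = ∑ y ∈ S, c y - c x := by
        intro x hx
        rw [← add_sum_erase S c hx]; ring
      rw [sum_congr rfl h4, sum_sub_distrib, sum_const, nsmul_eq_mul]
      ring
    rw [h3] at h2
    have h5 : ((∑ i ∈ range (k - 1), (S.card - 1).choose i : ℕ) : ℝ) ≤
        (((S.card - 2).choose (k - 2) : ℕ) : ℝ) * ((S.card : ℝ) - 1) := by
      have h6 : (∑ x ∈ S, c x) * ((∑ i ∈ range (k - 1), (S.card - 1).choose i : ℕ) : ℝ) ≤
          (∑ x ∈ S, c x) * ((((S.card - 2).choose (k - 2) : ℕ) : ℝ) * ((S.card : ℝ) - 1)) := by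
        calc _ ≤ _ := h2
          _ = _ := by ring
      exact le_of_mul_le_mul_left h6 hsum
    have hcard := hS.card_pos
    have h7 : ((S.card : ℝ) - 1) = ((S.card - 1 : ℕ) : ℝ) := by
      rw [Nat.cast_sub (by omega)]; simp
    rw [h7] at h5
    have h8 : ∑ i ∈ range (k - 1), (S.card - 1).choose i ≤
        (S.card - 2).choose (k - 2) * (S.card - 1) := by exact_mod_cast h5
    refine h8.trans (le_of_eq ?_)
    rcases Nat.lt_or_ge S.card 2 with h9 | h9
    · have h10 : S.card = 1 := by omega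
      rw [h10]
      have h11 : (1 - 1 : ℕ).choose (k - 1) = 0 := by
        apply Nat.choose_eq_zero_of_lt; omega
      rw [h11]
      simp
    · obtain ⟨m, hm⟩ : ∃ m, S.card = m + 2 := ⟨S.card - 2, by omega⟩
      obtain ⟨j, hj⟩ : ∃ j, k = j + 2 := ⟨k - 2, by omega⟩
      rw [hm, hj]
      have := Nat.add_one_mul_choose_eq m j
      simp only [Nat.add_sub_cancel, show m + 2 - 1 = m + 1 from rfl,
        show j + 2 - 1 = j + 1 from rfl]
      rw [mul_comm, this, mul_comm]
  · intro hcond F hF hGF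
    refine fc_of_weights (G := S.powersetCard k) (c := fun _ => 1) hF hG ?_
      (fun _ => zero_le_one) ?_ ?_
    · intro A hA B hB
      rw [mem_powersetCard] at hB
      exact hF A hA B (hGF B hB.1 hB.2)
    · obtain ⟨x, hx⟩ := hS
      exact ⟨x, hx, zero_lt_one⟩
    · intro x hx 𝒟 hv
      have h1 := uniform_valid hk (fun A hA hAk => mem_powersetCard.2 ⟨hA, hAk⟩) hcond hx hv
      rw [one_mul]
      simp only [sum_const, nsmul_eq_mul, mul_one]
      exact_mod_cast h1

end

end Pool.Agent.N188.FC
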