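import Pool.Agent.N188.FC.Zed

set_option autoImplicit false

/-!
# Reduction of the edge inequality to an isoperimetric inequality in the cube
-/

namespace Pool.Agent.N188.FC

open Finset
open scoped Classical

variable {α : Type*} [DecidableEq α]

/-- saturation in direction `a` -/
def opA (a : α) (Q : Finset α → Prop) (A : Finset α) : Prop := Q A ∨ (a ∈ A ∧ Q (A.erase a))

/-- interior in direction `a` -/
def opB (a : α) (Q : Finset α → Prop) (A : Finset α) : Prop := Q A ∧ Q (insert a A)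

theorem opA_join {a : α} {P Q R : Finset α → Prop} (h : ∀ A B, P A → Q B → R (A ∪ B)) :
    ∀ A B, opA a P A → opA a Q B → opA a R (A ∪ B) := by
  have he : ∀ A B : Finset α, (A ∪ B).erase a = A.erase a ∪ B.erase a := by
    intro A B; ext x; simp only [mem_union, mem_erase]; tauto
  rintro A B (hA | ⟨haA, hA⟩) (hB | ⟨haB, hB⟩)
  · exact Or.inl (h _ _ hA hB)
  · by_cases ha : a ∈ A
    · left
      have h1 := h _ _ hA hB
      have h2 : A ∪ B.erase a = A ∪ B := by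
        ext x; simp only [mem_union, mem_erase]
        by_cases hx : x = a
        · subst hx; tauto
        · tauto
      rwa [h2] at h1
    · right
      refine ⟨mem_union_right _ haB, ?_⟩
      have h1 := h _ _ hA hB
      rwa [he, erase_eq_of_notMem ha]
  · by_cases ha : a ∈ B
    · left
      have h1 := h _ _ hA hB
      have h2 : A.erase a ∪ B = A ∪ B := by
        ext x; simp only [mem_union, mem_erase]
        by_cases hx : x = a
        · subst hx; tauto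
        · tauto
      rwa [h2] at h1
    · right
      refine ⟨mem_union_left _ haA, ?_⟩
      have h1 := h _ _ hA hB
      rwa [he, erase_eq_of_notMem ha]
  · right
    refine ⟨mem_union_left _ haA, ?_⟩
    rw [he]
    exact h _ _ hA hB

theorem opA_join' {a : α} {Y Q P : Finset α → Prop} (h : ∀ A B, Y A → Q B → P (A ∪ B)) :
    ∀ A B, Y A → opA a Q B → opA a P (A ∪ B) :=
  fun A B hA hB => opA_join h A B (Or.inl hA) hB

theorem opB_join {a : α} {P Q R : Finset α → Prop} (h : ∀ A B, P A → Q B → R (A ∪ B)) :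
    ∀ A B, opB a P A → opB a Q B → opB a R (A ∪ B) := by
  rintro A B ⟨hA, hA'⟩ ⟨hB, hB'⟩
  refine ⟨h _ _ hA hB, ?_⟩
  have := h _ _ hA' hB'
  have h2 : insert a A ∪ insert a B = insert a (A ∪ B) := by
    ext x; simp only [mem_union, mem_insert]; tauto
  rwa [h2] at this

theorem opB_join' {a : α} {Y Q P : Finset α → Prop} (h : ∀ A B, Y A → Q B → P (A ∪ B)) :
    ∀ A B, Y A → opB a Q B → opB a P (A ∪ B) := by
  rintro A B hA ⟨hB, hB'⟩
  refine ⟨h _ _ hA hB, ?_⟩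
  have := h _ _ hA hB'
  rwa [union_insert] at this

/-- monotone in the directions in `T` -/
def MonoIn (T : Finset α) (Q : Finset α → Prop) : Prop := ∀ t ∈ T, ∀ A, Q A → Q (insert t A)

theorem opA_mono {a : α} {T : Finset α} {Q : Finset α → Prop} (h : MonoIn T Q) :
    MonoIn (insert a T) (opA a Q) := by
  intro t ht A hA
  by_cases hta : t = a
  · subst hta
    by_cases h1 : t ∈ A
    · rwa [insert_eq_of_mem h1]
    · rcases hA with hA | hA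
      · right
        exact ⟨mem_insert_self _ _, by rwa [erase_insert h1]⟩
      · exact absurd hA.1 h1
  · have ht' : t ∈ T := (mem_insert.1 ht).resolve_left hta
    rcases hA with hA | ⟨h1, hA⟩
    · exact Or.inl (h t ht' A hA)
    · right
      refine ⟨mem_insert_of_mem h1, ?_⟩
      have := h t ht' _ hA
      rwa [erase_insert_of_ne (fun h => hta h)]

theorem opB_mono {a : α} {T : Finset α} {Q : Finset α → Prop} (h : MonoIn T Q) :
    MonoIn (insert a T) (opB a Q) := by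
  intro t ht A hA
  by_cases hta : t = a
  · subst hta
    exact ⟨hA.2, by rw [insert_eq_of_mem (mem_insert_self _ _)]; exact hA.2⟩
  · have ht' : t ∈ T := (mem_insert.1 ht).resolve_left hta
    refine ⟨h t ht' A hA.1, ?_⟩
    rw [insert_comm]
    exact h t ht' _ hA.2

theorem opA_of_notMem {a : α} {Q : Finset α → Prop} {A : Finset α} (h : a ∉ A) :
    opA a Q A ↔ Q A := by
  unfold opA; tauto

theorem opA_insert {a : α} {Q : Finset α → Prop} {A : Finset α} (h : a ∉ A) :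
    opA a Q (insert a A) ↔ Q (insert a A) ∨ Q A := by
  unfold opA
  rw [erase_insert h]
  simp

theorem opB_insert {a : α} {Q : Finset α → Prop} {A : Finset α} :
    opB a Q (insert a A) ↔ Q (insert a A) := by
  unfold opB
  rw [insert_eq_of_mem (mem_insert_self a A)]
  tauto

theorem prop_ineq2 {j0 j1 jb u0 u1 ub p0 p1 : Prop} (f1 : j1 → u0 → u1) (f2 : j1 → p0 → p1)
    (f3 : jb → j0) (f4 : jb → u0 → ub) (f5 : ub → u1) (f6 : jb → j1) :
    (ind (j0 ∧ ¬ u0 ∧ p0) + ind (j0 ∧ ¬ u0 ∧ p0) +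
      ind ((j0 ∨ j1) ∧ ¬ (u0 ∨ (u0 ∨ u1)) ∧ (p1 ∨ p0)) +
      ind ((j0 ∨ (j0 ∨ j1)) ∧ ¬ (u0 ∨ (u0 ∨ u1)) ∧ (p1 ∨ p0))) +
    (ind (jb ∧ ¬ ub ∧ (p0 ∧ p1)) + ind (jb ∧ ¬ ub ∧ (p0 ∧ p1)) +
      ind (j1 ∧ ¬ (ub ∨ u1) ∧ p1) + ind ((jb ∨ j1) ∧ ¬ (ub ∨ u1) ∧ p1)) ≤
    2 * (ind (j0 ∧ ¬ u0 ∧ p0) + ind (j0 ∧ ¬ u0 ∧ p0) + ind (j1 ∧ ¬ (u0 ∨ u1) ∧ p1) +
      ind ((j0 ∨ j1) ∧ ¬ (u0 ∨ u1) ∧ p1)) := by
  have hw : ind (j1 ∧ ¬ (ub ∨ u1) ∧ p1) ≤ ind (j1 ∧ ¬ (u0 ∨ u1) ∧ p1) :=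
    ind_mono (fun h => ⟨h.1, fun h' => h.2.1 (Or.inr (h'.elim (f1 h.1) id)), h.2.2⟩)
  have hw' : ind ((jb ∨ j1) ∧ ¬ (ub ∨ u1) ∧ p1) ≤ ind (j1 ∧ ¬ (u0 ∨ u1) ∧ p1) :=
    ind_mono (fun h => ⟨h.1.elim f6 id,
      fun h' => h.2.1 (Or.inr (h'.elim (f1 (h.1.elim f6 id)) id)), h.2.2⟩)
  by_cases hp1 : p1
  · have h1 : ind ((j0 ∨ j1) ∧ ¬ (u0 ∨ (u0 ∨ u1)) ∧ (p1 ∨ p0)) ≤
        ind ((j0 ∨ j1) ∧ ¬ (u0 ∨ u1) ∧ p1) :=
      ind_mono (fun h => ⟨h.1, fun h' => h.2.1 (Or.inr h'), hp1⟩)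
    have h2 : ind ((j0 ∨ (j0 ∨ j1)) ∧ ¬ (u0 ∨ (u0 ∨ u1)) ∧ (p1 ∨ p0)) ≤
        ind ((j0 ∨ j1) ∧ ¬ (u0 ∨ u1) ∧ p1) :=
      ind_mono (fun h => ⟨h.1.elim Or.inl id, fun h' => h.2.1 (Or.inr h'), hp1⟩)
    have h3 : ind (jb ∧ ¬ ub ∧ (p0 ∧ p1)) ≤ ind (j0 ∧ ¬ u0 ∧ p0) :=
      ind_mono (fun h => ⟨f3 h.1, fun h' => h.2.1 (f4 h.1 h'), h.2.2.1⟩)
    omega
  · have h1 : ind ((j0 ∨ j1) ∧ ¬ (u0 ∨ (u0 ∨ u1)) ∧ (p1 ∨ p0)) ≤
        ind (j0 ∧ ¬ u0 ∧ p0) :=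
      ind_mono (fun h => ⟨h.1.resolve_right (fun h' => hp1 (f2 h' (h.2.2.resolve_left hp1))),
        fun h' => h.2.1 (Or.inl h'), h.2.2.resolve_left hp1⟩)
    have h2 : ind ((j0 ∨ (j0 ∨ j1)) ∧ ¬ (u0 ∨ (u0 ∨ u1)) ∧ (p1 ∨ p0)) ≤
        ind (j0 ∧ ¬ u0 ∧ p0) :=
      ind_mono (fun h => ⟨(h.1.elim Or.inl id).resolve_right
        (fun h' => hp1 (f2 h' (h.2.2.resolve_left hp1))),
        fun h' => h.2.1 (Or.inl h'), h.2.2.resolve_left hp1⟩)
    have h3 : ind (jb ∧ ¬ ub ∧ (p0 ∧ p1)) ≤ ind False :=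
      ind_mono (fun h => hp1 h.2.2.2)
    have h4 : ind False = 0 := by simp [ind]
    omega

section

variable {a : α} {N : Finset α} {Q P : Finset α → Prop}

theorem down_insert {E B : Finset α} (hB : B ⊆ insert a E) : B.erase a ⊆ E := by
  intro x hx
  rcases mem_insert.1 (hB (mem_of_mem_erase hx)) with h | h
  · exact absurd h (ne_of_mem_erase hx)
  · exact h

theorem up_insert {E : Finset α} {R : Finset α → Prop} (_haE : a ∉ E) :
    Up R (insert a E) ↔ ((∃ B, R B ∧ B ⊆ E) ∨ (∃ B, R (insert a B) ∧ B ⊆ E)) := by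
  constructor
  · rintro ⟨B, hB, hBE⟩
    by_cases hBa : a ∈ B
    · right; exact ⟨B.erase a, by rwa [insert_erase hBa], down_insert hBE⟩
    · left; exact ⟨B, hB, by have := down_insert hBE; rwa [erase_eq_of_notMem hBa] at this⟩
  · rintro (⟨B, hB, hBE⟩ | ⟨B, hB, hBE⟩)
    · exact ⟨B, hB, hBE.trans (subset_insert _ _)⟩
    · exact ⟨insert a B, hB, insert_subset_insert _ hBE⟩

theorem up_opA {E : Finset α} {R : Finset α → Prop} (haE : a ∉ E) :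
    Up (opA a R) E ↔ ∃ B, R B ∧ B ⊆ E := by
  constructor
  · rintro ⟨B, hB, hBE⟩
    exact ⟨B, (opA_of_notMem (fun h => haE (hBE h))).1 hB, hBE⟩
  · rintro ⟨B, hB, hBE⟩
    exact ⟨B, Or.inl hB, hBE⟩

theorem jn_zero {W E : Finset α} {R : Finset α → Prop} (haE : a ∉ E) :
    Jn R (insert a W) E ↔ ∃ A, R A ∧ A ⊆ E ∧ E ⊆ A ∪ W := by
  constructor
  · rintro ⟨A, hA, h1, h2⟩
    refine ⟨A, hA, h1, fun x hx => ?_⟩
    have := h2 hx
    simp only [mem_union, mem_insert] at this ⊢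
    rcases this with h | rfl | h
    · exact Or.inl h
    · exact absurd hx haE
    · exact Or.inr h
  · rintro ⟨A, hA, h1, h2⟩
    exact ⟨A, hA, h1, h2.trans (union_subset_union_right (subset_insert _ _))⟩

theorem jn_one {W E : Finset α} {R : Finset α → Prop} (haE : a ∉ E) (haW : a ∉ W) :
    Jn R W (insert a E) ↔ ∃ A, R (insert a A) ∧ A ⊆ E ∧ E ⊆ A ∪ W := by
  constructor
  · rintro ⟨A, hA, h1, h2⟩
    have haA : a ∈ A := by
      rcases mem_union.1 (h2 (mem_insert_self a E)) with h | h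
      · exact h
      · exact absurd h haW
    refine ⟨A.erase a, by rwa [insert_erase haA], down_insert h1, fun x hx => ?_⟩
    have := h2 (mem_insert_of_mem hx)
    simp only [mem_union, mem_erase] at this ⊢
    rcases this with h | h
    · exact Or.inl ⟨fun h' => haE (h' ▸ hx), h⟩
    · exact Or.inr h
  · rintro ⟨A, hA, h1, h2⟩
    refine ⟨insert a A, hA, insert_subset_insert _ h1, fun x hx => ?_⟩
    rcases mem_insert.1 hx with h | h
    · rw [h]; simp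
    · rcases mem_union.1 (h2 h) with h' | h'
      · exact mem_union_left _ (mem_insert_of_mem h')
      · exact mem_union_right _ h'

theorem jn_two {W E : Finset α} {R : Finset α → Prop} (haE : a ∉ E) :
    Jn R (insert a W) (insert a E) ↔
      ((∃ A, R A ∧ A ⊆ E ∧ E ⊆ A ∪ W) ∨ ∃ A, R (insert a A) ∧ A ⊆ E ∧ E ⊆ A ∪ W) := by
  constructor
  · rintro ⟨A, hA, h1, h2⟩
    by_cases haA : a ∈ A
    · right
      refine ⟨A.erase a, by rwa [insert_erase haA], down_insert h1, fun x hx => ?_⟩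
      have hxa : x ≠ a := fun h' => haE (h' ▸ hx)
      rcases mem_union.1 (h2 (mem_insert_of_mem hx)) with h | h
      · exact mem_union_left _ (mem_erase.2 ⟨hxa, h⟩)
      · exact mem_union_right _ ((mem_insert.1 h).resolve_left hxa)
    · left
      refine ⟨A, hA, by have := down_insert h1; rwa [erase_eq_of_notMem haA] at this,
        fun x hx => ?_⟩
      have hxa : x ≠ a := fun h' => haE (h' ▸ hx)
      rcases mem_union.1 (h2 (mem_insert_of_mem hx)) with h | h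
      · exact mem_union_left _ h
      · exact mem_union_right _ ((mem_insert.1 h).resolve_left hxa)
  · rintro (⟨A, hA, h1, h2⟩ | ⟨A, hA, h1, h2⟩)
    · refine ⟨A, hA, h1.trans (subset_insert _ _), fun x hx => ?_⟩
      rcases mem_insert.1 hx with h | h
      · rw [h]; simp
      · rcases mem_union.1 (h2 h) with h' | h'
        · exact mem_union_left _ h'
        · exact mem_union_right _ (mem_insert_of_mem h')
    · refine ⟨insert a A, hA, insert_subset_insert _ h1, fun x hx => ?_⟩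
      rcases mem_insert.1 hx with h | h
      · rw [h]; simp
      · rcases mem_union.1 (h2 h) with h' | h'
        · exact mem_union_left _ (mem_insert_of_mem h')
        · exact mem_union_right _ (mem_insert_of_mem h')

/-- The four sets above `(W, E)`, directions different from `a`. -/
theorem block2 (ha : a ∉ N) (hPQ : ∀ A B, P A → Q B → P (A ∪ B)) (W E : Finset α) (k : α)
    (hW : W ⊆ N) (hE : E ⊆ N) (hk : k ∈ N) :
    (ind (Ed (opA a Q) (opA a P) W E k) + ind (Ed (opA a Q) (opA a P) (insert a W) E k) +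
      ind (Ed (opA a Q) (opA a P) W (insert a E) k) +
      ind (Ed (opA a Q) (opA a P) (insert a W) (insert a E) k)) +
    (ind (Ed (opB a Q) (opB a P) W E k) + ind (Ed (opB a Q) (opB a P) (insert a W) E k) +
      ind (Ed (opB a Q) (opB a P) W (insert a E) k) +
      ind (Ed (opB a Q) (opB a P) (insert a W) (insert a E) k)) ≤
    2 * (ind (Ed Q P W E k) + ind (Ed Q P (insert a W) E k) +
      ind (Ed Q P W (insert a E) k) + ind (Ed Q P (insert a W) (insert a E) k)) := by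
  have haE : a ∉ E := fun h => ha (hE h)
  have haW : a ∉ W := fun h => ha (hW h)
  have hka : k ≠ a := fun h => ha (h ▸ hk)
  by_cases hkE : k ∈ E
  · simp [ind, Ed, hkE]
  have hakE : a ∉ insert k E := by simp [haE, Ne.symm hka]
  -- abbreviations
  obtain ⟨j0, hj0⟩ : ∃ p : Prop, p ↔ ∃ A, Q A ∧ A ⊆ E ∧ E ⊆ A ∪ W := ⟨_, Iff.rfl⟩
  obtain ⟨j1, hj1⟩ : ∃ p : Prop, p ↔ ∃ A, Q (insert a A) ∧ A ⊆ E ∧ E ⊆ A ∪ W := ⟨_, Iff.rfl⟩
  obtain ⟨jb, hjb⟩ : ∃ p : Prop, p ↔ ∃ A, (Q A ∧ Q (insert a A)) ∧ A ⊆ E ∧ E ⊆ A ∪ W :=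
    ⟨_, Iff.rfl⟩
  obtain ⟨u0, hu0⟩ : ∃ p : Prop, p ↔ ∃ B, P B ∧ B ⊆ E := ⟨_, Iff.rfl⟩
  obtain ⟨u1, hu1⟩ : ∃ p : Prop, p ↔ ∃ B, P (insert a B) ∧ B ⊆ E := ⟨_, Iff.rfl⟩
  obtain ⟨ub, hub⟩ : ∃ p : Prop, p ↔ ∃ B, (P B ∧ P (insert a B)) ∧ B ⊆ E := ⟨_, Iff.rfl⟩
  obtain ⟨p0, hp0⟩ : ∃ p : Prop, p ↔ P (insert k E) := ⟨_, Iff.rfl⟩
  obtain ⟨p1, hp1⟩ : ∃ p : Prop, p ↔ P (insert a (insert k E)) := ⟨_, Iff.rfl⟩
  have hcomm : insert k (insert a E) = insert a (insert k E) := insert_comm _ _ _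
  have upP := fun R : Finset α → Prop => up_insert (R := R) haE
  have upE := fun R : Finset α → Prop => up_opA (R := R) haE
  have jn0 := fun R : Finset α → Prop => jn_zero (R := R) (W := W) haE
  have jn1 := fun R : Finset α → Prop => jn_one (R := R) haE haW
  have jn2 := fun R : Finset α → Prop => jn_two (R := R) (W := W) haE
  have kk : k ∉ insert a E := by simp [hkE, hka]
  -- the facts used
  have f1 : j1 → u0 → u1 := by
    rw [hj1, hu0, hu1]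
    rintro ⟨A, hA, h1, _⟩ ⟨B, hB, hB1⟩
    refine ⟨B ∪ A, ?_, union_subset hB1 h1⟩
    have := hPQ _ _ hB hA
    rwa [union_insert] at this
  have f2 : j1 → p0 → p1 := by
    rw [hj1, hp0, hp1]
    rintro ⟨A, hA, h1, _⟩ hp
    have := hPQ _ _ hp hA
    have h6 : insert k E ∪ insert a A = insert a (insert k E) := by
      rw [union_insert, union_eq_left.2 (h1.trans (subset_insert _ _))]
    rwa [h6] at this
  have f3 : jb → j0 := by
    rw [hjb, hj0]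
    rintro ⟨A, hA, h⟩; exact ⟨A, hA.1, h⟩
  have f4 : jb → u0 → ub := by
    rw [hjb, hu0, hub]
    rintro ⟨A, hA, h1, _⟩ ⟨B, hB, hB1⟩
    refine ⟨B ∪ A, ⟨hPQ _ _ hB hA.1, ?_⟩, union_subset hB1 h1⟩
    have := hPQ _ _ hB hA.2
    rwa [union_insert] at this
  have f5 : ub → u1 := by
    rw [hub, hu1]
    rintro ⟨B, hB, h⟩; exact ⟨B, hB.2, h⟩
  have f6 : jb → j1 := by
    rw [hjb, hj1]
    rintro ⟨A, hA, h⟩; exact ⟨A, hA.2, h⟩
  -- rewrite all the conditions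
  have Edd : ∀ R R' : Finset α → Prop, ∀ W' E' : Finset α, k ∉ E' →
      (Ed R R' W' E' k ↔ (Jn R W' E' ∧ ¬ Up R' E' ∧ R' (insert k E'))) := by
    intro R R' W' E' h
    exact ⟨fun h' => ⟨h'.2.1, h'.2.2.1, h'.2.2.2⟩, fun h' => ⟨h, h'.1, h'.2.1, h'.2.2⟩⟩
  have jn00 : ∀ R : Finset α → Prop, Jn R W E ↔ ∃ A, R A ∧ A ⊆ E ∧ E ⊆ A ∪ W :=
    fun R => Iff.rfl
  have up00 : ∀ R : Finset α → Prop, Up R E ↔ ∃ B, R B ∧ B ⊆ E := fun R => Iff.rfl
  have e1 : Ed Q P W E k ↔ (j0 ∧ ¬ u0 ∧ p0) := by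
    rw [Edd _ _ _ _ hkE, jn00, up00, ← hj0, ← hu0, ← hp0]
  have e2 : Ed Q P (insert a W) E k ↔ (j0 ∧ ¬ u0 ∧ p0) := by
    rw [Edd _ _ _ _ hkE, jn0, up00, ← hj0, ← hu0, ← hp0]
  have e3 : Ed Q P W (insert a E) k ↔ (j1 ∧ ¬ (u0 ∨ u1) ∧ p1) := by
    rw [Edd _ _ _ _ kk, jn1, upP, hcomm, ← hj1, ← hu0, ← hu1, ← hp1]
  have e4 : Ed Q P (insert a W) (insert a E) k ↔ ((j0 ∨ j1) ∧ ¬ (u0 ∨ u1) ∧ p1) := by
    rw [Edd _ _ _ _ kk, jn2, upP, hcomm, ← hj1, ← hj0, ← hu0, ← hu1, ← hp1]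
  have jA : (∃ A, opA a Q A ∧ A ⊆ E ∧ E ⊆ A ∪ W) ↔ j0 := by
    rw [hj0]
    constructor
    · rintro ⟨A, hA, h1, h2⟩
      exact ⟨A, (opA_of_notMem (fun h => haE (h1 h))).1 hA, h1, h2⟩
    · rintro ⟨A, hA, h1, h2⟩
      exact ⟨A, Or.inl hA, h1, h2⟩
  have jA' : (∃ A, opA a Q (insert a A) ∧ A ⊆ E ∧ E ⊆ A ∪ W) ↔ (j0 ∨ j1) := by
    rw [hj0, hj1]
    constructor
    · rintro ⟨A, hA, h1, h2⟩
      rcases (opA_insert (fun h => haE (h1 h))).1 hA with h | h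
      · exact Or.inr ⟨A, h, h1, h2⟩
      · exact Or.inl ⟨A, h, h1, h2⟩
    · rintro (⟨A, hA, h1, h2⟩ | ⟨A, hA, h1, h2⟩)
      · exact ⟨A, (opA_insert (fun h => haE (h1 h))).2 (Or.inr hA), h1, h2⟩
      · exact ⟨A, Or.inl hA, h1, h2⟩
  have uA' : (∃ B, opA a P (insert a B) ∧ B ⊆ E) ↔ (u0 ∨ u1) := by
    rw [hu0, hu1]
    constructor
    · rintro ⟨A, hA, h1⟩
      rcases (opA_insert (fun h => haE (h1 h))).1 hA with h | h
      · exact Or.inr ⟨A, h, h1⟩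
      · exact Or.inl ⟨A, h, h1⟩
    · rintro (⟨A, hA, h1⟩ | ⟨A, hA, h1⟩)
      · exact ⟨A, (opA_insert (fun h => haE (h1 h))).2 (Or.inr hA), h1⟩
      · exact ⟨A, Or.inl hA, h1⟩
  have uA : (∃ B, opA a P B ∧ B ⊆ E) ↔ u0 := by rw [hu0]; exact upE P
  have pA : opA a P (insert k E) ↔ p0 := by rw [hp0]; exact opA_of_notMem hakE
  have pA' : opA a P (insert a (insert k E)) ↔ (p1 ∨ p0) := by
    rw [hp0, hp1]; exact opA_insert hakE
  have uB' : (∃ B, opB a P (insert a B) ∧ B ⊆ E) ↔ u1 := by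
    rw [hu1]
    constructor
    · rintro ⟨A, hA, h1⟩; exact ⟨A, opB_insert.1 hA, h1⟩
    · rintro ⟨A, hA, h1⟩; exact ⟨A, opB_insert.2 hA, h1⟩
  have jB' : (∃ A, opB a Q (insert a A) ∧ A ⊆ E ∧ E ⊆ A ∪ W) ↔ j1 := by
    rw [hj1]
    constructor
    · rintro ⟨A, hA, h1⟩; exact ⟨A, opB_insert.1 hA, h1⟩
    · rintro ⟨A, hA, h1⟩; exact ⟨A, opB_insert.2 hA, h1⟩
  have pB' : opB a P (insert a (insert k E)) ↔ p1 := by rw [hp1]; exact opB_insert
  have jB : (∃ A, opB a Q A ∧ A ⊆ E ∧ E ⊆ A ∪ W) ↔ jb := hjb.symm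
  have uB : (∃ B, opB a P B ∧ B ⊆ E) ↔ ub := hub.symm
  have pB : opB a P (insert k E) ↔ (p0 ∧ p1) := by rw [hp0, hp1]; exact Iff.rfl
  have a1 : Ed (opA a Q) (opA a P) W E k ↔ (j0 ∧ ¬ u0 ∧ p0) := by
    rw [Edd _ _ _ _ hkE, jn00, up00, jA, uA, pA]
  have a2 : Ed (opA a Q) (opA a P) (insert a W) E k ↔ (j0 ∧ ¬ u0 ∧ p0) := by
    rw [Edd _ _ _ _ hkE, jn0, up00, jA, uA, pA]
  have a3 : Ed (opA a Q) (opA a P) W (insert a E) k ↔
      ((j0 ∨ j1) ∧ ¬ (u0 ∨ (u0 ∨ u1)) ∧ (p1 ∨ p0)) := by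
    rw [Edd _ _ _ _ kk, jn1, upP, hcomm, jA', uA', uA, pA']
  have a4 : Ed (opA a Q) (opA a P) (insert a W) (insert a E) k ↔
      ((j0 ∨ (j0 ∨ j1)) ∧ ¬ (u0 ∨ (u0 ∨ u1)) ∧ (p1 ∨ p0)) := by
    rw [Edd _ _ _ _ kk, jn2, upP, hcomm, jA, jA', uA', uA, pA']
  have b1 : Ed (opB a Q) (opB a P) W E k ↔ (jb ∧ ¬ ub ∧ (p0 ∧ p1)) := by
    rw [Edd _ _ _ _ hkE, jn00, up00, jB, uB, pB]
  have b2 : Ed (opB a Q) (opB a P) (insert a W) E k ↔ (jb ∧ ¬ ub ∧ (p0 ∧ p1)) := by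
    rw [Edd _ _ _ _ hkE, jn0, up00, jB, uB, pB]
  have b3 : Ed (opB a Q) (opB a P) W (insert a E) k ↔ (j1 ∧ ¬ (ub ∨ u1) ∧ p1) := by
    rw [Edd _ _ _ _ kk, jn1, upP, hcomm, jB', uB', uB, pB']
  have b4 : Ed (opB a Q) (opB a P) (insert a W) (insert a E) k ↔
      ((jb ∨ j1) ∧ ¬ (ub ∨ u1) ∧ p1) := by
    rw [Edd _ _ _ _ kk, jn2, upP, hcomm, jB', jB, uB', uB, pB']
  rw [e1, e2, e3, e4, a1, a2, a3, a4, b1, b2, b3, b4]
  exact prop_ineq2 f1 f2 f3 f4 f5 f6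

end

end Pool.Agent.N188.FC
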