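import Mathlib

set_option autoImplicit false

/-!
# The sum of the binary digit sums
-/

namespace Pool.Agent.N188.FC

/-- the binary digit sum -/
def ds (n : ℕ) : ℕ := (Nat.digits 2 n).sum

theorem ds_even (k : ℕ) : ds (2 * k) = ds k := by
  unfold ds
  rcases Nat.eq_zero_or_pos k with rfl | hk
  · simp
  · rw [Nat.digits_def' (by norm_num) (by omega)]
    simp

theorem ds_odd (k : ℕ) : ds (2 * k + 1) = ds k + 1 := by
  unfold ds
  rw [Nat.digits_def' (by norm_num) (by omega)]
  have h1 : (2 * k + 1) % 2 = 1 := by omega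
  have h2 : (2 * k + 1) / 2 = k := by omega
  rw [h1, h2, List.sum_cons, add_comm]

/-- the sum of the digit sums of the numbers below `n` -/
def gs (n : ℕ) : ℕ := ∑ i ∈ Finset.range n, ds i

theorem gs_succ (n : ℕ) : gs (n + 1) = gs n + ds n := Finset.sum_range_succ _ _

theorem gs_zero : gs 0 = 0 := rfl

theorem gs_even (k : ℕ) : gs (2 * k) = 2 * gs k + k := by
  induction k with
  | zero => rfl
  | succ k ih =>
    have h : 2 * (k + 1) = 2 * k + 1 + 1 := by ring
    rw [h, gs_succ, gs_succ, ih, ds_even, ds_odd, gs_succ]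
    ring

theorem gs_odd (k : ℕ) : gs (2 * k + 1) = gs k + gs (k + 1) + k := by
  rw [gs_succ, gs_even, ds_even, gs_succ]
  ring

/-- the main superadditivity property -/
theorem gs_add (n : ℕ) : ∀ c d : ℕ, c + d = n → gs c + gs d + min c d ≤ gs (c + d) := by
  induction n using Nat.strong_induction_on with
  | _ n ih =>
    intro c d hcd
    rcases Nat.eq_zero_or_pos c with rfl | hc
    · simp [gs_zero]
    rcases Nat.eq_zero_or_pos d with rfl | hd
    · simp [gs_zero]
    obtain ⟨a, ha | ha⟩ := Nat.even_or_odd' c <;> obtain ⟨b, hb | hb⟩ := Nat.even_or_odd' d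
    · have h1 := ih (a + b) (by omega) a b rfl
      have e : c + d = 2 * (a + b) := by omega
      rw [e, gs_even, ha, hb, gs_even, gs_even]
      omega
    · have h1 := ih (a + b) (by omega) a b rfl
      have h2 := ih (a + (b + 1)) (by omega) a (b + 1) rfl
      have e : c + d = 2 * (a + b) + 1 := by omega
      have e2 : a + b + 1 = a + (b + 1) := by omega
      rw [e, gs_odd, ha, hb, gs_even, gs_odd, e2]
      omega
    · have h1 := ih (a + b) (by omega) a b rfl
      have h2 := ih ((a + 1) + b) (by omega) (a + 1) b rfl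
      have e : c + d = 2 * (a + b) + 1 := by omega
      have e2 : a + b + 1 = (a + 1) + b := by omega
      rw [e, gs_odd, ha, hb, gs_even, gs_odd, e2]
      omega
    · have h1 := ih ((a + 1) + b) (by omega) (a + 1) b rfl
      have h2 := ih (a + (b + 1)) (by omega) a (b + 1) rfl
      have e : c + d = 2 * (a + b + 1) := by omega
      have e1 : (a + 1) + b = a + b + 1 := by omega
      have e2 : a + (b + 1) = a + b + 1 := by omega
      rw [e1] at h1
      rw [e2] at h2
      rw [e, gs_even, ha, hb, gs_odd, gs_odd]
      omega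

/-- the average digit sum below two thirds of `2 ^ n` -/
theorem gs_bound (n : ℕ) : ∀ s r : ℕ, r ≤ 2 → 3 * s ≤ 2 ^ (n + 1) + r →
    2 * gs s + s ≤ n * s + r := by
  induction n with
  | zero =>
    intro s r hr h
    have hs : s = 0 ∨ s = 1 := by omega
    rcases hs with rfl | rfl
    · simp [gs_zero]
    · have : gs 1 = 0 := by decide
      rw [this]
      omega
  | succ n ih =>
    intro s r hr h
    have hp : 2 ^ (n + 1 + 1) = 2 * 2 ^ (n + 1) := by ring
    rw [hp] at h
    obtain ⟨k, hk | hk⟩ := Nat.even_or_odd' s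
    · have h1 := ih k (r / 2) (by omega) (by omega)
      rw [hk, gs_even]
      have e : (n + 1) * (2 * k) = 2 * (n * k) + 2 * k := by ring
      rw [e]
      omega
    · have h1 := ih k 0 (by omega) (by omega)
      rw [hk, gs_odd]
      have e : (n + 1) * (2 * k + 1) = n * k + n * (k + 1) + 2 * k + 1 := by ring
      rw [e]
      rcases Nat.eq_zero_or_pos r with rfl | hr0
      · have h2 := ih (k + 1) 1 (by omega) (by omega)
        omega
      · have h2 := ih (k + 1) 2 (by omega) (by omega)
        omega

end Pool.Agent.N188.FC
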