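import Pool.Agent.N188.FC.Comp
import Pool.Agent.N188.FC.Digit

set_option autoImplicit false

/-!
# The edge inequality with the threshold one third
-/

namespace Pool.Agent.N188.FC

open Finset
open scoped Classical

variable {α : Type*} [DecidableEq α]

section step

variable {a : α} {N : Finset α} {Q P : Finset α → Prop}

theorem blockn (ha : a ∉ N) (hPQ : ∀ A B, P A → Q B → P (A ∪ B)) (W E : Finset α)
    (hE : E ⊆ N) :
    ind (Ed (opA a Q) (opA a P) W E a) + ind (Ed (opB a Q) (opB a P) W E a) ≤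
      2 * ind (Ed Q P W E a) := by
  have haE : a ∉ E := fun h => ha (hE h)
  have h1 : ind (Ed (opA a Q) (opA a P) W E a) ≤ ind (Ed Q P W E a) := by
    apply ind_mono
    rintro ⟨_, ⟨A, hA, h2, h3⟩, h4, h5⟩
    have hup : ¬ Up P E := by
      rintro ⟨B, hB, hBE⟩
      exact h4 ⟨B, Or.inl hB, hBE⟩
    refine ⟨haE, ⟨A, (opA_of_notMem (fun h => haE (h2 h))).1 hA, h2, h3⟩, hup, ?_⟩
    rcases (opA_insert haE).1 h5 with h | h
    · exact h
    · exact absurd ⟨E, h, Subset.rfl⟩ hup
  have h2 : ind (Ed (opB a Q) (opB a P) W E a) ≤ ind (Ed Q P W E a) := by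
    apply ind_mono
    rintro ⟨_, ⟨A, hA, h2, h3⟩, h4, h5⟩
    refine ⟨haE, ⟨A, hA.1, h2, h3⟩, ?_, opB_insert.1 h5⟩
    rintro ⟨B, hB, hBE⟩
    refine h4 ⟨B ∪ A, ⟨hPQ _ _ hB hA.1, ?_⟩, union_subset hBE h2⟩
    have := hPQ _ _ hB hA.2
    rwa [union_insert] at this
  omega

theorem L_step (ha : a ∉ N) (hPQ : ∀ A B, P A → Q B → P (A ∪ B)) :
    L (insert a N) (opA a Q) (opA a P) + L (insert a N) (opB a Q) (opB a P) ≤
      2 * L (insert a N) Q P := by
  unfold L
  rw [sum_powerset_insert ha, sum_powerset_insert ha, sum_powerset_insert ha]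
  simp only [← sum_add_distrib, mul_sum]
  refine sum_le_sum fun W hW => ?_
  rw [mem_powerset] at hW
  rw [sum_powerset_insert ha, sum_powerset_insert ha]
  simp only [← sum_add_distrib]
  refine sum_le_sum fun E hE => ?_
  rw [mem_powerset] at hE
  have e : ∀ f : α → ℕ, ∑ k ∈ insert a N, f k = f a + ∑ k ∈ N, f k := fun f => sum_insert ha
  simp only [e]
  have hn1 := blockn (Q := Q) ha hPQ W E hE
  have hn2 := blockn (Q := Q) ha hPQ (insert a W) E hE
  have z : ∀ (R R' : Finset α → Prop) (W' : Finset α), ind (Ed R R' W' (insert a E) a) = 0 := by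
    intro R R' W'
    unfold ind Ed
    simp
  have hb : ∑ k ∈ N,
      ((ind (Ed (opA a Q) (opA a P) W E k) + ind (Ed (opA a Q) (opA a P) (insert a W) E k) +
      ind (Ed (opA a Q) (opA a P) W (insert a E) k) +
      ind (Ed (opA a Q) (opA a P) (insert a W) (insert a E) k)) +
    (ind (Ed (opB a Q) (opB a P) W E k) + ind (Ed (opB a Q) (opB a P) (insert a W) E k) +
      ind (Ed (opB a Q) (opB a P) W (insert a E) k) +
      ind (Ed (opB a Q) (opB a P) (insert a W) (insert a E) k))) ≤
    ∑ k ∈ N, 2 * (ind (Ed Q P W E k) + ind (Ed Q P (insert a W) E k) +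
      ind (Ed Q P W (insert a E) k) + ind (Ed Q P (insert a W) (insert a E) k)) :=
    sum_le_sum fun k hk => block2 ha hPQ W E k hW hE hk
  simp only [sum_add_distrib, ← mul_sum] at hb ⊢
  simp only [z]
  omega

theorem cnt_step (ha : a ∉ N) (hPQ : ∀ A B, P A → Q B → P (A ∪ B)) (hsub : ∀ A, P A → Q A) :
    2 * cnt (insert a N) (fun A => Q A ∧ ¬ P A) ≤
      cnt (insert a N) (fun A => opA a Q A ∧ ¬ opA a P A) +
      cnt (insert a N) (fun A => opB a Q A ∧ ¬ opB a P A) := by
  rw [cnt_insert ha, cnt_insert ha, cnt_insert ha]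
  unfold cnt
  simp only [← sum_add_distrib, mul_sum]
  refine sum_le_sum fun A hA => ?_
  have haA : a ∉ A := fun h => ha (mem_powerset.1 hA h)
  have h01 : P A → Q (insert a A) → P (insert a A) := by
    intro h1 h2
    have := hPQ _ _ h1 h2
    rwa [union_insert, union_self] at this
  have e1 : (opA a Q A ∧ ¬ opA a P A) ↔ (Q A ∧ ¬ P A) := by
    rw [opA_of_notMem haA, opA_of_notMem haA]
  have e2 : (opA a Q (insert a A) ∧ ¬ opA a P (insert a A)) ↔
      ((Q (insert a A) ∨ Q A) ∧ ¬ (P (insert a A) ∨ P A)) := by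
    rw [opA_insert haA, opA_insert haA]
  have e3 : (opB a Q A ∧ ¬ opB a P A) ↔
      ((Q A ∧ Q (insert a A)) ∧ ¬ (P A ∧ P (insert a A))) := Iff.rfl
  have e4 : (opB a Q (insert a A) ∧ ¬ opB a P (insert a A)) ↔
      (Q (insert a A) ∧ ¬ P (insert a A)) := by
    rw [opB_insert, opB_insert]
  rw [e1, e2, e3, e4]
  have s0 := hsub A
  have s1 := hsub (insert a A)
  by_cases c1 : Q A <;> by_cases c2 : Q (insert a A) <;> by_cases c3 : P A <;>
    by_cases c4 : P (insert a A) <;> simp_all [ind]

end step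

/-- the number of the edges from `D` upwards to sets outside `D` -/
noncomputable def edges (N : Finset α) (D : Finset α → Prop) : ℕ :=
  ∑ E ∈ N.powerset, ∑ k ∈ N, ind (k ∉ E ∧ D E ∧ ¬ D (insert k E))

theorem mono_up {N : Finset α} {P : Finset α → Prop} (h : MonoIn N P) {B E : Finset α}
    (hB : P B) (hBE : B ⊆ E) (hE : E ⊆ N) : P E := by
  have key : ∀ X : Finset α, X ⊆ N → P (X ∪ B) := by
    intro X
    induction X using Finset.induction_on with
    | empty => intro _; simpa using hB
    | insert x X _ ih =>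
      intro hX
      rw [insert_union]
      exact h x (hX (mem_insert_self _ _)) _ (ih ((subset_insert _ _).trans hX))
  have := key E hE
  rwa [union_eq_left.2 hBE] at this

/-- the case of up-sets -/
theorem base_up {N : Finset α} {Q P : Finset α → Prop} (hQ : MonoIn N Q) (hP : MonoIn N P) :
    2 ^ N.card * edges N (fun A => Q A ∧ ¬ P A) ≤ L N Q P := by
  have h1 : 2 ^ N.card * edges N (fun A => Q A ∧ ¬ P A) =
      ∑ W ∈ N.powerset, edges N (fun A => Q A ∧ ¬ P A) := by
    rw [sum_const, card_powerset, smul_eq_mul]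
  rw [h1]
  unfold L edges
  refine sum_le_sum fun W _ => sum_le_sum fun E hE => sum_le_sum fun k hk => ?_
  rw [mem_powerset] at hE
  apply ind_mono
  rintro ⟨h2, ⟨h3, h4⟩, h5⟩
  refine ⟨h2, ⟨E, h3, Subset.rfl, subset_union_left⟩, ?_, ?_⟩
  · rintro ⟨B, hB, hBE⟩
    exact h4 (mono_up hP hB hBE hE)
  · by_contra h6
    exact h5 ⟨hQ k hk E h3, h6⟩

/-- closed downwards in the directions in `T` -/
def DownIn (T : Finset α) (D : Finset α → Prop) : Prop := ∀ t ∈ T, ∀ A, D (insert t A) → D A

/-- saturation downwards in direction `a` -/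
def opC (a : α) (D : Finset α → Prop) (A : Finset α) : Prop := D A ∨ D (insert a A)

/-- interior downwards in direction `a` -/
def opD (a : α) (D : Finset α → Prop) (A : Finset α) : Prop := D A ∧ D (A.erase a)

theorem opC_down {a : α} {T : Finset α} {D : Finset α → Prop} (h : DownIn T D) :
    DownIn (insert a T) (opC a D) := by
  intro t ht A hA
  by_cases hta : t = a
  · subst hta
    rcases hA with hA | hA
    · exact Or.inr hA
    · right; rwa [insert_eq_of_mem (mem_insert_self _ _)] at hA
  · have ht' : t ∈ T := (mem_insert.1 ht).resolve_left hta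
    rcases hA with hA | hA
    · exact Or.inl (h t ht' A hA)
    · right
      rw [insert_comm] at hA
      exact h t ht' _ hA

theorem opD_down {a : α} {T : Finset α} {D : Finset α → Prop} (h : DownIn T D) :
    DownIn (insert a T) (opD a D) := by
  intro t ht A hA
  by_cases hta : t = a
  · subst hta
    obtain ⟨h1, h2⟩ := hA
    by_cases h3 : t ∈ A
    · rw [insert_eq_of_mem h3] at h1 h2
      exact ⟨h1, h2⟩
    · rw [erase_insert h3] at h2
      exact ⟨h2, by rwa [erase_eq_of_notMem h3]⟩
  · have ht' : t ∈ T := (mem_insert.1 ht).resolve_left hta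
    obtain ⟨h1, h2⟩ := hA
    rw [erase_insert_of_ne (fun h => hta h)] at h2
    exact ⟨h t ht' A h1, h t ht' _ h2⟩

section ustep

variable {a : α} {N : Finset α} {D : Finset α → Prop}

theorem sub_ineq {d0 d1 e0 e1 : Prop} :
    (ind ((d0 ∨ d1) ∧ ¬ (e0 ∨ e1)) + ind (d1 ∧ ¬ e1)) +
      (ind (d0 ∧ ¬ e0) + ind ((d0 ∧ d1) ∧ ¬ (e0 ∧ e1))) ≤
    2 * (ind (d0 ∧ ¬ e0) + ind (d1 ∧ ¬ e1)) := by
  by_cases c1 : d0 <;> by_cases c2 : d1 <;> by_cases c3 : e0 <;> by_cases c4 : e1 <;>
    simp [ind, c1, c2, c3, c4]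

theorem edges_split (ha : a ∉ N) (D : Finset α → Prop) : edges (insert a N) D =
    ∑ E ∈ N.powerset, (ind (D E ∧ ¬ D (insert a E)) +
      ∑ k ∈ N, (ind (k ∉ E ∧ D E ∧ ¬ D (insert k E)) +
        ind (k ∉ E ∧ D (insert a E) ∧ ¬ D (insert a (insert k E))))) := by
  unfold edges
  rw [sum_powerset_insert ha, ← sum_add_distrib]
  refine sum_congr rfl fun E hE => ?_
  have haE : a ∉ E := fun h => ha (mem_powerset.1 hE h)
  rw [sum_insert ha, sum_insert ha, sum_add_distrib]
  have h1 : ind (a ∉ insert a E ∧ D (insert a E) ∧ ¬ D (insert a (insert a E))) = 0 := by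
    simp [ind]
  have h2 : ind (a ∉ E ∧ D E ∧ ¬ D (insert a E)) = ind (D E ∧ ¬ D (insert a E)) := by
    congr 1; simp [haE]
  have h3 : ∑ k ∈ N, ind (k ∉ insert a E ∧ D (insert a E) ∧ ¬ D (insert k (insert a E))) =
      ∑ k ∈ N, ind (k ∉ E ∧ D (insert a E) ∧ ¬ D (insert a (insert k E))) := by
    refine sum_congr rfl fun k hk => ?_
    have hka : k ≠ a := fun h => ha (h ▸ hk)
    rw [insert_comm k a E]
    congr 1
    simp [hka]
  rw [h1, h2, h3]
  ring

theorem edges_step (ha : a ∉ N) :
    edges (insert a N) (opC a D) + edges (insert a N) (opD a D) ≤ 2 * edges (insert a N) D := by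
  rw [edges_split ha, edges_split ha, edges_split ha, ← sum_add_distrib, mul_sum]
  refine sum_le_sum fun E hE => ?_
  have haE : a ∉ E := fun h => ha (mem_powerset.1 hE h)
  have c0 : ∀ A : Finset α, a ∉ A → (opC a D A ↔ (D A ∨ D (insert a A))) := fun A _ => Iff.rfl
  have c1 : ∀ A : Finset α, (opC a D (insert a A) ↔ D (insert a A)) := by
    intro A; unfold opC; rw [insert_eq_of_mem (mem_insert_self a A)]; exact or_self_iff
  have d0 : ∀ A : Finset α, a ∉ A → (opD a D A ↔ D A) := by
    intro A h; unfold opD; rw [erase_eq_of_notMem h]; exact and_self_iff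
  have d1 : ∀ A : Finset α, a ∉ A → (opD a D (insert a A) ↔ (D A ∧ D (insert a A))) := by
    intro A h; unfold opD; rw [erase_insert h]; exact and_comm
  rw [c0 E haE, c1 E, d0 E haE, d1 E haE]
  have hn : ind ((D E ∨ D (insert a E)) ∧ ¬ D (insert a E)) +
      ind (D E ∧ ¬ (D E ∧ D (insert a E))) ≤ 2 * ind (D E ∧ ¬ D (insert a E)) := by
    by_cases h1 : D E <;> by_cases h2 : D (insert a E) <;> simp [ind, h1, h2]
  have hk : ∑ k ∈ N, ((ind (k ∉ E ∧ (D E ∨ D (insert a E)) ∧ ¬ opC a D (insert k E)) +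
        ind (k ∉ E ∧ D (insert a E) ∧ ¬ opC a D (insert a (insert k E)))) +
      (ind (k ∉ E ∧ D E ∧ ¬ opD a D (insert k E)) +
        ind (k ∉ E ∧ (D E ∧ D (insert a E)) ∧ ¬ opD a D (insert a (insert k E))))) ≤
      ∑ k ∈ N, 2 * (ind (k ∉ E ∧ D E ∧ ¬ D (insert k E)) +
        ind (k ∉ E ∧ D (insert a E) ∧ ¬ D (insert a (insert k E)))) := by
    refine sum_le_sum fun k hkN => ?_
    have hka : a ≠ k := fun h => ha (h ▸ hkN)
    have hakE : a ∉ insert k E := by simp [hka, haE]
    by_cases hkE : k ∈ E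
    · simp [ind, hkE]
    · rw [c0 _ hakE, c1, d0 _ hakE, d1 _ hakE]
      have := sub_ineq (d0 := D E) (d1 := D (insert a E)) (e0 := D (insert k E))
        (e1 := D (insert a (insert k E)))
      simpa only [hkE, not_false_eq_true, true_and] using this
  simp only [sum_add_distrib, ← mul_sum] at hk ⊢
  omega

theorem cnt_stepCD (ha : a ∉ N) :
    cnt (insert a N) (opC a D) + cnt (insert a N) (opD a D) = 2 * cnt (insert a N) D := by
  rw [cnt_insert ha, cnt_insert ha, cnt_insert ha]
  unfold cnt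
  simp only [← sum_add_distrib, mul_sum]
  refine sum_congr rfl fun A hA => ?_
  have haA : a ∉ A := fun h => ha (mem_powerset.1 hA h)
  have c1 : opC a D (insert a A) ↔ D (insert a A) := by
    unfold opC; rw [insert_eq_of_mem (mem_insert_self a A)]; exact or_self_iff
  have d0 : opD a D A ↔ D A := by
    unfold opD; rw [erase_eq_of_notMem haA]; exact and_self_iff
  have d1 : opD a D (insert a A) ↔ (D A ∧ D (insert a A)) := by
    unfold opD; rw [erase_insert haA]; exact and_comm
  have c0 : opC a D A ↔ (D A ∨ D (insert a A)) := Iff.rfl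
  rw [c0, c1, d0, d1]
  by_cases h1 : D A <;> by_cases h2 : D (insert a A) <;> simp [ind, h1, h2]

end ustep

/-- The edge isoperimetric inequality for down-sets (Harper). -/
theorem harper (N : Finset α) : ∀ D : Finset α → Prop, DownIn N D →
    N.card * cnt N D ≤ edges N D + 2 * gs (cnt N D) := by
  induction N using Finset.induction_on with
  | empty =>
    intro D _
    simp
  | insert a N ha ih =>
    intro D hD
    have hD0 : DownIn N D := fun t ht => hD t (mem_insert_of_mem ht)
    have hD1 : DownIn N (fun A => D (insert a A)) := by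
      intro t ht A hA
      have hA' : D (insert a (insert t A)) := hA
      rw [insert_comm] at hA'
      exact hD t (mem_insert_of_mem ht) _ hA'
    have i0 := ih D hD0
    have i1 := ih _ hD1
    have hc : cnt (insert a N) D = cnt N D + cnt N (fun A => D (insert a A)) := cnt_insert ha D
    have hle : cnt N (fun A => D (insert a A)) ≤ cnt N D :=
      cnt_mono _ _ _ (fun A _ h => hD a (mem_insert_self _ _) A h)
    have he : cnt N D + edges N D + edges N (fun A => D (insert a A)) ≤
        edges (insert a N) D + cnt N (fun A => D (insert a A)) := by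
      rw [edges_split ha]
      unfold edges cnt
      simp only [sum_add_distrib]
      have h1 : ∑ A ∈ N.powerset, ind (D A) ≤ ∑ E ∈ N.powerset, ind (D E ∧ ¬ D (insert a E)) +
          ∑ A ∈ N.powerset, ind (D (insert a A)) := by
        rw [← sum_add_distrib]
        refine sum_le_sum fun A _ => ?_
        by_cases h1 : D A <;> by_cases h2 : D (insert a A) <;> simp [ind, h1, h2]
      omega
    have hg := gs_add _ (cnt N D) (cnt N (fun A => D (insert a A))) rfl
    rw [min_eq_right hle] at hg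
    rw [card_insert_of_notMem ha, hc]
    generalize cnt N D = c at *
    generalize cnt N (fun A => D (insert a A)) = d at *
    have e1 : (N.card + 1) * (c + d) = N.card * c + N.card * d + c + d := by ring
    rw [e1]
    omega

/-- The edge isoperimetric inequality for down-sets, in terms of the complement. -/
theorem harper' (N : Finset α) : ∀ D : Finset α → Prop, DownIn N D →
    N.card * cnt N (fun A => ¬ D A) ≤ edges N D + 2 * gs (cnt N (fun A => ¬ D A)) := by
  induction N using Finset.induction_on with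
  | empty =>
    intro D _
    simp
  | insert a N ha ih =>
    intro D hD
    have hD0 : DownIn N D := fun t ht => hD t (mem_insert_of_mem ht)
    have hD1 : DownIn N (fun A => D (insert a A)) := by
      intro t ht A hA
      have hA' : D (insert a (insert t A)) := hA
      rw [insert_comm] at hA'
      exact hD t (mem_insert_of_mem ht) _ hA'
    have i0 := ih D hD0
    have i1 := ih _ hD1
    have hc : cnt (insert a N) (fun A => ¬ D A) =
        cnt N (fun A => ¬ D A) + cnt N (fun A => ¬ D (insert a A)) := cnt_insert ha _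
    have hle : cnt N (fun A => ¬ D A) ≤ cnt N (fun A => ¬ D (insert a A)) :=
      cnt_mono _ _ _ (fun A _ h h' => h (hD a (mem_insert_self _ _) A h'))
    have he : cnt N (fun A => ¬ D (insert a A)) + edges N D +
        edges N (fun A => D (insert a A)) ≤
        edges (insert a N) D + cnt N (fun A => ¬ D A) := by
      rw [edges_split ha]
      unfold edges cnt
      simp only [sum_add_distrib]
      have h1 : ∑ A ∈ N.powerset, ind (¬ D (insert a A)) ≤
          ∑ E ∈ N.powerset, ind (D E ∧ ¬ D (insert a E)) + ∑ A ∈ N.powerset, ind (¬ D A) := by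
        rw [← sum_add_distrib]
        refine sum_le_sum fun A _ => ?_
        by_cases h1 : D A <;> by_cases h2 : D (insert a A) <;> simp [ind, h1, h2]
      omega
    have hg := gs_add _ (cnt N (fun A => ¬ D A)) (cnt N (fun A => ¬ D (insert a A))) rfl
    rw [min_eq_left hle] at hg
    rw [card_insert_of_notMem ha, hc]
    generalize cnt N (fun A => ¬ D A) = c at *
    generalize cnt N (fun A => ¬ D (insert a A)) = d at *
    have e1 : (N.card + 1) * (c + d) = N.card * c + N.card * d + c + d := by ring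
    rw [e1]
    omega

/-- From down-sets to arbitrary families. -/
theorem edges_ge {N : Finset α} {Y : Finset α → Prop} {l : ℝ}
    (h : ∀ D : Finset α → Prop, DownIn N D → (∀ A, D A → ¬ Up Y A) →
      l * cnt N D ≤ edges N D)
    (R : Finset α) : R ⊆ N → ∀ D : Finset α → Prop, DownIn (N \ R) D →
    (∀ A, D A → ¬ Up Y A) → l * cnt N D ≤ edges N D := by
  induction R using Finset.induction_on with
  | empty =>
    intro _ D hD hY
    rw [sdiff_empty] at hD
    exact h D hD hY
  | insert a R haR ih =>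
    intro hR D hD hY
    have haN : a ∈ N := hR (mem_insert_self _ _)
    have hRN : R ⊆ N := (subset_insert _ _).trans hR
    have hset : insert a (N \ insert a R) = N \ R := by
      ext x
      simp only [mem_insert, mem_sdiff]
      constructor
      · rintro (rfl | ⟨h1, h2⟩)
        · exact ⟨haN, haR⟩
        · exact ⟨h1, fun h3 => h2 (Or.inr h3)⟩
      · rintro ⟨h1, h2⟩
        by_cases hx : x = a
        · exact Or.inl hx
        · exact Or.inr ⟨h1, fun h3 => h3.elim hx h2⟩
    have hC := opC_down (a := a) hD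
    have hDD := opD_down (a := a) hD
    rw [hset] at hC hDD
    have i1 := ih hRN (opC a D) hC (by
      rintro A (hA | hA) ⟨B, hB, hBA⟩
      · exact hY A hA ⟨B, hB, hBA⟩
      · exact hY _ hA ⟨B, hB, hBA.trans (subset_insert _ _)⟩)
    have i2 := ih hRN (opD a D) hDD (fun A hA => hY A hA.1)
    obtain ⟨N', hN', rfl⟩ : ∃ N', a ∉ N' ∧ insert a N' = N :=
      ⟨N.erase a, notMem_erase _ _, insert_erase haN⟩
    have h1 := edges_step (D := D) hN'
    have h2 := cnt_stepCD (D := D) hN'
    have h1R : (edges (insert a N') (opC a D) : ℝ) + edges (insert a N') (opD a D) ≤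
        2 * edges (insert a N') D := by exact_mod_cast h1
    have h2R : (cnt (insert a N') (opC a D) : ℝ) + cnt (insert a N') (opD a D) =
        2 * cnt (insert a N') D := by exact_mod_cast h2
    have h3 : l * (cnt (insert a N') (opC a D) : ℝ) + l * cnt (insert a N') (opD a D) =
        2 * (l * cnt (insert a N') D) := by rw [← mul_add, h2R]; ring
    linarith

/-- The edge inequality from an isoperimetric hypothesis. -/
theorem zed_of_edges {N : Finset α} {Y : Finset α → Prop} {l : ℝ} (hl : 0 ≤ l)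
    (h : ∀ D : Finset α → Prop, (∀ A, D A → ¬ Up Y A) → l * cnt N D ≤ edges N D)
    (R : Finset α) : R ⊆ N → ∀ Q P : Finset α → Prop, MonoIn (N \ R) Q → MonoIn (N \ R) P →
    (∀ A B, P A → Q B → P (A ∪ B)) → (∀ A B, Y A → Q B → P (A ∪ B)) → (∀ A, P A → Q A) →
    2 ^ N.card * (l * cnt N (fun A => Q A ∧ ¬ P A)) ≤ L N Q P := by
  induction R using Finset.induction_on with
  | empty =>
    intro _ Q P hQ hP hPQ hYQ _
    rw [sdiff_empty] at hQ hP
    have hb : (2 : ℝ) ^ N.card * edges N (fun A => Q A ∧ ¬ P A) ≤ L N Q P := by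
      exact_mod_cast base_up hQ hP
    refine le_trans (mul_le_mul_of_nonneg_left (h _ ?_) (by positivity)) hb
    rintro A ⟨h1, h2⟩ ⟨B, hB, hBA⟩
    have := hYQ _ _ hB h1
    rw [union_eq_right.2 hBA] at this
    exact h2 this
  | insert a R haR ih =>
    intro hR Q P hQ hP hPQ hYQ hsub
    have haN : a ∈ N := hR (mem_insert_self _ _)
    have hRN : R ⊆ N := (subset_insert _ _).trans hR
    have hset : insert a (N \ insert a R) = N \ R := by
      ext x
      simp only [mem_insert, mem_sdiff]
      constructor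
      · rintro (rfl | ⟨h1, h2⟩)
        · exact ⟨haN, haR⟩
        · exact ⟨h1, fun h3 => h2 (Or.inr h3)⟩
      · rintro ⟨h1, h2⟩
        by_cases hx : x = a
        · exact Or.inl hx
        · exact Or.inr ⟨h1, fun h3 => h3.elim hx h2⟩
    have hQA := opA_mono (a := a) hQ
    have hPA := opA_mono (a := a) hP
    have hQB := opB_mono (a := a) hQ
    have hPB := opB_mono (a := a) hP
    rw [hset] at hQA hPA hQB hPB
    have i1 := ih hRN (opA a Q) (opA a P) hQA hPA (opA_join hPQ) (opA_join' hYQ)
      (fun A hA => hA.elim (fun h => Or.inl (hsub _ h)) (fun h => Or.inr ⟨h.1, hsub _ h.2⟩))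
    have i2 := ih hRN (opB a Q) (opB a P) hQB hPB (opB_join hPQ) (opB_join' hYQ)
      (fun A hA => ⟨hsub _ hA.1, hsub _ hA.2⟩)
    obtain ⟨N', hN', rfl⟩ : ∃ N', a ∉ N' ∧ insert a N' = N :=
      ⟨N.erase a, notMem_erase _ _, insert_erase haN⟩
    have h1 := L_step (Q := Q) (P := P) hN' hPQ
    have h2 := cnt_step (Q := Q) (P := P) hN' hPQ hsub
    have h1R : (L (insert a N') (opA a Q) (opA a P) : ℝ) + L (insert a N') (opB a Q) (opB a P) ≤
        2 * L (insert a N') Q P := by exact_mod_cast h1
    have h2R : 2 * (cnt (insert a N') (fun A => Q A ∧ ¬ P A) : ℝ) ≤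
        cnt (insert a N') (fun A => opA a Q A ∧ ¬ opA a P A) +
        cnt (insert a N') (fun A => opB a Q A ∧ ¬ opB a P A) := by exact_mod_cast h2
    have h3 := mul_le_mul_of_nonneg_left h2R
      (by positivity : (0 : ℝ) ≤ 2 ^ (insert a N').card * l)
    nlinarith

/-- The edge inequality from an isoperimetric hypothesis on down-sets, for `P` not necessarily
contained in `Q`. -/
theorem zed' {N : Finset α} {Y Q P : Finset α → Prop} {l : ℝ} (hl : 0 ≤ l)
    (h : ∀ D : Finset α → Prop, DownIn N D → (∀ A, D A → ¬ Up Y A) →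
      l * cnt N D ≤ edges N D)
    (hPQ : ∀ A B, P A → Q B → P (A ∪ B)) (hPP : ∀ A B, P A → P B → P (A ∪ B))
    (hYQ : ∀ A B, Y A → Q B → P (A ∪ B)) (hYP : ∀ A B, Y A → P B → P (A ∪ B)) :
    2 ^ N.card * (l * cnt N (fun A => Q A ∧ ¬ P A)) ≤ L N Q P := by
  have hall : ∀ D : Finset α → Prop, (∀ A, D A → ¬ Up Y A) →
      l * cnt N D ≤ edges N D := by
    intro D hD
    refine edges_ge h N Subset.rfl D ?_ hD
    intro t ht
    rw [sdiff_self] at ht
    exact absurd ht (notMem_empty t)
  have h1 := zed_of_edges hl hall N Subset.rfl (fun A => Q A ∨ P A) P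
    (by intro t ht; rw [sdiff_self] at ht; exact absurd ht (notMem_empty t))
    (by intro t ht; rw [sdiff_self] at ht; exact absurd ht (notMem_empty t))
    (fun A B hA hB => hB.elim (hPQ A B hA) (hPP A B hA))
    (fun A B hA hB => hB.elim (hYQ A B hA) (hYP A B hA)) (fun A hA => Or.inr hA)
  have h2 : cnt N (fun A => Q A ∧ ¬ P A) ≤ cnt N (fun A => (Q A ∨ P A) ∧ ¬ P A) :=
    cnt_mono _ _ _ (fun A _ hA => ⟨Or.inl hA.1, hA.2⟩)
  have h3 : L N (fun A => Q A ∨ P A) P ≤ L N Q P := by
    unfold L
    refine sum_le_sum fun W _ => sum_le_sum fun E _ => sum_le_sum fun k _ => ind_mono ?_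
    rintro ⟨g1, ⟨A, hA, g2, g3⟩, g4, g5⟩
    refine ⟨g1, ⟨A, hA.resolve_right (fun hP => g4 ⟨A, hP, g2⟩), g2, g3⟩, g4, g5⟩
  have h2R : (cnt N (fun A => Q A ∧ ¬ P A) : ℝ) ≤ cnt N (fun A => (Q A ∨ P A) ∧ ¬ P A) := by
    exact_mod_cast h2
  have h3R : (L N (fun A => Q A ∨ P A) P : ℝ) ≤ L N Q P := by exact_mod_cast h3
  have h4 := mul_le_mul_of_nonneg_left h2R (by positivity : (0 : ℝ) ≤ 2 ^ N.card * l)
  nlinarith

/-- Down-sets avoiding an up-set of measure at least `m`, `m ≤ 1 / 3`. -/
theorem iso_of_measure {N : Finset α} {Y : Finset α → Prop} {m : ℝ} (h0 : 0 ≤ m)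
    (h3 : m ≤ 1 / 3) (hY : m * 2 ^ N.card ≤ cnt N (Up Y)) (D : Finset α → Prop)
    (hD : DownIn N D) (hDY : ∀ A, D A → ¬ Up Y A) :
    2 * m / (1 - m) * cnt N D ≤ edges N D := by
  have h1 : cnt N (Up Y) ≤ cnt N (fun A => ¬ D A) :=
    cnt_mono _ _ _ (fun A _ h h' => hDY A h' h)
  have h2 : cnt N D + cnt N (fun A => ¬ D A) = 2 ^ N.card := by
    unfold cnt
    rw [← sum_add_distrib]
    calc ∑ A ∈ N.powerset, (ind (D A) + ind (¬ D A)) = ∑ A ∈ N.powerset, 1 := by
          refine sum_congr rfl fun A _ => ?_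
          by_cases h1 : D A <;> simp [ind, h1]
      _ = 2 ^ N.card := by simp
  have h1R : (cnt N (Up Y) : ℝ) ≤ cnt N (fun A => ¬ D A) := by exact_mod_cast h1
  have h2R : (cnt N D : ℝ) + cnt N (fun A => ¬ D A) = 2 ^ N.card := by exact_mod_cast h2
  have hm : (0 : ℝ) < 1 - m := by linarith
  have hl : 2 * m / (1 - m) ≤ 1 := by rw [div_le_one hm]; linarith
  have hp : 2 ^ (N.card + 1) = 2 * 2 ^ N.card := by ring
  have hD0 : (0 : ℝ) ≤ cnt N D := Nat.cast_nonneg _
  rcases le_or_gt (3 * cnt N D) (2 * 2 ^ N.card) with hs | hs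
  · have h4 := harper N D hD
    have h5 := gs_bound N.card (cnt N D) 0 (by norm_num) (by omega)
    have h6 : cnt N D ≤ edges N D := by omega
    have h6R : (cnt N D : ℝ) ≤ edges N D := by exact_mod_cast h6
    nlinarith
  · have h4 := harper' N D hD
    have h7 : 2 * cnt N (fun A => ¬ D A) ≤ edges N D := by
      rcases Nat.eq_zero_or_pos N.card with h0 | hpos
      · rw [h0] at hs h2 hp
        omega
      · obtain ⟨n, hn⟩ : ∃ n, N.card = n + 1 := ⟨N.card - 1, by omega⟩
        rw [hn] at h4 hs h2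
        have h5 := gs_bound n (cnt N (fun A => ¬ D A)) 0 (by norm_num) (by omega)
        have e : (n + 1) * cnt N (fun A => ¬ D A) =
            n * cnt N (fun A => ¬ D A) + cnt N (fun A => ¬ D A) := by ring
        rw [e] at h4
        omega
    have h7R : 2 * (cnt N (fun A => ¬ D A) : ℝ) ≤ edges N D := by exact_mod_cast h7
    rw [div_mul_eq_mul_div, div_le_iff₀ hm]
    have hpow : (0 : ℝ) < 2 ^ N.card := by positivity
    nlinarith

end Pool.Agent.N188.FC
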