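import Pool.Agent.N188.FC.Sum
import Pool.Agent.N188.LD.Strict

set_option autoImplicit false

/-!
# The local criterion for union-closed families, and families containing half of the subsets of a set
-/

namespace Pool.Agent.N188.FC

open Finset
open scoped Classical

variable {α : Type*} [DecidableEq α]

/-- the sets `Z ⊆ S` which contain a member of `G` containing `x` -/
def covered (S : Finset α) (G : Finset (Finset α)) (x : α) : Finset (Finset α) :=
  S.powerset.filter (fun Z => ∃ B ∈ G, x ∈ B ∧ B ⊆ Z)

theorem covered_le (S : Finset α) (G : Finset (Finset α)) (x : α) :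
    (covered S G x).card ≤ cov S G x := by
  unfold cov
  rw [cnt_eq_card]
  refine card_le_card_of_injOn (fun Z => Z.erase x) ?_ ?_
  · intro Z hZ
    simp only [covered, coe_filter, mem_powerset, Set.mem_ofPred_eq] at hZ
    obtain ⟨h1, B, hB, hxB, hBZ⟩ := hZ
    simp only [coe_filter, mem_powerset, Set.mem_ofPred_eq]
    exact ⟨erase_subset_erase _ h1, B.erase x, by
      show insert x (B.erase x) ∈ G
      rwa [insert_erase hxB], erase_subset_erase _ hBZ⟩
  · intro Z hZ Z' hZ' h
    simp only [covered, coe_filter, mem_powerset, Set.mem_ofPred_eq] at hZ hZ'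
    obtain ⟨_, B, _, hxB, hBZ⟩ := hZ
    obtain ⟨_, B', _, hxB', hBZ'⟩ := hZ'
    have h' : Z.erase x = Z'.erase x := h
    rw [← insert_erase (hBZ hxB), h', insert_erase (hBZ' hxB')]

theorem deg_le_covered {S : Finset α} {G : Finset (Finset α)} (hG : ∀ B ∈ G, B ⊆ S) (x : α) :
    (G.filter (fun B => x ∈ B)).card ≤ (covered S G x).card := by
  refine card_le_card ?_
  intro B hB
  rw [mem_filter] at hB
  exact mem_filter.2 ⟨mem_powerset.2 (hG B hB.1), B, hB.1, hB.2, Subset.rfl⟩

section

variable {F G : Finset (Finset α)} {S : Finset α}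

open Pool.Agent.N188.LD in
/-- The local criterion: the traces on `S` have on average at least `|S| / 2` elements. -/
theorem crit (hF : ∀ A ∈ F, ∀ B ∈ F, A ∪ B ∈ F) (hG : ∀ B ∈ G, B ⊆ S)
    (ha : ∀ A ∈ F, ∀ B ∈ G, A ∪ B ∈ F)
    (hc : ∀ x ∈ S, 2 ^ S.card ≤ 4 * (covered S G x).card) :
    F.card * S.card ≤ 2 * ∑ A ∈ F, (A ∩ S).card := by
  have h := fib_sum F S S.card (fun T => by
    have h1 := avg_crit (S := S) (K := fib F S T) (G := G) (fib_sub T) (fib_union hF T)
      (fib_absorb hG ha T)
      (fun w hw => (hc w hw).trans (Nat.mul_le_mul_left 4 (covered_le S G w)))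
    rw [← mul_sum]
    exact_mod_cast h1)
  rw [← mul_sum] at h
  exact_mod_cast h

open Pool.Agent.N188.LD in
/-- The quantitative form of the local criterion. -/
theorem quant (hF : ∀ A ∈ F, ∀ B ∈ F, A ∪ B ∈ F) (hG : ∀ B ∈ G, B ⊆ S)
    (ha : ∀ A ∈ F, ∀ B ∈ G, A ∪ B ∈ F) (μ : ℝ) (h0 : 0 ≤ μ) (h2 : μ ≤ 1 / 2)
    (hc : ∀ x ∈ S, μ * 2 ^ S.card ≤ 2 * ((covered S G x).card : ℝ)) :
    2 * μ * (F.card * S.card) ≤ (1 + 2 * μ) * ∑ A ∈ F, ((A ∩ S).card : ℝ) := by
  have hpos : (0 : ℝ) < 1 + 2 * μ := by linarith
  have h := fib_sum F S (2 * (2 * μ * S.card) / (1 + 2 * μ)) (fun T => by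
    have h1 := avg_quant (S := S) (K := fib F S T) (G := G) (fib_sub T) (fib_union hF T)
      (fib_absorb hG ha T) μ h2 (fun w hw => (hc w hw).trans (by
        have := covered_le S G w
        have h3 : ((covered S G w).card : ℝ) ≤ cov S G w := by exact_mod_cast this
        linarith))
    rw [← mul_sum, ← mul_div_assoc, div_le_iff₀ hpos]
    nlinarith)
  rw [← mul_sum, ← mul_div_assoc, div_le_iff₀ hpos] at h
  nlinarith

open Pool.Agent.N188.LD in
/-- The strict form of the local criterion. -/
theorem crit_lt (hF : ∀ A ∈ F, ∀ B ∈ F, A ∪ B ∈ F) (hG : ∀ B ∈ G, B ⊆ S)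
    (ha : ∀ A ∈ F, ∀ B ∈ G, A ∪ B ∈ F)
    (hc : ∀ x ∈ S, 2 ^ S.card < 4 * (covered S G x).card) :
    F.card * S.card < 2 * ∑ A ∈ F, (A ∩ S).card ∨
      (∀ A ∈ F, ∀ B, B ⊆ S → A ∪ B ∈ F ∧ A \ B ∈ F) := by
  by_cases hall : ∀ T, (fib F S T).Nonempty → fib F S T = S.powerset
  · right
    intro A hA B hB
    have h1 : A ∩ S ∈ fib F S (A \ S) := mem_fib.2 ⟨A, hA, rfl, rfl⟩
    have h2 := hall (A \ S) ⟨_, h1⟩
    have h3 : ∀ C, C ⊆ S → (A \ S) ∪ C ∈ F := by
      intro C hC
      have h4 : C ∈ fib F S (A \ S) := by rw [h2, mem_powerset]; exact hC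
      rw [mem_fib] at h4
      obtain ⟨A', hA', h5, h6⟩ := h4
      rw [← h5, ← h6, sdiff_union_inter]
      exact hA'
    constructor
    · have h4 := h3 (A ∩ S ∪ B) (union_subset inter_subset_right hB)
      rwa [← union_assoc, sdiff_union_inter] at h4
    · have h4 := h3 ((A ∩ S) \ B) (sdiff_subset.trans inter_subset_right)
      have h5 : A \ S ∪ (A ∩ S) \ B = A \ B := by
        ext y
        rw [mem_union, mem_sdiff, mem_sdiff, mem_inter, mem_sdiff]
        constructor
        · rintro (⟨h6, h7⟩ | ⟨⟨h6, _⟩, h7⟩)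
          · exact ⟨h6, fun h => h7 (hB h)⟩
          · exact ⟨h6, h7⟩
        · rintro ⟨h6, h7⟩
          by_cases hyS : y ∈ S
          · right; exact ⟨⟨h6, hyS⟩, h7⟩
          · left; exact ⟨h6, hyS⟩
      rwa [h5] at h4
  · left
    push Not at hall
    obtain ⟨T, hT1, hT2⟩ := hall
    have hc' : ∀ w ∈ S, 2 ^ S.card < 4 * cov S G w :=
      fun w hw => (hc w hw).trans_le (Nat.mul_le_mul_left 4 (covered_le S G w))
    have h := fib_sum_lt F S S.card
      (fun T => by
        have h1 := avg_crit (S := S) (K := fib F S T) (G := G) (fib_sub T) (fib_union hF T)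
          (fib_absorb hG ha T) (fun w hw => (hc' w hw).le)
        rw [← mul_sum]
        exact_mod_cast h1)
      ⟨T, by
        have h1 := avg_crit_lt (S := S) (K := fib F S T) (G := G) (fib_sub T) (fib_union hF T)
          (fib_absorb hG ha T) hc' hT1 hT2
        rw [← mul_sum]
        exact_mod_cast h1⟩
    rw [← mul_sum] at h
    exact_mod_cast h

theorem exists_of_avg (hS : S.Nonempty) (h1 : F.card * S.card ≤ 2 * ∑ A ∈ F, (A ∩ S).card) :
    ∃ x ∈ S, F.card ≤ 2 * (F.filter (fun A => x ∈ A)).card := by
  by_contra hcon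
  push Not at hcon
  have h2 : ∑ x ∈ S, 2 * (F.filter (fun A => x ∈ A)).card < ∑ x ∈ S, F.card :=
    sum_lt_sum_of_nonempty hS hcon
  rw [← mul_sum, Pool.Agent.N188.LD.sum_freq, sum_const, smul_eq_mul, mul_comm S.card] at h2
  omega

theorem exists_of_avg_lt (h1 : F.card * S.card < 2 * ∑ A ∈ F, (A ∩ S).card) :
    ∃ x ∈ S, F.card < 2 * (F.filter (fun A => x ∈ A)).card := by
  by_contra hcon
  push Not at hcon
  have h2 : ∑ x ∈ S, 2 * (F.filter (fun A => x ∈ A)).card ≤ ∑ x ∈ S, F.card :=
    sum_le_sum hcon
  rw [← mul_sum, Pool.Agent.N188.LD.sum_freq, sum_const, smul_eq_mul, mul_comm S.card] at h2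
  omega

theorem split_card (G : Finset (Finset α)) (w : α) :
    (G.filter (fun B => w ∈ B)).card + (G.filter (fun B => w ∉ B)).card = G.card :=
  card_filter_add_card_filter_not (s := G) (fun B => w ∈ B)

theorem sub_erase {G : Finset (Finset α)} {S : Finset α} (hG : ∀ B ∈ G, B ⊆ S) (w : α) :
    ∀ B ∈ G.filter (fun B => w ∉ B), B ⊆ S.erase w := by
  intro B hB
  rw [mem_filter] at hB
  exact subset_erase.2 ⟨hG B hB.1, hB.2⟩

/-- Families containing at least `2 ^ (|S| - 1) - |S| + 1` nonempty subsets of `S`. -/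
theorem density' (hF : ∀ A ∈ F, ∀ B ∈ F, A ∪ B ∈ F) (n : ℕ) :
    ∀ (S : Finset α) (G : Finset (Finset α)), S.card = n + 1 → (∀ B ∈ G, B ⊆ S) →
    (∀ A ∈ F, ∀ B ∈ G, A ∪ B ∈ F) →
    2 ^ S.card + 2 ≤ 2 * S.card + 2 * (G.filter (fun B => B.Nonempty)).card →
    ∃ x ∈ S, F.card ≤ 2 * (F.filter (fun A => x ∈ A)).card := by
  induction n with
  | zero =>
    intro S G hS hG ha hd
    rw [hS] at hd
    obtain ⟨w, rfl⟩ := card_eq_one.1 hS
    have h0 : 0 < (G.filter (fun B => B.Nonempty)).card := by omega
    obtain ⟨B, hB⟩ := card_pos.1 h0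
    rw [mem_filter] at hB
    have hBw : B = {w} := (subset_singleton_iff.1 (hG B hB.1)).resolve_left
      (nonempty_iff_ne_empty.1 hB.2)
    refine exists_of_avg (singleton_nonempty w) (crit hF hG ha ?_)
    intro x hx
    rw [mem_singleton] at hx
    subst hx
    have h1 := deg_le_covered hG x
    have h2 : 0 < (G.filter (fun B => x ∈ B)).card :=
      card_pos.2 ⟨B, mem_filter.2 ⟨hB.1, by rw [hBw]; simp⟩⟩
    simp only [card_singleton]
    omega
  | succ n ih =>
    intro S G hS hG ha hd
    by_cases hall : ∀ w ∈ S, 2 ^ S.card ≤ 4 * (G.filter (fun B => w ∈ B)).card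
    · refine exists_of_avg (card_pos.1 (by omega)) (crit hF hG ha ?_)
      intro x hx
      exact (hall x hx).trans (Nat.mul_le_mul_left 4 (deg_le_covered hG x))
    · push Not at hall
      obtain ⟨w, hw, hlt⟩ := hall
      have hce : (S.erase w).card = n + 1 := by rw [card_erase_of_mem hw]; omega
      have hp : 2 ^ S.card = 2 * 2 ^ (S.erase w).card := by rw [hce, hS, pow_succ]; ring
      have hq : 2 ^ (S.erase w).card = 2 * 2 ^ n := by rw [hce, pow_succ]; ring
      have hsc : (G.filter (fun B => w ∈ B)).card +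
          ((G.filter (fun B => w ∉ B)).filter (fun B => B.Nonempty)).card =
          (G.filter (fun B => B.Nonempty)).card := by
        rw [← split_card (G.filter (fun B => B.Nonempty)) w]
        congr 1
        · congr 1
          ext B
          simp only [mem_filter]
          constructor
          · rintro ⟨h1, h2⟩; exact ⟨⟨h1, ⟨w, h2⟩⟩, h2⟩
          · rintro ⟨⟨h1, _⟩, h2⟩; exact ⟨h1, h2⟩
        · congr 1
          ext B
          simp only [mem_filter]
          tauto
      obtain ⟨x, hx, hxF⟩ := ih (S.erase w) (G.filter (fun B => w ∉ B)) hce (sub_erase hG w)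
        (fun A hA B hB => ha A hA B (mem_filter.1 hB).1) (by omega)
      exact ⟨x, mem_of_mem_erase hx, hxF⟩

/-- Families containing at least half of the subsets of `S`. -/
theorem density (hF : ∀ A ∈ F, ∀ B ∈ F, A ∪ B ∈ F) (n : ℕ) :
    ∀ (S : Finset α) (G : Finset (Finset α)), S.card = n → (∀ B ∈ G, B ⊆ S) →
    (∀ A ∈ F, ∀ B ∈ G, A ∪ B ∈ F) → 2 ^ S.card ≤ 2 * G.card → (∃ B ∈ G, B.Nonempty) →
    ∃ x ∈ S, F.card ≤ 2 * (F.filter (fun A => x ∈ A)).card := by
  induction n with
  | zero =>
    intro S G hS hG _ _ hne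
    obtain ⟨B, hB, hBne⟩ := hne
    rw [card_eq_zero] at hS
    subst hS
    rw [subset_empty.1 (hG B hB)] at hBne
    exact absurd hBne (by simp)
  | succ n ih =>
    intro S G hS hG ha hd hne
    by_cases hall : ∀ w ∈ S, 2 ^ S.card ≤ 4 * (G.filter (fun B => w ∈ B)).card
    · refine exists_of_avg (card_pos.1 (by omega)) (crit hF hG ha ?_)
      intro x hx
      exact (hall x hx).trans (Nat.mul_le_mul_left 4 (deg_le_covered hG x))
    · push Not at hall
      obtain ⟨w, hw, hlt⟩ := hall
      have hsc := split_card G w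
      have hce : (S.erase w).card = n := by rw [card_erase_of_mem hw]; omega
      have hp : 2 ^ S.card = 2 * 2 ^ (S.erase w).card := by rw [hce, hS, pow_succ]; ring
      have hd' : 2 ^ (S.erase w).card < 2 * (G.filter (fun B => w ∉ B)).card := by omega
      have hne' : ∃ B ∈ G.filter (fun B => w ∉ B), B.Nonempty := by
        by_contra hcon
        push Not at hcon
        have h1 : G.filter (fun B => w ∉ B) ⊆ {∅} := by
          intro B hB
          rw [mem_singleton]
          exact not_nonempty_iff_eq_empty.1 (by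
            have := hcon B hB
            simpa using this)
        have h2 := card_le_card h1
        rw [card_singleton] at h2
        have h3 : (S.erase w).card = 0 := by
          by_contra h4
          have : 2 ^ 1 ≤ 2 ^ (S.erase w).card := Nat.pow_le_pow_right (by norm_num) (by omega)
          omega
        obtain ⟨B, hB, hBne⟩ := hne
        have hwB : w ∈ B := by
          by_contra h
          have := h1 (mem_filter.2 ⟨hB, h⟩)
          rw [mem_singleton] at this
          rw [this] at hBne
          exact absurd hBne (by simp)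
        have h5 : 0 < (G.filter (fun B => w ∈ B)).card :=
          card_pos.2 ⟨B, mem_filter.2 ⟨hB, hwB⟩⟩
        rw [h3] at hp
        omega
      obtain ⟨x, hx, hxF⟩ := ih (S.erase w) (G.filter (fun B => w ∉ B)) hce (sub_erase hG w)
        (fun A hA B hB => ha A hA B (mem_filter.1 hB).1) hd'.le hne'
      exact ⟨x, mem_of_mem_erase hx, hxF⟩

/-- Families containing more than half of the subsets of `S`, strict form. -/
theorem density_lt (hF : ∀ A ∈ F, ∀ B ∈ F, A ∪ B ∈ F) (n : ℕ) :
    ∀ (S : Finset α) (G : Finset (Finset α)), S.card = n → (∀ B ∈ G, B ⊆ S) →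
    (∀ A ∈ F, ∀ B ∈ G, A ∪ B ∈ F) → 2 ^ S.card < 2 * G.card →
    (∃ x ∈ S, F.card < 2 * (F.filter (fun A => x ∈ A)).card) ∨
      (∀ A ∈ F, ∀ B, B ⊆ S → A ∪ B ∈ F ∧ A \ B ∈ F) := by
  induction n with
  | zero =>
    intro S G hS _ _ _
    rw [card_eq_zero] at hS
    subst hS
    right
    intro A hA B hB
    rw [subset_empty.1 hB]
    simpa using hA
  | succ n ih =>
    intro S G hS hG ha hd
    by_cases hall : ∀ w ∈ S, 2 ^ S.card < 4 * (G.filter (fun B => w ∈ B)).card
    · rcases crit_lt hF hG ha (fun x hx =>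
        (hall x hx).trans_le (Nat.mul_le_mul_left 4 (deg_le_covered hG x))) with h | h
      · exact Or.inl (exists_of_avg_lt h)
      · exact Or.inr h
    · push Not at hall
      obtain ⟨w, hw, hlt⟩ := hall
      have hsc := split_card G w
      have hce : (S.erase w).card = n := by rw [card_erase_of_mem hw]; omega
      have hp : 2 ^ S.card = 2 * 2 ^ (S.erase w).card := by rw [hce, hS, pow_succ]; ring
      have hd' : 2 ^ (S.erase w).card < 2 * (G.filter (fun B => w ∉ B)).card := by omega
      rcases ih (S.erase w) (G.filter (fun B => w ∉ B)) hce (sub_erase hG w)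
        (fun A hA B hB => ha A hA B (mem_filter.1 hB).1) hd' with ⟨x, hx, hxF⟩ | hfree
      · exact Or.inl ⟨x, mem_of_mem_erase hx, hxF⟩
      · have hle : (G.filter (fun B => w ∉ B)).card ≤ 2 ^ (S.erase w).card := by
          rw [← card_powerset]
          exact card_le_card fun B hB => mem_powerset.2 (sub_erase hG w B hB)
        have hpos : 0 < (G.filter (fun B => w ∈ B)).card := by omega
        obtain ⟨B₀, hB₀⟩ := card_pos.1 hpos
        rw [mem_filter] at hB₀
        have hins : ∀ A ∈ F, insert w A ∈ F := by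
          intro A hA
          have h1 := ha A hA B₀ hB₀.1
          have h2 := (hfree _ h1 ((B₀ \ A).erase w) (by
            intro x hx
            rw [mem_erase, mem_sdiff] at hx
            exact mem_erase.2 ⟨hx.1, hG B₀ hB₀.1 hx.2.1⟩)).2
          have h3 : (A ∪ B₀) \ ((B₀ \ A).erase w) = insert w A := by
            ext x
            simp only [mem_sdiff, mem_union, mem_erase, mem_insert]
            constructor
            · rintro ⟨h4 | h4, h5⟩
              · exact Or.inr h4
              · by_cases hx : x = w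
                · exact Or.inl hx
                · right; by_contra h6; exact h5 ⟨hx, h4, h6⟩
            · rintro (rfl | h4)
              · exact ⟨Or.inr hB₀.2, fun h => h.1 rfl⟩
              · exact ⟨Or.inl h4, fun h => h.2.2 h4⟩
          rwa [h3] at h2
        by_cases hdel : ∀ A ∈ F, A.erase w ∈ F
        · right
          intro A hA B hB
          have hBw : B.erase w ⊆ S.erase w := erase_subset_erase _ hB
          constructor
          · by_cases hwB : w ∈ B
            · have h1 := hins _ (hfree A hA _ hBw).1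
              rwa [← union_insert, insert_erase hwB] at h1
            · rw [erase_eq_of_notMem hwB] at hBw
              exact (hfree A hA _ hBw).1
          · by_cases hwB : w ∈ B
            · have h1 := hdel _ (hfree A hA _ hBw).2
              rwa [← sdiff_insert, insert_erase hwB] at h1
            · rw [erase_eq_of_notMem hwB] at hBw
              exact (hfree A hA _ hBw).2
        · left
          push Not at hdel
          obtain ⟨C, hC, hC'⟩ := hdel
          refine ⟨w, hw, ?_⟩
          have hwC : w ∈ C := by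
            by_contra h; rw [erase_eq_of_notMem h] at hC'; exact hC' hC
          have hsF := split_card F w
          have himg : (F.filter (fun A => w ∉ A)).image (insert w) ⊂ F.filter (fun A => w ∈ A) := by
            refine (ssubset_iff_of_subset ?_).2 ⟨C, mem_filter.2 ⟨hC, hwC⟩, ?_⟩
            · intro A hA
              rw [mem_image] at hA
              obtain ⟨A', hA', rfl⟩ := hA
              exact mem_filter.2 ⟨hins _ (mem_filter.1 hA').1, mem_insert_self _ _⟩
            · intro h
              rw [mem_image] at h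
              obtain ⟨A', hA', rfl⟩ := h
              rw [mem_filter] at hA'
              rw [erase_insert hA'.2] at hC'
              exact hC' hA'.1
          have hlt' := card_lt_card himg
          rw [card_image_of_injOn] at hlt'
          · omega
          · intro A hA A' hA' h
            rw [mem_coe, mem_filter] at hA hA'
            have h' : insert w A = insert w A' := h
            rw [← erase_insert hA.2, h', erase_insert hA'.2]

end

end Pool.Agent.N188.FC
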