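import Pool.Agent.N188.FC.Char

set_option autoImplicit false

/-!
# The strict form of the weighted criterion
-/

namespace Pool.Agent.N188.FC

open Finset
open scoped Classical

section

variable {α : Type*} [DecidableEq α] {K : Finset (Finset α)} {S : Finset α} {c : α → ℝ}

theorem all_of_zero (hK : ∀ A ∈ K, A ⊆ S) (hne : K.Nonempty) (hD : ∀ w ∈ S, D S K w = 0)
    (hU0 : ∀ w ∈ S, Uw S K w = 0) : K = S.powerset := by
  have hadd : ∀ w ∈ S, ∀ A ∈ K, insert w A ∈ K := by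
    intro w hw A hA
    by_contra hcon
    have hwA : w ∉ A := fun h => hcon (by rwa [insert_eq_of_mem h])
    have h5 := hD w hw
    unfold D cnt at h5
    rw [sum_eq_zero_iff] at h5
    have := h5 A (mem_powerset.2 (subset_erase.2 ⟨hK A hA, hwA⟩))
    unfold ind at this
    simp [hA, hcon] at this
  have hdel : ∀ w, ∀ A ∈ K, A.erase w ∈ K := by
    intro w A hA
    by_contra hcon
    have hwA : w ∈ A := by
      by_contra h; rw [erase_eq_of_notMem h] at hcon; exact hcon hA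
    have h5 := hU0 w (hK A hA hwA)
    unfold Uw at h5
    rw [sum_eq_zero_iff] at h5
    have h6 := h5 (A.erase w) (mem_powerset.2 ((erase_subset _ _).trans (hK A hA)))
    unfold ind at h6
    rw [insert_erase hwA] at h6
    simp [hA, hcon] at h6
  obtain ⟨A, hA⟩ := hne
  have hun : ∀ X, X ⊆ S → A ∪ X ∈ K := by
    intro X
    induction X using Finset.induction_on with
    | empty => intro _; simpa using hA
    | insert x X _ ih =>
      intro hX
      have := hadd x (hX (mem_insert_self _ _)) _ (ih ((subset_insert _ _).trans hX))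
      rwa [← union_insert] at this
  have hsd : ∀ Y B, B ∈ K → B \ Y ∈ K := by
    intro Y
    induction Y using Finset.induction_on with
    | empty => intro B hB; simpa using hB
    | insert y Y _ ih =>
      intro B hB
      have := hdel y _ (ih B hB)
      rwa [← sdiff_insert] at this
  apply Subset.antisymm
  · intro B hB
    exact mem_powerset.2 (hK B hB)
  · intro B hB
    rw [mem_powerset] at hB
    have h1 := hsd (S \ B) _ (hun S Subset.rfl)
    have h2 : (A ∪ S) \ (S \ B) = B := by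
      ext z
      simp only [mem_sdiff, mem_union]
      constructor
      · rintro ⟨h3 | h3, h4⟩
        · by_contra h5
          exact h4 ⟨hK A hA h3, h5⟩
        · by_contra h5
          exact h4 ⟨h3, h5⟩
      · intro h3
        exact ⟨Or.inr (hB h3), fun h4 => h4.2 h3⟩
    rwa [h2] at h1

theorem avg_w_lt {G : Finset (Finset α)} {l : ℝ} (hc0 : ∀ x, 0 ≤ c x) (hcS : ∀ x ∈ S, 0 < c x)
    (hl : 1 < l) (hK : ∀ A ∈ K, A ⊆ S)
    (hU : ∀ A ∈ K, ∀ B ∈ K, A ∪ B ∈ K) (ha : ∀ A ∈ K, ∀ B ∈ G, A ∪ B ∈ K)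
    (hc : ∀ w ∈ S, IsoW S G c l w) :
    0 ≤ ∑ A ∈ K, (2 * ∑ x ∈ A, c x - ∑ x ∈ S, c x) ∧
    (K.Nonempty → K ≠ S.powerset → 0 < ∑ A ∈ K, (2 * ∑ x ∈ A, c x - ∑ x ∈ S, c x)) := by
  have e3 := boundary_w hc0 (by linarith) hU ha hc
  have e4 : ∑ w ∈ S, c w * ((K.card : ℝ) + Uw S K w) =
      ∑ w ∈ S, c w * (2 * ((K.filter (fun A => w ∈ A)).card : ℝ) + D S K w) := by
    refine sum_congr rfl fun w hw => ?_
    congr 1
    exact_mod_cast balance_pt hK hw
  have e6 : ∑ A ∈ K, ∑ x ∈ A, c x = ∑ w ∈ S, c w * ((K.filter (fun A => w ∈ A)).card : ℝ) := by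
    have h7 : ∀ A ∈ K, ∑ x ∈ A, c x = ∑ w ∈ S, if w ∈ A then c w else 0 := by
      intro A hA
      rw [← sum_filter, filter_mem_eq_inter, inter_eq_right.2 (hK A hA)]
    rw [sum_congr rfl h7, sum_comm]
    refine sum_congr rfl fun w _ => ?_
    rw [← sum_filter, sum_const, nsmul_eq_mul, mul_comm]
  have e7 : ∑ w ∈ S, c w * (K.card : ℝ) = K.card * ∑ x ∈ S, c x := by
    rw [← sum_mul, mul_comm]
  have e8 : ∑ A ∈ K, (2 * ∑ x ∈ A, c x - ∑ x ∈ S, c x) =
      ∑ w ∈ S, c w * (Uw S K w : ℝ) - ∑ w ∈ S, c w * (D S K w : ℝ) := by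
    rw [sum_sub_distrib, ← mul_sum, sum_const, nsmul_eq_mul, e6]
    simp only [mul_add, sum_add_distrib, mul_left_comm _ (2 : ℝ), ← mul_sum] at e4
    rw [e7] at e4
    linarith
  have hD0 : 0 ≤ ∑ w ∈ S, c w * (D S K w : ℝ) :=
    sum_nonneg fun w _ => mul_nonneg (hc0 w) (Nat.cast_nonneg _)
  rw [e8]
  refine ⟨by nlinarith, fun hne hnp => ?_⟩
  rcases hD0.eq_or_lt with h0 | h0
  · rw [← h0, sub_zero]
    have hD : ∀ w ∈ S, D S K w = 0 := by
      intro w hw
      have h1 := (sum_eq_zero_iff_of_nonneg (fun w _ => mul_nonneg (hc0 w)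
        (Nat.cast_nonneg (D S K w)))).1 h0.symm w hw
      rcases mul_eq_zero.1 h1 with h2 | h2
      · exact absurd h2 (hcS w hw).ne'
      · exact_mod_cast h2
    by_contra hcon
    push Not at hcon
    have hU0 : ∀ w ∈ S, Uw S K w = 0 := by
      intro w hw
      have h1 := (sum_eq_zero_iff_of_nonneg (fun w _ => mul_nonneg (hc0 w)
        (Nat.cast_nonneg (Uw S K w)))).1 (le_antisymm hcon
          (sum_nonneg fun w _ => mul_nonneg (hc0 w) (Nat.cast_nonneg _))) w hw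
      rcases mul_eq_zero.1 h1 with h2 | h2
      · exact absurd h2 (hcS w hw).ne'
      · exact_mod_cast h2
    exact hnp (all_of_zero hK hne hD hU0)
  · nlinarith

end

section

variable {α : Type*} [DecidableEq α] {F G : Finset (Finset α)} {S : Finset α} {c : α → ℝ}

open Pool.Agent.N188.LD in
theorem fib_pos (F : Finset (Finset α)) (S : Finset α) (φ : Finset α → ℝ)
    (h : ∀ T, 0 ≤ ∑ A ∈ fib F S T, φ A) (h2 : ∃ T, 0 < ∑ A ∈ fib F S T, φ A) :
    0 < ∑ A ∈ F, φ (A ∩ S) := by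
  have hm : ∀ A ∈ F, (fun A => A \ S) A ∈ F.image (fun A => A \ S) :=
    fun A hA => mem_image_of_mem _ hA
  have h3 : ∀ T, ∑ A ∈ fib F S T, φ A = ∑ A ∈ F.filter (fun A => A \ S = T), φ (A ∩ S) := by
    intro T
    unfold fib
    rw [sum_image (fib_inj F S T)]
  rw [← sum_fiberwise_of_maps_to hm]
  obtain ⟨T, hT⟩ := h2
  refine sum_pos' (fun T _ => by have := h T; rwa [h3] at this) ⟨T, ?_, by rwa [h3] at hT⟩
  rw [h3] at hT
  have hne : (F.filter (fun A => A \ S = T)).Nonempty := by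
    by_contra hno
    rw [not_nonempty_iff_eq_empty] at hno
    rw [hno, sum_empty] at hT
    exact lt_irrefl _ hT
  obtain ⟨A, hA⟩ := hne
  rw [mem_filter] at hA
  rw [mem_image]
  exact ⟨A, hA⟩

open Pool.Agent.N188.LD in
/-- The strict weighted criterion. -/
theorem crit_w_lt (hF : ∀ A ∈ F, ∀ B ∈ F, A ∪ B ∈ F) (hG : ∀ B ∈ G, B ⊆ S)
    (ha : ∀ A ∈ F, ∀ B ∈ G, A ∪ B ∈ F) {l : ℝ} (hc0 : ∀ x, 0 ≤ c x) (hcS : ∀ x ∈ S, 0 < c x)
    (hl : 1 < l) (hc : ∀ w ∈ S, IsoW S G c l w) :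
    (F.card * ∑ x ∈ S, c x < 2 * ∑ A ∈ F, ∑ x ∈ A ∩ S, c x) ∨
      (∀ A ∈ F, ∀ B, B ⊆ S → A ∪ B ∈ F ∧ A \ B ∈ F) := by
  by_cases hall : ∀ T, (fib F S T).Nonempty → fib F S T = S.powerset
  · right
    intro A hA B hB
    have h1 : A ∩ S ∈ fib F S (A \ S) := mem_fib.2 ⟨A, hA, rfl, rfl⟩
    have h2 := hall (A \ S) ⟨_, h1⟩
    have h3 : ∀ C, C ⊆ S → (A \ S) ∪ C ∈ F := by
      intro C hC
      have h4 : C ∈ fib F S (A \ S) := by rw [h2, mem_powerset]; exact hC
      rw [mem_fib] at h4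
      obtain ⟨A', hA', h5, h6⟩ := h4
      rw [← h5, ← h6, sdiff_union_inter]
      exact hA'
    constructor
    · have h4 := h3 (A ∩ S ∪ B) (union_subset inter_subset_right hB)
      rwa [← union_assoc, sdiff_union_inter] at h4
    · have h4 := h3 ((A ∩ S) \ B) (sdiff_subset.trans inter_subset_right)
      have h5 : A \ S ∪ (A ∩ S) \ B = A \ B := by
        ext y
        rw [mem_union, mem_sdiff, mem_sdiff, mem_inter, mem_sdiff]
        constructor
        · rintro (⟨h6, h7⟩ | ⟨⟨h6, _⟩, h7⟩)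
          · exact ⟨h6, fun h => h7 (hB h)⟩
          · exact ⟨h6, h7⟩
        · rintro ⟨h6, h7⟩
          by_cases hyS : y ∈ S
          · right; exact ⟨⟨h6, hyS⟩, h7⟩
          · left; exact ⟨h6, hyS⟩
      rwa [h5] at h4
  · left
    push Not at hall
    obtain ⟨T, hT1, hT2⟩ := hall
    have h := fib_pos F S (fun A => 2 * ∑ x ∈ A, c x - ∑ x ∈ S, c x)
      (fun T => (avg_w_lt (S := S) (K := fib F S T) (G := G) hc0 hcS hl (fib_sub T)
        (fib_union hF T) (fib_absorb hG ha T) hc).1)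
      ⟨T, (avg_w_lt (S := S) (K := fib F S T) (G := G) hc0 hcS hl (fib_sub T)
        (fib_union hF T) (fib_absorb hG ha T) hc).2 hT1 hT2⟩
    rw [sum_sub_distrib, ← mul_sum, sum_const, nsmul_eq_mul] at h
    linarith

/-- The strict criterion in terms of families. -/
theorem strict_of_weights (hF : ∀ A ∈ F, ∀ B ∈ F, A ∪ B ∈ F) (hG : ∀ B ∈ G, B ⊆ S)
    (ha : ∀ A ∈ F, ∀ B ∈ G, A ∪ B ∈ F) (hc0 : ∀ x, 0 ≤ c x) (hcS : ∀ x ∈ S, 0 < c x)
    (hc : ∀ x ∈ S, ∀ 𝒟 : Finset (Finset α), Valid S G x 𝒟 → 𝒟.Nonempty → c x * 𝒟.card <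
      ∑ D ∈ 𝒟, ∑ k ∈ (S.erase x).filter (fun k => k ∉ D ∧ insert k D ∉ 𝒟), c k) :
    (F.card * ∑ x ∈ S, c x < 2 * ∑ A ∈ F, ∑ x ∈ A ∩ S, c x) ∨
      (∀ A ∈ F, ∀ B, B ⊆ S → A ∪ B ∈ F ∧ A \ B ∈ F) := by
  obtain ⟨l, hl, hcl⟩ : ∃ l : ℝ, 1 < l ∧ ∀ x ∈ S, ∀ 𝒟 : Finset (Finset α), Valid S G x 𝒟 →
      l * c x * 𝒟.card ≤
        ∑ D ∈ 𝒟, ∑ k ∈ (S.erase x).filter (fun k => k ∉ D ∧ insert k D ∉ 𝒟), c k := by
    set P := (Pairs S G).filter (fun p => p.2.Nonempty) with hP
    have hmem : ∀ {x : α} {𝒟 : Finset (Finset α)}, x ∈ S → Valid S G x 𝒟 → 𝒟.Nonempty →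
        (x, 𝒟) ∈ P := by
      intro x 𝒟 hx hv hne
      rw [hP, mem_filter]
      exact ⟨mem_Pairs.2 ⟨hx, hv⟩, hne⟩
    have hemp : ∀ (l : ℝ) (x : α) (𝒟 : Finset (Finset α)), ¬ 𝒟.Nonempty →
        l * c x * 𝒟.card ≤
        ∑ D ∈ 𝒟, ∑ k ∈ (S.erase x).filter (fun k => k ∉ D ∧ insert k D ∉ 𝒟), c k := by
      intro l x 𝒟 hne
      rw [not_nonempty_iff_eq_empty] at hne
      subst hne
      simp
    by_cases hPne : P.Nonempty
    · obtain ⟨p0, hp0, hmin⟩ := exists_min_image P (fun p => (∑ D ∈ p.2,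
        ∑ k ∈ (S.erase p.1).filter (fun k => k ∉ D ∧ insert k D ∉ p.2), c k) /
          (c p.1 * p.2.card)) hPne
      have hpos : ∀ p ∈ P, 0 < c p.1 * (p.2.card : ℝ) := by
        intro p hp
        rw [hP, mem_filter] at hp
        have h1 := mem_Pairs.1 hp.1
        have h2 := hp.2.card_pos
        exact mul_pos (hcS _ h1.1) (by exact_mod_cast h2)
      refine ⟨(∑ D ∈ p0.2, ∑ k ∈ (S.erase p0.1).filter (fun k => k ∉ D ∧ insert k D ∉ p0.2), c k) /
          (c p0.1 * p0.2.card), ?_, fun x hx 𝒟 hv => ?_⟩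
      · rw [one_lt_div (hpos p0 hp0)]
        have h1 := hp0
        rw [hP, mem_filter] at h1
        have h2 := mem_Pairs.1 h1.1
        exact hc _ h2.1 _ h2.2 h1.2
      · by_cases hne : 𝒟.Nonempty
        · have h1 := hmin (x, 𝒟) (hmem hx hv hne)
          have h2 := hpos (x, 𝒟) (hmem hx hv hne)
          simp only at h1 h2
          rw [mul_assoc]
          rwa [le_div_iff₀ h2] at h1
        · exact hemp _ x 𝒟 hne
    · refine ⟨2, by norm_num, fun x hx 𝒟 hv => ?_⟩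
      by_cases hne : 𝒟.Nonempty
      · exact absurd ⟨_, hmem hx hv hne⟩ hPne
      · exact hemp _ x 𝒟 hne
  exact crit_w_lt hF hG ha hc0 hcS hl (fun x hx =>
    isoW_of hc0 (fun 𝒟 h1 h2 h3 => hcl x hx 𝒟 ⟨h1, h2, h3⟩))

theorem exists_of_strict {c : α → ℝ} (hc0 : ∀ x, 0 ≤ c x)
    (h : F.card * ∑ x ∈ S, c x < 2 * ∑ A ∈ F, ∑ x ∈ A ∩ S, c x) :
    ∃ x ∈ S, F.card < 2 * (F.filter (fun A => x ∈ A)).card := by
  by_contra hno
  push Not at hno
  have h2 : ∑ A ∈ F, ∑ x ∈ A ∩ S, c x = ∑ x ∈ S, c x * ((F.filter (fun A => x ∈ A)).card : ℝ) := by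
    have h3 : ∀ A ∈ F, ∑ x ∈ A ∩ S, c x = ∑ x ∈ S, if x ∈ A then c x else 0 := by
      intro A _
      rw [← sum_filter, filter_mem_eq_inter, inter_comm]
    rw [sum_congr rfl h3, sum_comm]
    refine sum_congr rfl fun x _ => ?_
    rw [← sum_filter, sum_const, nsmul_eq_mul, mul_comm]
  rw [h2, mul_sum, mul_sum] at h
  have h4 : ∑ x ∈ S, 2 * (c x * ((F.filter (fun A => x ∈ A)).card : ℝ)) ≤
      ∑ x ∈ S, (F.card : ℝ) * c x := by
    refine sum_le_sum fun x hx => ?_
    have h5 : (2 * (F.filter (fun A => x ∈ A)).card : ℝ) ≤ F.card := by exact_mod_cast hno x hx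
    nlinarith [hc0 x]
  linarith

theorem small_members_lt {𝒟 : Finset (Finset α)} {N : Finset α} {q : ℕ} (hN : ∀ D ∈ 𝒟, D ⊆ N) (hD : ∀ D ∈ 𝒟, ∀ D' ⊆ D, D' ∈ 𝒟)
    (hq : ∀ D ∈ 𝒟, D.card < q)
    (hc : ∑ i ∈ range q, (N.card).choose i < q * (N.card).choose q) (hne : 𝒟.Nonempty) :
    𝒟.card < ∑ E ∈ 𝒟, (N.filter (fun k => k ∉ E ∧ insert k E ∉ 𝒟)).card := by
  set m := N.card with hm
  set a : ℕ → ℕ := fun i => (𝒟.filter (fun E => E.card = i)).card with ha
  set b : ℕ → ℝ := fun i => a i / m.choose i with hb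
  have ha0 : ∀ i, m < i → a i = 0 := by
    intro i hi
    rw [ha]
    simp only [card_eq_zero, filter_eq_empty_iff]
    intro E hE h
    have := card_le_card (hN E hE)
    omega
  have hab : ∀ i, (a i : ℝ) = b i * m.choose i := by
    intro i
    rcases le_or_gt i m with h | h
    · have : (m.choose i : ℝ) ≠ 0 := by
        have := Nat.choose_pos h
        positivity
      rw [hb]
      field_simp
    · rw [ha0 i h, Nat.choose_eq_zero_of_lt h]
      simp
  have hanti : Antitone b := by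
    refine antitone_nat_of_succ_le fun i => ?_
    rcases le_or_gt (i + 1) m with h | h
    · have h1 : (0 : ℝ) < m.choose i := by
        have := Nat.choose_pos (show i ≤ m by omega)
        exact_mod_cast this
      have h2 : (0 : ℝ) < m.choose (i + 1) := by
        have := Nat.choose_pos h
        exact_mod_cast this
      rw [hb]
      show (a (i + 1) : ℝ) / m.choose (i + 1) ≤ a i / m.choose i
      rw [div_le_div_iff₀ h2 h1]
      have h3 := level_step hN hD i
      have h4 := Nat.choose_succ_right_eq m i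
      have h5 : (i + 1) * (a (i + 1) * m.choose i) ≤ (i + 1) * (a i * m.choose (i + 1)) := by
        calc (i + 1) * (a (i + 1) * m.choose i) = (i + 1) * a (i + 1) * m.choose i := by ring
          _ ≤ (m - i) * a i * m.choose i := Nat.mul_le_mul_right _ h3
          _ = a i * (m.choose i * (m - i)) := by ring
          _ = a i * (m.choose (i + 1) * (i + 1)) := by rw [h4]
          _ = (i + 1) * (a i * m.choose (i + 1)) := by ring
      have h6 := Nat.le_of_mul_le_mul_left h5 (Nat.succ_pos i)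
      exact_mod_cast h6
    · rw [hb]
      show (a (i + 1) : ℝ) / m.choose (i + 1) ≤ a i / m.choose i
      rw [ha0 _ h]
      rw [Nat.cast_zero, zero_div]
      exact div_nonneg (Nat.cast_nonneg _) (Nat.cast_nonneg _)
  have hb0 : ∀ i, 0 ≤ b i := fun i => div_nonneg (Nat.cast_nonneg _) (Nat.cast_nonneg _)
  have h1 := edges_eq hN hD
  have h2 : ∀ f : ℕ → ℝ, ∑ E ∈ 𝒟, f E.card = ∑ i ∈ range q, (a i : ℝ) * f i := by
    intro f
    rw [← sum_fiberwise_of_maps_to (g := fun E : Finset α => E.card)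
      (fun E hE => mem_range.2 (hq E hE))]
    refine sum_congr rfl fun i _ => ?_
    rw [ha]
    rw [← nsmul_eq_mul, ← sum_const]
    refine sum_congr rfl fun E hE => ?_
    rw [(mem_filter.1 hE).2]
  have h3 : ∑ i ∈ range q, b ((m - 1) / 2) * ((m.choose i : ℝ) * (m - 2 * i - 1)) ≤
      ∑ i ∈ range q, (a i : ℝ) * ((m : ℝ) - 2 * i - 1) := by
    refine sum_le_sum fun i _ => ?_
    rw [hab i, mul_assoc]
    rcases le_or_gt (2 * i + 1) m with h | h
    · have h4 : (0 : ℝ) ≤ (m.choose i : ℝ) * (m - 2 * i - 1) := by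
        have : ((2 * i + 1 : ℕ) : ℝ) ≤ m := by exact_mod_cast h
        push_cast at this
        exact mul_nonneg (Nat.cast_nonneg _) (by linarith)
      exact mul_le_mul_of_nonneg_right (hanti (by omega)) h4
    · have h4 : (m.choose i : ℝ) * (m - 2 * i - 1) ≤ 0 := by
        have : (m : ℝ) ≤ ((2 * i + 1 : ℕ) : ℝ) := by exact_mod_cast h.le
        push_cast at this
        exact mul_nonpos_of_nonneg_of_nonpos (Nat.cast_nonneg _) (by linarith)
      exact mul_le_mul_of_nonpos_right (hanti (by omega)) h4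
  have hW : 0 < ∑ i ∈ range q, (m.choose i : ℝ) * (m - 2 * i - 1) := by
    have h5 := choose_sum m q
    have h6 : ∑ i ∈ range q, (m.choose i : ℝ) * (m - 2 * i - 1) =
        ∑ i ∈ range q, (m.choose i : ℝ) * (m - 2 * i) - ∑ i ∈ range q, (m.choose i : ℝ) := by
      rw [← sum_sub_distrib]
      exact sum_congr rfl fun i _ => by ring
    rw [h6, h5]
    have h7 : (∑ i ∈ range q, (m.choose i : ℝ)) < q * m.choose q := by exact_mod_cast hc
    linarith
  have h4 : 0 < ∑ i ∈ range q, (a i : ℝ) * ((m : ℝ) - 2 * i - 1) := by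
    rcases (hb0 ((m - 1) / 2)).eq_or_lt with h0 | h0
    · have hpos : ∀ i, a i ≠ 0 → 0 < (a i : ℝ) * ((m : ℝ) - 2 * i - 1) := by
        intro i hi
        have h5 : i < (m - 1) / 2 := by
          by_contra hno
          push Not at hno
          have h6 := hanti hno
          rw [← h0] at h6
          have h7 := le_antisymm h6 (hb0 i)
          have h8 := hab i
          rw [h7, zero_mul] at h8
          exact hi (by exact_mod_cast h8)
        have h6 : ((2 * i + 1 : ℕ) : ℝ) < m := by exact_mod_cast (show 2 * i + 1 < m by omega)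
        push_cast at h6
        have h7 : (0 : ℝ) < a i := by
          have := Nat.pos_of_ne_zero hi
          exact_mod_cast this
        exact mul_pos h7 (by linarith)
      obtain ⟨E, hE⟩ := hne
      refine sum_pos' (fun i _ => ?_) ⟨E.card, mem_range.2 (hq E hE), hpos _ ?_⟩
      · by_cases hi : a i = 0
        · rw [hi]; simp
        · exact (hpos i hi).le
      · rw [ha]
        simp only [ne_eq, card_eq_zero, filter_eq_empty_iff, not_forall]
        exact ⟨E, hE, by simp⟩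
    · refine lt_of_lt_of_le ?_ h3
      rw [← mul_sum]
      exact mul_pos h0 hW
  have h5 := h2 (fun i => (m : ℝ) - 2 * i - 1)
  rw [← h5] at h4
  have h6 : ∑ E ∈ 𝒟, ((m : ℝ) - 2 * (E.card : ℝ) - 1) =
      𝒟.card * m - 2 * ∑ E ∈ 𝒟, (E.card : ℝ) - 𝒟.card := by
    rw [sum_sub_distrib, sum_sub_distrib, ← mul_sum]
    simp
  rw [h6] at h4
  have h7 : ((∑ E ∈ 𝒟, (N.filter (fun k => k ∉ E ∧ insert k E ∉ 𝒟)).card : ℕ) : ℝ) +
      2 * ∑ E ∈ 𝒟, (E.card : ℝ) = 𝒟.card * m := by exact_mod_cast h1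
  have h8 : (𝒟.card : ℝ) < ((∑ E ∈ 𝒟, (N.filter (fun k => k ∉ E ∧ insert k E ∉ 𝒟)).card : ℕ) : ℝ) := by
    linarith
  exact_mod_cast h8

/-- The strict form for all `k`-subsets. -/
theorem uniform_lt (hF : ∀ A ∈ F, ∀ B ∈ F, A ∪ B ∈ F) (hG : ∀ B ∈ G, B ⊆ S)
    (ha : ∀ A ∈ F, ∀ B ∈ G, A ∪ B ∈ F) {k : ℕ} (hk : ∀ A ⊆ S, A.card = k → A ∈ G)
    (hcond : ∑ i ∈ range (k - 1), (S.card - 1).choose i < (k - 1) * (S.card - 1).choose (k - 1)) :
    (F.card * S.card < 2 * ∑ A ∈ F, (A ∩ S).card) ∨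
      (∀ A ∈ F, ∀ B, B ⊆ S → A ∪ B ∈ F ∧ A \ B ∈ F) := by
  have h1k : 1 ≤ k := by
    rcases Nat.eq_zero_or_pos k with h | h
    · subst h; simp at hcond
    · exact h
  have h := strict_of_weights (G := G) (S := S) (F := F) (c := fun _ => 1) hF hG ha
    (fun _ => zero_le_one) (fun _ _ => zero_lt_one) (by
      intro x hx 𝒟 hv hne
      have h1 : 𝒟.card < ∑ D ∈ 𝒟, ((S.erase x).filter (fun k => k ∉ D ∧ insert k D ∉ 𝒟)).card := by
        refine small_members_lt (q := k - 1) hv.1 hv.2.1 ?_ ?_ hne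
        · intro D hD
          by_contra hno
          push Not at hno
          obtain ⟨B, hB, hBk⟩ := exists_subset_card_eq hno
          have hxD : x ∉ D := fun h => notMem_erase x S (hv.1 D hD h)
          have hxB : x ∉ B := fun h => hxD (hB h)
          refine hv.2.2 D hD (insert x B) (hk _ ?_ ?_) (mem_insert_self _ _)
            (insert_subset_insert _ hB)
          · exact insert_subset hx ((hB.trans (hv.1 D hD)).trans (erase_subset _ _))
          · rw [card_insert_of_notMem hxB, hBk]; omega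
        · rw [card_erase_of_mem hx]; exact hcond
      rw [one_mul]
      simp only [sum_const, nsmul_eq_mul, mul_one]
      exact_mod_cast h1)
  rcases h with h | h
  · left
    simp only [sum_const, nsmul_eq_mul, mul_one] at h
    exact_mod_cast h
  · right; exact h

end

end Pool.Agent.N188.FC
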