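import Pool.Agent.N188.FC.Zed

set_option autoImplicit false

/-!
# Summation of the edge inequality over the elements
-/

namespace Pool.Agent.N188.FC

open Finset
open scoped Classical

variable {α : Type*} [DecidableEq α]

omit [DecidableEq α] in
theorem ind_le_one (p : Prop) : ind p ≤ 1 := by unfold ind; split_ifs <;> simp

omit [DecidableEq α] in
theorem cnt_eq_card (N : Finset α) (R : Finset α → Prop) :
    cnt N R = (N.powerset.filter R).card := by
  unfold cnt ind
  rw [card_filter]

/-- at most half of the sets `W` miss exactly one element of `M` -/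
theorem half_miss {S M : Finset α} (hM : M ⊆ S) :
    2 * ∑ W ∈ S.powerset, ind ((M \ W).card = 1) ≤ 2 ^ S.card := by
  rcases M.eq_empty_or_nonempty with rfl | ⟨t, ht⟩
  · have : ∀ W ∈ S.powerset, ind (((∅ : Finset α) \ W).card = 1) = 0 := by
      intro W _
      simp [ind]
    rw [sum_congr rfl this]
    simp
  · have htS := hM ht
    obtain ⟨N, htN, rfl⟩ : ∃ N, t ∉ N ∧ insert t N = S :=
      ⟨S.erase t, notMem_erase _ _, insert_erase htS⟩
    rw [sum_powerset_insert htN, ← sum_add_distrib, card_insert_of_notMem htN, pow_succ]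
    have h1 : ∑ W ∈ N.powerset, (ind ((M \ W).card = 1) + ind ((M \ insert t W).card = 1)) ≤
        ∑ W ∈ N.powerset, 1 := by
      refine sum_le_sum fun W hW => ?_
      rw [mem_powerset] at hW
      have htW : t ∉ W := fun h => htN (hW h)
      have h2 : M \ W = insert t (M \ insert t W) := by
        ext x
        simp only [mem_sdiff, mem_insert]
        constructor
        · rintro ⟨h, h'⟩
          by_cases hx : x = t
          · exact Or.inl hx
          · exact Or.inr ⟨h, by tauto⟩
        · rintro (rfl | h)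
          · exact ⟨ht, htW⟩
          · tauto
      have h3 : (M \ W).card = (M \ insert t W).card + 1 := by
        rw [h2, card_insert_of_notMem (by simp)]
      rw [h3]
      unfold ind
      split_ifs <;> omega
    rw [sum_const, card_powerset, smul_eq_mul, mul_one] at h1
    omega

/-- the number of edges entering `K` -/
noncomputable def U (S : Finset α) (K : Finset (Finset α)) : ℕ :=
  ∑ X ∈ S.powerset, ∑ k ∈ S, ind (k ∉ X ∧ X ∉ K ∧ insert k X ∈ K)

variable {S : Finset α} {K : Finset (Finset α)}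

theorem erase_sum {w : α} (hw : w ∈ S) (f : Finset α → ℕ) :
    ∑ E ∈ (S.erase w).powerset, f E =
      ∑ X ∈ S.powerset, if w ∈ X then f (X.erase w) else 0 := by
  have hN : w ∉ S.erase w := notMem_erase _ _
  conv_rhs => rw [← insert_erase hw]
  rw [sum_powerset_insert hN]
  have h1 : ∑ t ∈ (S.erase w).powerset, (if w ∈ t then f (t.erase w) else 0) = 0 := by
    refine sum_eq_zero fun t ht => ?_
    rw [mem_powerset] at ht
    rw [if_neg (fun h => hN (ht h))]
  rw [h1, zero_add]
  refine sum_congr rfl fun t ht => ?_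
  rw [mem_powerset] at ht
  rw [if_pos (mem_insert_self _ _), erase_insert (fun h => hN (ht h))]

/-- the counted condition in terms of `X = E ∪ {w}` -/
def T (K : Finset (Finset α)) (X : Finset α) (k w : α) (W : Finset α) : Prop :=
  w ∈ X ∧ w ∉ W ∧ Ed (fun A => A ∈ K) (fun A => insert w A ∈ K) W (X.erase w) k

theorem L_le {w : α} (hw : w ∈ S) :
    L (S.erase w) (fun A => A ∈ K) (fun A => insert w A ∈ K) ≤
      ∑ X ∈ S.powerset, ∑ k ∈ S.erase w, ∑ W ∈ S.powerset, ind (T K X k w W) := by
  unfold L
  calc ∑ W ∈ (S.erase w).powerset, ∑ E ∈ (S.erase w).powerset, ∑ k ∈ S.erase w,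
        ind (Ed (fun A => A ∈ K) (fun A => insert w A ∈ K) W E k)
      = ∑ W ∈ (S.erase w).powerset, ∑ X ∈ S.powerset, (if w ∈ X then ∑ k ∈ S.erase w,
        ind (Ed (fun A => A ∈ K) (fun A => insert w A ∈ K) W (X.erase w) k) else 0) :=
        sum_congr rfl fun W _ => erase_sum hw _
    _ = ∑ W ∈ (S.erase w).powerset, ∑ X ∈ S.powerset, ∑ k ∈ S.erase w, ind (T K X k w W) := by
        refine sum_congr rfl fun W hW => sum_congr rfl fun X _ => ?_
        rw [mem_powerset] at hW
        have hwW : w ∉ W := fun h => notMem_erase w S (hW h)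
        split_ifs with h
        · refine sum_congr rfl fun k _ => ?_
          unfold T
          congr 1
          simp [h, hwW]
        · symm
          refine sum_eq_zero fun k _ => ?_
          unfold ind T
          rw [if_neg (by tauto)]
    _ ≤ ∑ W ∈ S.powerset, ∑ X ∈ S.powerset, ∑ k ∈ S.erase w, ind (T K X k w W) :=
        sum_le_sum_of_subset (powerset_mono.2 (erase_subset _ _))
    _ = _ := by
        rw [sum_comm]
        refine sum_congr rfl fun X _ => ?_
        rw [sum_comm]

theorem T_sum (X : Finset α) (hX : X ⊆ S) (k : α) :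
    2 * ∑ w ∈ S, ∑ W ∈ S.powerset, (if k ∈ S.erase w then ind (T K X k w W) else 0) ≤
      2 ^ S.card * ind (k ∉ X ∧ X ∉ K ∧ insert k X ∈ K) := by
  by_cases hc : k ∉ X ∧ X ∉ K ∧ insert k X ∈ K
  · have h1 : ind (k ∉ X ∧ X ∉ K ∧ insert k X ∈ K) = 1 := by unfold ind; rw [if_pos hc]
    rw [h1, mul_one]
    set M := X \ (K.filter (fun A => A ⊆ X)).sup id with hM
    refine le_trans ?_ (half_miss (S := S) (M := M) (sdiff_subset.trans hX))
    refine Nat.mul_le_mul_left 2 ?_
    rw [sum_comm]
    refine sum_le_sum fun W _ => ?_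
    have key : ∀ w, T K X k w W → M \ W = {w} := by
      rintro w ⟨h2, h3, h4, ⟨A, hA, h5, h6⟩, h7, h8⟩
      have hAh : A ⊆ (K.filter (fun A => A ⊆ X)).sup id :=
        le_sup (f := id) (mem_filter.2 ⟨hA, h5.trans (erase_subset _ _)⟩)
      have hwh : w ∉ (K.filter (fun A => A ⊆ X)).sup id := by
        intro h
        rw [mem_sup] at h
        obtain ⟨B, hB, hwB⟩ := h
        rw [mem_filter] at hB
        simp only [id] at hwB
        exact h7 ⟨B.erase w, by show insert w (B.erase w) ∈ K; rw [insert_erase hwB]; exact hB.1,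
          erase_subset_erase _ hB.2⟩
      ext x
      rw [hM, mem_sdiff, mem_sdiff, mem_singleton]
      constructor
      · rintro ⟨⟨hx1, hx2⟩, hx3⟩
        by_contra hne
        rcases mem_union.1 (h6 (mem_erase.2 ⟨hne, hx1⟩)) with h | h
        · exact hx2 (hAh h)
        · exact hx3 h
      · rintro rfl
        exact ⟨⟨h2, hwh⟩, h3⟩
    by_cases hex : ∃ w ∈ S, T K X k w W
    · obtain ⟨w, hw, hT⟩ := hex
      have h2 := key w hT
      have h3 : ind ((M \ W).card = 1) = 1 := by
        unfold ind; rw [if_pos (by rw [h2, card_singleton])]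
      rw [h3, sum_eq_single w]
      · split_ifs
        · exact ind_le_one _
        · exact Nat.zero_le _
      · intro v _ hv
        have : ¬ T K X k v W := by
          intro h
          have := key v h
          rw [h2] at this
          exact hv (singleton_injective this).symm
        unfold ind
        simp [this]
      · intro h; exact absurd hw h
    · push Not at hex
      have : ∑ w ∈ S, (if k ∈ S.erase w then ind (T K X k w W) else 0) = 0 := by
        refine sum_eq_zero fun w hw => ?_
        unfold ind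
        simp [hex w hw]
      rw [this]
      exact Nat.zero_le _
  · have : ∑ w ∈ S, ∑ W ∈ S.powerset, (if k ∈ S.erase w then ind (T K X k w W) else 0) = 0 := by
      refine sum_eq_zero fun w _ => sum_eq_zero fun W _ => ?_
      have h0 : (k ∈ S.erase w) → ¬ T K X k w W := by
        rintro hk ⟨h2, h3, h4, h5, h7, h8⟩
        apply hc
        have hkw : k ≠ w := ne_of_mem_erase hk
        refine ⟨fun h => h4 (mem_erase.2 ⟨hkw, h⟩), ?_, ?_⟩
        · intro h
          exact h7 ⟨X.erase w, by show insert w (X.erase w) ∈ K; rw [insert_erase h2]; exact h,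
            Subset.rfl⟩
        · have : insert w (insert k (X.erase w)) ∈ K := h8
          rwa [insert_comm, insert_erase h2] at this
      split_ifs with h
      · unfold ind; rw [if_neg (h0 h)]
      · rfl
    rw [this]
    simp

/-- the number of edges leaving `K` in direction `w` -/
noncomputable def D (S : Finset α) (K : Finset (Finset α)) (w : α) : ℕ :=
  cnt (S.erase w) (fun A => A ∈ K ∧ ¬ insert w A ∈ K)

/-- the number of sets `W ⊆ S \ {w}` such that `W ∪ {w}` contains a member of `G` containing `w` -/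
noncomputable def cov (S : Finset α) (G : Finset (Finset α)) (w : α) : ℕ :=
  cnt (S.erase w) (Up (fun B => insert w B ∈ G))

/-- **The inequality between the two boundaries.** -/
theorem boundary_ineq {G : Finset (Finset α)} (hK : ∀ A ∈ K, A ⊆ S)
    (hU : ∀ A ∈ K, ∀ B ∈ K, A ∪ B ∈ K) (ha : ∀ A ∈ K, ∀ B ∈ G, A ∪ B ∈ K) :
    4 * ∑ w ∈ S, cov S G w * D S K w ≤ 2 ^ S.card * U S K := by
  have h1 : ∀ w ∈ S, 2 * (cov S G w * D S K w) ≤
      ∑ X ∈ S.powerset, ∑ k ∈ S.erase w, ∑ W ∈ S.powerset, ind (T K X k w W) := by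
    intro w hw
    refine le_trans ?_ (L_le hw)
    have := zed (S.erase w) (fun A => A ∈ K) (fun A => insert w A ∈ K)
      (fun B => insert w B ∈ G)
      (by
        intro A B hA hB
        have := hU _ hA _ hB
        rwa [insert_union] at this)
      (by
        intro A B hA hB
        have := ha _ hB _ hA
        rwa [union_comm, insert_union] at this)
    unfold cov D
    calc _ = 2 * cnt (S.erase w) (Up (fun B => insert w B ∈ G)) *
          cnt (S.erase w) (fun A => A ∈ K ∧ ¬ insert w A ∈ K) := by ring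
      _ ≤ _ := this
  have h2 : ∀ w ∈ S, ∑ X ∈ S.powerset, ∑ k ∈ S.erase w, ∑ W ∈ S.powerset, ind (T K X k w W) =
      ∑ X ∈ S.powerset, ∑ k ∈ S, ∑ W ∈ S.powerset,
        (if k ∈ S.erase w then ind (T K X k w W) else 0) := by
    intro w hw
    refine sum_congr rfl fun X _ => ?_
    have h3 : ∀ k, ∑ W ∈ S.powerset, (if k ∈ S.erase w then ind (T K X k w W) else 0) =
        if k ∈ S.erase w then ∑ W ∈ S.powerset, ind (T K X k w W) else 0 := by
      intro k; split_ifs <;> simp
    simp_rw [h3]
    rw [← sum_filter]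
    congr 1
    ext k
    simp only [mem_filter, mem_erase]
    tauto
  calc 4 * ∑ w ∈ S, cov S G w * D S K w = 2 * ∑ w ∈ S, 2 * (cov S G w * D S K w) := by
        rw [← mul_sum]; ring
    _ ≤ 2 * ∑ w ∈ S, ∑ X ∈ S.powerset, ∑ k ∈ S.erase w, ∑ W ∈ S.powerset,
        ind (T K X k w W) := Nat.mul_le_mul_left 2 (sum_le_sum h1)
    _ = 2 * ∑ w ∈ S, ∑ X ∈ S.powerset, ∑ k ∈ S, ∑ W ∈ S.powerset,
        (if k ∈ S.erase w then ind (T K X k w W) else 0) := by rw [sum_congr rfl h2]
    _ = ∑ X ∈ S.powerset, ∑ k ∈ S, 2 * ∑ w ∈ S, ∑ W ∈ S.powerset,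
        (if k ∈ S.erase w then ind (T K X k w W) else 0) := by
        rw [sum_comm, mul_sum]
        refine sum_congr rfl fun X _ => ?_
        rw [sum_comm, mul_sum]
    _ ≤ ∑ X ∈ S.powerset, ∑ k ∈ S, 2 ^ S.card * ind (k ∉ X ∧ X ∉ K ∧ insert k X ∈ K) := by
        refine sum_le_sum fun X hX => sum_le_sum fun k _ => ?_
        exact T_sum X (mem_powerset.1 hX) k
    _ = 2 ^ S.card * U S K := by
        unfold U
        simp_rw [← mul_sum]

/-- the sum of `2 |A| - |S|` as the difference of the two boundaries -/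
theorem balance (hK : ∀ A ∈ K, A ⊆ S) :
    K.card * S.card + U S K = 2 * ∑ A ∈ K, A.card + ∑ w ∈ S, D S K w := by
  have hfreq : ∑ A ∈ K, A.card = ∑ w ∈ S, (K.filter (fun A => w ∈ A)).card := by
    simp_rw [card_filter]
    rw [sum_comm]
    apply sum_congr rfl
    intro A hA
    rw [← card_filter, filter_mem_eq_inter, inter_eq_right.2 (hK A hA)]
  have hUs : U S K = ∑ w ∈ S, cnt (S.erase w) (fun E => E ∉ K ∧ insert w E ∈ K) := by
    unfold U
    rw [sum_comm]
    refine sum_congr rfl fun w hw => ?_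
    conv_lhs => rw [← insert_erase hw]
    rw [sum_powerset_insert (notMem_erase _ _)]
    have h1 : ∑ t ∈ (S.erase w).powerset, ind (w ∉ insert w t ∧ insert w t ∉ K ∧
        insert w (insert w t) ∈ K) = 0 := by
      refine sum_eq_zero fun t _ => ?_
      unfold ind; simp
    rw [h1, add_zero]
    unfold cnt
    refine sum_congr rfl fun t ht => ?_
    have : w ∉ t := fun h => notMem_erase w S (mem_powerset.1 ht h)
    congr 1
    simp [this]
  have hpt : ∀ w ∈ S, K.card + cnt (S.erase w) (fun E => E ∉ K ∧ insert w E ∈ K) =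
      2 * (K.filter (fun A => w ∈ A)).card + D S K w := by
    intro w hw
    have hN : w ∉ S.erase w := notMem_erase _ _
    have e1 : K.card = cnt (S.erase w) (fun A => A ∈ K) +
        cnt (S.erase w) (fun A => insert w A ∈ K) := by
      rw [← cnt_insert hN, insert_erase hw, cnt_eq_card]
      congr 1
      ext A
      simp only [mem_filter, mem_powerset]
      exact ⟨fun h => ⟨hK A h, h⟩, fun h => h.2⟩
    have e2 : (K.filter (fun A => w ∈ A)).card = cnt (S.erase w) (fun A => insert w A ∈ K) := by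
      have h2 : (K.filter (fun A => w ∈ A)).card = cnt S (fun A => A ∈ K ∧ w ∈ A) := by
        rw [cnt_eq_card]
        congr 1
        ext A
        simp only [mem_filter, mem_powerset]
        exact ⟨fun h => ⟨hK A h.1, h⟩, fun h => h.2⟩
      rw [h2]
      conv_lhs => rw [← insert_erase hw]
      rw [cnt_insert hN]
      have h3 : cnt (S.erase w) (fun A => A ∈ K ∧ w ∈ A) = 0 := by
        unfold cnt
        refine sum_eq_zero fun A hA => ?_
        have : w ∉ A := fun h => hN (mem_powerset.1 hA h)
        unfold ind; simp [this]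
      rw [h3, zero_add]
      unfold cnt
      refine sum_congr rfl fun A _ => ?_
      congr 1
      simp
    have e3 : cnt (S.erase w) (fun A => A ∈ K) +
        cnt (S.erase w) (fun E => E ∉ K ∧ insert w E ∈ K) =
        cnt (S.erase w) (fun A => insert w A ∈ K) + D S K w := by
      unfold D cnt
      rw [← sum_add_distrib, ← sum_add_distrib]
      refine sum_congr rfl fun A _ => ?_
      unfold ind
      by_cases hA : A ∈ K <;> by_cases hB : insert w A ∈ K <;> simp [hA, hB]
    rw [e2]
    omega
  rw [hfreq, hUs, mul_sum, ← sum_add_distrib, ← sum_congr rfl hpt, sum_add_distrib, sum_const,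
    smul_eq_mul, mul_comm S.card]

/-- **The local criterion.** -/
theorem avg_crit {G : Finset (Finset α)} (hK : ∀ A ∈ K, A ⊆ S)
    (hU : ∀ A ∈ K, ∀ B ∈ K, A ∪ B ∈ K) (ha : ∀ A ∈ K, ∀ B ∈ G, A ∪ B ∈ K)
    (hc : ∀ w ∈ S, 2 ^ S.card ≤ 4 * cov S G w) :
    K.card * S.card ≤ 2 * ∑ A ∈ K, A.card := by
  have h1 := boundary_ineq hK hU ha
  have h2 : 2 ^ S.card * ∑ w ∈ S, D S K w ≤ 4 * ∑ w ∈ S, cov S G w * D S K w := by
    rw [mul_sum, mul_sum]
    refine sum_le_sum fun w hw => ?_
    rw [← mul_assoc]
    exact Nat.mul_le_mul_right _ (hc w hw)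
  have h3 : ∑ w ∈ S, D S K w ≤ U S K :=
    Nat.le_of_mul_le_mul_left (h2.trans h1) (by positivity)
  have h4 := balance hK
  omega

/-- **The local criterion, strict form.** -/
theorem avg_crit_lt {G : Finset (Finset α)} (hK : ∀ A ∈ K, A ⊆ S)
    (hU : ∀ A ∈ K, ∀ B ∈ K, A ∪ B ∈ K) (ha : ∀ A ∈ K, ∀ B ∈ G, A ∪ B ∈ K)
    (hc : ∀ w ∈ S, 2 ^ S.card < 4 * cov S G w) (hne : K.Nonempty) (hnp : K ≠ S.powerset) :
    K.card * S.card < 2 * ∑ A ∈ K, A.card := by
  have h1 := boundary_ineq hK hU ha
  have h4 := balance hK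
  suffices h : ∑ w ∈ S, D S K w < U S K by omega
  by_cases hD : ∃ w ∈ S, 0 < D S K w
  · obtain ⟨v, hv, hDv⟩ := hD
    have h2 : 2 ^ S.card * ∑ w ∈ S, D S K w < 4 * ∑ w ∈ S, cov S G w * D S K w := by
      rw [mul_sum, mul_sum]
      refine sum_lt_sum (fun w hw => ?_) ⟨v, hv, ?_⟩
      · rw [← mul_assoc]
        exact Nat.mul_le_mul_right _ (hc w hw).le
      · rw [← mul_assoc]
        exact Nat.mul_lt_mul_of_pos_right (hc v hv) hDv
    exact Nat.lt_of_mul_lt_mul_left (h2.trans_le h1)
  · push Not at hD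
    have h0 : ∑ w ∈ S, D S K w = 0 := sum_eq_zero fun w hw => by have := hD w hw; omega
    rw [h0]
    by_contra hU0
    have hU0 : U S K = 0 := by omega
    apply hnp
    have hadd : ∀ w ∈ S, ∀ A ∈ K, insert w A ∈ K := by
      intro w hw A hA
      by_contra hcon
      have hwA : w ∉ A := fun h => hcon (by rwa [insert_eq_of_mem h])
      have h5 : D S K w = 0 := by have := hD w hw; omega
      unfold D cnt at h5
      rw [sum_eq_zero_iff] at h5
      have := h5 A (mem_powerset.2 (subset_erase.2 ⟨hK A hA, hwA⟩))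
      unfold ind at this
      simp [hA, hcon] at this
    have hdel : ∀ w, ∀ A ∈ K, A.erase w ∈ K := by
      intro w A hA
      by_contra hcon
      have hwA : w ∈ A := by
        by_contra h; rw [erase_eq_of_notMem h] at hcon; exact hcon hA
      unfold U at hU0
      rw [sum_eq_zero_iff] at hU0
      have h6 := hU0 (A.erase w) (mem_powerset.2 ((erase_subset _ _).trans (hK A hA)))
      rw [sum_eq_zero_iff] at h6
      have h7 := h6 w (hK A hA hwA)
      unfold ind at h7
      rw [insert_erase hwA] at h7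
      simp [hA, hcon] at h7
    obtain ⟨A, hA⟩ := hne
    have hun : ∀ X, X ⊆ S → A ∪ X ∈ K := by
      intro X
      induction X using Finset.induction_on with
      | empty => intro _; simpa using hA
      | insert x X _ ih =>
        intro hX
        have := hadd x (hX (mem_insert_self _ _)) _ (ih ((subset_insert _ _).trans hX))
        rwa [← union_insert] at this
    have hsd : ∀ Y B, B ∈ K → B \ Y ∈ K := by
      intro Y
      induction Y using Finset.induction_on with
      | empty => intro B hB; simpa using hB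
      | insert y Y _ ih =>
        intro B hB
        have := hdel y _ (ih B hB)
        rwa [← sdiff_insert] at this
    apply Subset.antisymm
    · intro X hX; exact mem_powerset.2 (hK X hX)
    · intro X hX
      have hX := mem_powerset.1 hX
      have := hsd (A \ X) _ (hun X hX)
      have h8 : (A ∪ X) \ (A \ X) = X := by
        ext x
        simp only [mem_sdiff, mem_union]
        tauto
      rwa [h8] at this

theorem D_sum_le (hK : ∀ A ∈ K, A ⊆ S) :
    ∑ w ∈ S, D S K w + ∑ A ∈ K, A.card ≤ K.card * S.card := by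
  have hfreq : ∑ A ∈ K, A.card = ∑ w ∈ S, (K.filter (fun A => w ∈ A)).card := by
    simp_rw [card_filter]
    rw [sum_comm]
    apply sum_congr rfl
    intro A hA
    rw [← card_filter, filter_mem_eq_inter, inter_eq_right.2 (hK A hA)]
  have h1 : ∀ w ∈ S, D S K w + (K.filter (fun A => w ∈ A)).card ≤ K.card := by
    intro w _
    have h2 : D S K w ≤ (K.filter (fun A => ¬ w ∈ A)).card := by
      unfold D
      rw [cnt_eq_card]
      refine card_le_card fun A hA => ?_
      simp only [mem_filter, mem_powerset] at hA ⊢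
      exact ⟨hA.2.1, fun h => notMem_erase w S (hA.1 h)⟩
    have h3 := card_filter_add_card_filter_not (s := K) (fun A => w ∈ A)
    omega
  rw [hfreq, ← sum_add_distrib]
  calc ∑ w ∈ S, (D S K w + (K.filter (fun A => w ∈ A)).card) ≤ ∑ w ∈ S, K.card :=
        sum_le_sum h1
    _ = K.card * S.card := by rw [sum_const, smul_eq_mul, mul_comm]

/-- **The quantitative form of the local criterion.** -/
theorem avg_quant {G : Finset (Finset α)} (hK : ∀ A ∈ K, A ⊆ S)
    (hU : ∀ A ∈ K, ∀ B ∈ K, A ∪ B ∈ K) (ha : ∀ A ∈ K, ∀ B ∈ G, A ∪ B ∈ K) (μ : ℝ)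
    (h2 : μ ≤ 1 / 2) (hcov : ∀ w ∈ S, μ * 2 ^ S.card ≤ 2 * (cov S G w : ℝ)) :
    2 * μ * (K.card * S.card) ≤ (1 + 2 * μ) * ∑ A ∈ K, (A.card : ℝ) := by
  have e1 := boundary_ineq hK hU ha
  have e1' : 4 * ∑ w ∈ S, (cov S G w : ℝ) * D S K w ≤ 2 ^ S.card * U S K := by exact_mod_cast e1
  have e2 : 2 ^ S.card * (2 * μ * ∑ w ∈ S, (D S K w : ℝ)) ≤
      4 * ∑ w ∈ S, (cov S G w : ℝ) * D S K w := by
    rw [mul_sum, mul_sum, mul_sum]
    refine sum_le_sum fun w hw => ?_
    have := mul_le_mul_of_nonneg_right (hcov w hw) (Nat.cast_nonneg (D S K w) : (0 : ℝ) ≤ _)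
    nlinarith
  have e3 : 2 * μ * ∑ w ∈ S, (D S K w : ℝ) ≤ U S K :=
    le_of_mul_le_mul_left (e2.trans e1') (by positivity)
  have e4 : ((K.card : ℝ) * S.card) + U S K =
      2 * ∑ A ∈ K, (A.card : ℝ) + ∑ w ∈ S, (D S K w : ℝ) := by exact_mod_cast balance hK
  have e5 : ∑ w ∈ S, (D S K w : ℝ) + ∑ A ∈ K, (A.card : ℝ) ≤ (K.card : ℝ) * S.card := by
    exact_mod_cast D_sum_le hK
  nlinarith

end Pool.Agent.N188.FC
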