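import Pool.Agent.N188.FC.Iso
import Pool.Agent.N188.FC.Main

set_option autoImplicit false

/-!
# The isoperimetric criterion, and families containing a third of the subsets of a set
-/

namespace Pool.Agent.N188.FC

open Finset
open scoped Classical

variable {α : Type*} [DecidableEq α]

section

variable {K : Finset (Finset α)} {S : Finset α}

/-- The isoperimetric hypothesis for `x`, with constant `l`. -/
def IsoAt (S : Finset α) (G : Finset (Finset α)) (l : ℝ) (x : α) : Prop :=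
  ∀ D : Finset α → Prop, DownIn (S.erase x) D →
    (∀ A, D A → ¬ Up (fun B => insert x B ∈ G) A) →
      l * cnt (S.erase x) D ≤ edges (S.erase x) D

theorem boundary_iso {G : Finset (Finset α)} {l : ℝ} (hl : 0 ≤ l)
    (hU : ∀ A ∈ K, ∀ B ∈ K, A ∪ B ∈ K) (ha : ∀ A ∈ K, ∀ B ∈ G, A ∪ B ∈ K)
    (hc : ∀ w ∈ S, IsoAt S G l w) :
    l * ∑ w ∈ S, (D S K w : ℝ) ≤ U S K := by
  have h1 : ∀ w ∈ S, (2 : ℝ) ^ (S.erase w).card * (l * D S K w) ≤
      (∑ X ∈ S.powerset, ∑ k ∈ S.erase w, ∑ W ∈ S.powerset, ind (T K X k w W) : ℕ) := by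
    intro w hw
    have h2 : (L (S.erase w) (fun A => A ∈ K) (fun A => insert w A ∈ K) : ℝ) ≤
        (∑ X ∈ S.powerset, ∑ k ∈ S.erase w, ∑ W ∈ S.powerset, ind (T K X k w W) : ℕ) := by
      exact_mod_cast L_le (K := K) hw
    refine le_trans ?_ h2
    have := zed' (N := S.erase w) (Q := fun A => A ∈ K) (P := fun A => insert w A ∈ K)
      (Y := fun B => insert w B ∈ G) hl (hc w hw)
      (by
        intro A B hA hB
        have := hU _ hA _ hB
        rwa [insert_union] at this)
      (by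
        intro A B hA hB
        have := hU _ hA _ hB
        have e : insert w A ∪ insert w B = insert w (A ∪ B) := by
          ext x; simp only [mem_union, mem_insert]; tauto
        rwa [e] at this)
      (by
        intro A B hA hB
        have := ha _ hB _ hA
        rwa [union_comm, insert_union] at this)
      (by
        intro A B hA hB
        have := ha _ hB _ hA
        have e : insert w B ∪ insert w A = insert w (A ∪ B) := by
          ext x; simp only [mem_union, mem_insert]; tauto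
        rwa [e] at this)
    exact this
  have h2 : ∀ w ∈ S, ∑ X ∈ S.powerset, ∑ k ∈ S.erase w, ∑ W ∈ S.powerset, ind (T K X k w W) =
      ∑ X ∈ S.powerset, ∑ k ∈ S, ∑ W ∈ S.powerset,
        (if k ∈ S.erase w then ind (T K X k w W) else 0) := by
    intro w hw
    refine sum_congr rfl fun X _ => ?_
    have h3 : ∀ k, ∑ W ∈ S.powerset, (if k ∈ S.erase w then ind (T K X k w W) else 0) =
        if k ∈ S.erase w then ∑ W ∈ S.powerset, ind (T K X k w W) else 0 := by
      intro k; split_ifs <;> simp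
    simp_rw [h3]
    rw [← sum_filter]
    congr 1
    ext k
    simp only [mem_filter, mem_erase]
    tauto
  have h3 : 2 * ∑ w ∈ S, ∑ X ∈ S.powerset, ∑ k ∈ S.erase w, ∑ W ∈ S.powerset,
      ind (T K X k w W) ≤ 2 ^ S.card * U S K := by
    calc 2 * ∑ w ∈ S, ∑ X ∈ S.powerset, ∑ k ∈ S.erase w, ∑ W ∈ S.powerset,
        ind (T K X k w W) = 2 * ∑ w ∈ S, ∑ X ∈ S.powerset, ∑ k ∈ S, ∑ W ∈ S.powerset,
        (if k ∈ S.erase w then ind (T K X k w W) else 0) := by rw [sum_congr rfl h2]
      _ = ∑ X ∈ S.powerset, ∑ k ∈ S, 2 * ∑ w ∈ S, ∑ W ∈ S.powerset,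
          (if k ∈ S.erase w then ind (T K X k w W) else 0) := by
          rw [sum_comm, mul_sum]
          refine sum_congr rfl fun X _ => ?_
          rw [sum_comm, mul_sum]
      _ ≤ ∑ X ∈ S.powerset, ∑ k ∈ S, 2 ^ S.card * ind (k ∉ X ∧ X ∉ K ∧ insert k X ∈ K) := by
          refine sum_le_sum fun X hX => sum_le_sum fun k _ => ?_
          exact T_sum X (mem_powerset.1 hX) k
      _ = 2 ^ S.card * U S K := by
          unfold U
          simp_rw [← mul_sum]
  have h3R : 2 * ((∑ w ∈ S, ∑ X ∈ S.powerset, ∑ k ∈ S.erase w, ∑ W ∈ S.powerset,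
      ind (T K X k w W) : ℕ) : ℝ) ≤ 2 ^ S.card * U S K := by exact_mod_cast h3
  have h4 : (2 : ℝ) ^ S.card * (l * ∑ w ∈ S, (D S K w : ℝ)) ≤
      2 * ((∑ w ∈ S, ∑ X ∈ S.powerset, ∑ k ∈ S.erase w, ∑ W ∈ S.powerset,
      ind (T K X k w W) : ℕ) : ℝ) := by
    rw [Nat.cast_sum, mul_sum, mul_sum, mul_sum]
    refine sum_le_sum fun w hw => ?_
    have h5 := h1 w hw
    have h6 : (2 : ℝ) ^ S.card = 2 * 2 ^ (S.erase w).card := by
      rw [← pow_succ', card_erase_of_mem hw]
      congr 1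
      have : 0 < S.card := card_pos.2 ⟨w, hw⟩
      omega
    rw [h6]
    linarith
  exact le_of_mul_le_mul_left (h4.trans h3R) (by positivity)

theorem avg_iso {G : Finset (Finset α)} (hK : ∀ A ∈ K, A ⊆ S)
    (hU : ∀ A ∈ K, ∀ B ∈ K, A ∪ B ∈ K) (ha : ∀ A ∈ K, ∀ B ∈ G, A ∪ B ∈ K) {l : ℝ} (hl : 0 ≤ l)
    (h1 : l ≤ 1) (hc : ∀ w ∈ S, IsoAt S G l w) :
    2 * l * (K.card * S.card) ≤ (1 + l) * (2 * ∑ A ∈ K, (A.card : ℝ)) := by
  have e3 := boundary_iso hl hU ha hc
  have e4 : ((K.card : ℝ) * S.card) + U S K =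
      2 * ∑ A ∈ K, (A.card : ℝ) + ∑ w ∈ S, (D S K w : ℝ) := by exact_mod_cast balance hK
  have e5 : ∑ w ∈ S, (D S K w : ℝ) + ∑ A ∈ K, (A.card : ℝ) ≤ (K.card : ℝ) * S.card := by
    exact_mod_cast D_sum_le hK
  nlinarith

end

section

variable {F G : Finset (Finset α)} {S : Finset α}

open Pool.Agent.N188.LD in
/-- The isoperimetric criterion. -/
theorem iso_crit (hF : ∀ A ∈ F, ∀ B ∈ F, A ∪ B ∈ F) (hG : ∀ B ∈ G, B ⊆ S)
    (ha : ∀ A ∈ F, ∀ B ∈ G, A ∪ B ∈ F) {l : ℝ} (hl : 0 ≤ l) (h1 : l ≤ 1)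
    (hc : ∀ w ∈ S, IsoAt S G l w) :
    l * (F.card * S.card) ≤ (1 + l) * ∑ A ∈ F, ((A ∩ S).card : ℝ) := by
  have hpos : (0 : ℝ) < 1 + l := by linarith
  have h := fib_sum F S (2 * (l * S.card) / (1 + l)) (fun T => by
    have h1 := avg_iso (S := S) (K := fib F S T) (G := G) (fib_sub T) (fib_union hF T)
      (fib_absorb hG ha T) hl h1 hc
    rw [← mul_sum, ← mul_div_assoc, div_le_iff₀ hpos]
    nlinarith)
  rw [← mul_sum, ← mul_div_assoc, div_le_iff₀ hpos] at h
  nlinarith

theorem down_of {N : Finset α} {D : Finset α → Prop} (h : DownIn N D) {E E' : Finset α}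
    (hE : D E) (hsub : E' ⊆ E) (hEN : E ⊆ N) : D E' := by
  have key : ∀ X : Finset α, X ⊆ N → D (E' ∪ X) → D E' := by
    intro X
    induction X using Finset.induction_on with
    | empty => intro _ h1; simpa using h1
    | insert x X _ ih =>
      intro hX h1
      rw [union_insert] at h1
      exact ih ((subset_insert _ _).trans hX) (h x (hX (mem_insert_self _ _)) _ h1)
  have h2 : E' ∪ E = E := union_eq_right.2 hsub
  exact key E hEN (by rw [h2]; exact hE)

/-- The isoperimetric hypothesis in terms of families. -/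
theorem isoAt_of {l : ℝ} {x : α}
    (h : ∀ 𝒟 : Finset (Finset α), (∀ D ∈ 𝒟, D ⊆ S.erase x) → (∀ D ∈ 𝒟, ∀ D' ⊆ D, D' ∈ 𝒟) →
      (∀ D ∈ 𝒟, ∀ B ∈ G, x ∈ B → ¬ B ⊆ insert x D) →
      l * 𝒟.card ≤ ∑ D ∈ 𝒟, (((S.erase x).filter (fun k => k ∉ D ∧ insert k D ∉ 𝒟)).card : ℝ)) :
    IsoAt S G l x := by
  intro D hD hY
  have h1 := h ((S.erase x).powerset.filter D) (fun E hE => by
      simp only [mem_filter, mem_powerset] at hE
      exact hE.1)
    (fun E hE E' hE' => by
      simp only [mem_filter, mem_powerset] at hE ⊢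
      exact ⟨hE'.trans hE.1, down_of hD hE.2 hE' hE.1⟩)
    (fun E hE B hB hxB hBE => by
      simp only [mem_filter, mem_powerset] at hE
      refine hY E hE.2 ⟨B.erase x, ?_, down_insert hBE⟩
      show insert x (B.erase x) ∈ G
      rwa [insert_erase hxB])
  rw [cnt_eq_card]
  refine h1.trans ?_
  have h2 : (edges (S.erase x) D : ℝ) = ∑ E ∈ (S.erase x).powerset,
      ((∑ k ∈ S.erase x, ind (k ∉ E ∧ D E ∧ ¬ D (insert k E)) : ℕ) : ℝ) := by
    unfold edges
    push_cast
    rfl
  rw [h2, sum_filter]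
  refine sum_le_sum fun E hE => ?_
  split_ifs with hDE
  · have h3 : ((S.erase x).filter (fun k => k ∉ E ∧ insert k E ∉
        (S.erase x).powerset.filter D)).card ≤
        ∑ k ∈ S.erase x, ind (k ∉ E ∧ D E ∧ ¬ D (insert k E)) := by
      rw [card_filter]
      refine sum_le_sum fun k hk => ?_
      unfold ind
      by_cases hc : k ∉ E ∧ insert k E ∉ (S.erase x).powerset.filter D
      · rw [if_pos hc, if_pos]
        refine ⟨hc.1, hDE, fun h4 => hc.2 ?_⟩
        simp only [mem_filter, mem_powerset]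
        exact ⟨insert_subset hk (mem_powerset.1 hE), h4⟩
      · rw [if_neg hc]
        exact Nat.zero_le _
    exact_mod_cast h3
  · exact Nat.cast_nonneg _

/-- The isoperimetric hypothesis from the measure of the covered sets. -/
theorem isoAt_of_measure {m : ℝ} (h0 : 0 ≤ m) (h3 : m ≤ 1 / 3) {x : α} (hx : x ∈ S)
    (h : m * 2 ^ S.card ≤ 2 * ((covered S G x).card : ℝ)) :
    IsoAt S G (2 * m / (1 - m)) x := by
  intro D hD hY
  refine iso_of_measure h0 h3 ?_ D hD hY
  have h1 : ((covered S G x).card : ℝ) ≤ cov S G x := by exact_mod_cast covered_le S G x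
  have h2 : (2 : ℝ) ^ S.card = 2 * 2 ^ (S.erase x).card := by
    rw [← pow_succ', card_erase_of_mem hx]
    congr 1
    have : 0 < S.card := card_pos.2 ⟨x, hx⟩
    omega
  rw [h2] at h
  unfold cov at h1
  linarith

/-- The measure criterion. -/
theorem third (hF : ∀ A ∈ F, ∀ B ∈ F, A ∪ B ∈ F) (hG : ∀ B ∈ G, B ⊆ S)
    (ha : ∀ A ∈ F, ∀ B ∈ G, A ∪ B ∈ F) {m : ℝ} (h0 : 0 ≤ m) (h3 : m ≤ 1 / 3)
    (h : ∀ x ∈ S, m * 2 ^ S.card ≤ 2 * ((covered S G x).card : ℝ)) :
    2 * m * (F.card * S.card) ≤ (1 + m) * ∑ A ∈ F, ((A ∩ S).card : ℝ) := by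
  have hm : (0 : ℝ) < 1 - m := by linarith
  have hl : 2 * m / (1 - m) ≤ 1 := by rw [div_le_one hm]; linarith
  have hl0 : 0 ≤ 2 * m / (1 - m) := by positivity
  have h1 := iso_crit hF hG ha hl0 hl (fun w hw => isoAt_of_measure h0 h3 hw (h w hw))
  have e1 : 2 * m / (1 - m) * (F.card * S.card : ℝ) =
      (2 * m * (F.card * S.card)) / (1 - m) := by ring
  have e2 : (1 + 2 * m / (1 - m)) = (1 + m) / (1 - m) := by field_simp; ring
  rw [e1, e2, div_mul_eq_mul_div, div_le_div_iff_of_pos_right hm] at h1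
  exact h1

/-- The measure criterion for one third. -/
theorem third_nat (hF : ∀ A ∈ F, ∀ B ∈ F, A ∪ B ∈ F) (hG : ∀ B ∈ G, B ⊆ S)
    (ha : ∀ A ∈ F, ∀ B ∈ G, A ∪ B ∈ F)
    (h : ∀ x ∈ S, 2 ^ S.card ≤ 6 * (covered S G x).card) :
    F.card * S.card ≤ 2 * ∑ A ∈ F, (A ∩ S).card := by
  have h1 := third hF hG ha (m := 1 / 3) (by norm_num) le_rfl (fun x hx => by
    have : ((2 : ℝ) ^ S.card) ≤ 6 * (covered S G x).card := by exact_mod_cast h x hx
    linarith)
  have h2 : (F.card * S.card : ℝ) ≤ 2 * ∑ A ∈ F, ((A ∩ S).card : ℝ) := by linarith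
  exact_mod_cast h2

/-- Families containing a third of the nonempty subsets of `S`. -/
theorem density_third (hF : ∀ A ∈ F, ∀ B ∈ F, A ∪ B ∈ F) (n : ℕ) :
    ∀ (S : Finset α) (G : Finset (Finset α)), S.card = n + 1 → (∀ B ∈ G, B ⊆ S) →
    (∀ A ∈ F, ∀ B ∈ G, A ∪ B ∈ F) →
    2 ^ S.card + 2 ≤ 3 * (G.filter (fun B => B.Nonempty)).card + 3 * S.card / 2 →
    ∃ x ∈ S, F.card ≤ 2 * (F.filter (fun A => x ∈ A)).card := by
  induction n with
  | zero =>
    intro S G hS hG ha hd
    rw [hS] at hd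
    obtain ⟨w, rfl⟩ := card_eq_one.1 hS
    have h0 : 0 < (G.filter (fun B => B.Nonempty)).card := by omega
    obtain ⟨B, hB⟩ := card_pos.1 h0
    rw [mem_filter] at hB
    have hBw : B = {w} := (subset_singleton_iff.1 (hG B hB.1)).resolve_left
      (nonempty_iff_ne_empty.1 hB.2)
    refine exists_of_avg (singleton_nonempty w) (crit hF hG ha ?_)
    intro x hx
    rw [mem_singleton] at hx
    subst hx
    have h1 := deg_le_covered hG x
    have h2 : 0 < (G.filter (fun B => x ∈ B)).card :=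
      card_pos.2 ⟨B, mem_filter.2 ⟨hB.1, by rw [hBw]; simp⟩⟩
    simp only [card_singleton]
    omega
  | succ n ih =>
    intro S G hS hG ha hd
    by_cases hall : ∀ w ∈ S, 2 ^ S.card ≤ 6 * (G.filter (fun B => w ∈ B)).card
    · refine exists_of_avg (card_pos.1 (by omega)) (third_nat hF hG ha ?_)
      intro x hx
      exact (hall x hx).trans (Nat.mul_le_mul_left 6 (deg_le_covered hG x))
    · push Not at hall
      obtain ⟨w, hw, hlt⟩ := hall
      have hce : (S.erase w).card = n + 1 := by rw [card_erase_of_mem hw]; omega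
      have hp : 2 ^ S.card = 2 * 2 ^ (S.erase w).card := by rw [hce, hS, pow_succ]; ring
      have hmod : 2 ^ (S.erase w).card % 3 = if (S.erase w).card % 2 = 0 then 1 else 2 := by
        have : ∀ k : ℕ, 2 ^ k % 3 = if k % 2 = 0 then 1 else 2 := by
          intro k
          induction k with
          | zero => rfl
          | succ k ihk =>
            rw [pow_succ, Nat.mul_mod, ihk]
            by_cases hk : k % 2 = 0
            · rw [if_pos hk, if_neg (by omega)]
            · rw [if_neg hk, if_pos (by omega)]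
        exact this _
      have hsc : (G.filter (fun B => w ∈ B)).card +
          ((G.filter (fun B => w ∉ B)).filter (fun B => B.Nonempty)).card =
          (G.filter (fun B => B.Nonempty)).card := by
        rw [← split_card (G.filter (fun B => B.Nonempty)) w]
        congr 1
        · congr 1
          ext B
          simp only [mem_filter]
          constructor
          · rintro ⟨h1, h2⟩; exact ⟨⟨h1, ⟨w, h2⟩⟩, h2⟩
          · rintro ⟨⟨h1, _⟩, h2⟩; exact ⟨h1, h2⟩
        · congr 1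
          ext B
          simp only [mem_filter]
          tauto
      rw [hce] at hmod
      obtain ⟨x, hx, hxF⟩ := ih (S.erase w) (G.filter (fun B => w ∉ B)) hce (sub_erase hG w)
        (fun A hA B hB => ha A hA B (mem_filter.1 hB).1) (by
          rw [hce] at hp ⊢
          rw [hp] at hlt hd
          rw [hS] at hd
          split_ifs at hmod with h2 <;> omega)
      exact ⟨x, mem_of_mem_erase hx, hxF⟩

end

end Pool.Agent.N188.FC
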