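import Pool.Agent.N188.FC.Third

set_option autoImplicit false

/-!
# The isoperimetric criterion with weights
-/

namespace Pool.Agent.N188.FC

open Finset
open scoped Classical

variable {α : Type*} [DecidableEq α]

/-- weighted count of triples -/
noncomputable def Lc (N : Finset α) (c : α → ℝ) (Q P : Finset α → Prop) : ℝ :=
  ∑ W ∈ N.powerset, ∑ E ∈ N.powerset, ∑ k ∈ N, c k * (ind (Ed Q P W E k) : ℝ)

/-- weighted number of the edges from `D` upwards to sets outside `D` -/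
noncomputable def ec (N : Finset α) (c : α → ℝ) (D : Finset α → Prop) : ℝ :=
  ∑ E ∈ N.powerset, ∑ k ∈ N, c k * (ind (k ∉ E ∧ D E ∧ ¬ D (insert k E)) : ℝ)

section step

variable {a : α} {N : Finset α} {Q P D : Finset α → Prop} {c : α → ℝ}

theorem Lc_step (hc0 : ∀ x, 0 ≤ c x) (ha : a ∉ N) (hPQ : ∀ A B, P A → Q B → P (A ∪ B)) :
    Lc (insert a N) c (opA a Q) (opA a P) + Lc (insert a N) c (opB a Q) (opB a P) ≤
      2 * Lc (insert a N) c Q P := by
  unfold Lc
  rw [sum_powerset_insert ha, sum_powerset_insert ha, sum_powerset_insert ha]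
  simp only [← sum_add_distrib, mul_sum]
  refine sum_le_sum fun W hW => ?_
  rw [mem_powerset] at hW
  rw [sum_powerset_insert ha, sum_powerset_insert ha]
  simp only [← sum_add_distrib]
  refine sum_le_sum fun E hE => ?_
  rw [mem_powerset] at hE
  have e : ∀ f : α → ℝ, ∑ k ∈ insert a N, f k = f a + ∑ k ∈ N, f k := fun f => sum_insert ha
  simp only [e]
  have hn1 := blockn (Q := Q) ha hPQ W E hE
  have hn2 := blockn (Q := Q) ha hPQ (insert a W) E hE
  have hn1R : (ind (Ed (opA a Q) (opA a P) W E a) : ℝ) + ind (Ed (opB a Q) (opB a P) W E a) ≤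
      2 * ind (Ed Q P W E a) := by exact_mod_cast hn1
  have hn2R : (ind (Ed (opA a Q) (opA a P) (insert a W) E a) : ℝ) +
      ind (Ed (opB a Q) (opB a P) (insert a W) E a) ≤ 2 * ind (Ed Q P (insert a W) E a) := by
    exact_mod_cast hn2
  have z : ∀ (R R' : Finset α → Prop) (W' : Finset α), ind (Ed R R' W' (insert a E) a) = 0 := by
    intro R R' W'
    unfold ind Ed
    simp
  have hb : ∑ k ∈ N,
      c k * (((ind (Ed (opA a Q) (opA a P) W E k) : ℝ) +
        ind (Ed (opA a Q) (opA a P) (insert a W) E k) +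
      ind (Ed (opA a Q) (opA a P) W (insert a E) k) +
      ind (Ed (opA a Q) (opA a P) (insert a W) (insert a E) k)) +
    (ind (Ed (opB a Q) (opB a P) W E k) + ind (Ed (opB a Q) (opB a P) (insert a W) E k) +
      ind (Ed (opB a Q) (opB a P) W (insert a E) k) +
      ind (Ed (opB a Q) (opB a P) (insert a W) (insert a E) k))) ≤
    ∑ k ∈ N, c k * (2 * ((ind (Ed Q P W E k) : ℝ) + ind (Ed Q P (insert a W) E k) +
      ind (Ed Q P W (insert a E) k) + ind (Ed Q P (insert a W) (insert a E) k))) := by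
    refine sum_le_sum fun k hk => mul_le_mul_of_nonneg_left ?_ (hc0 k)
    exact_mod_cast block2 ha hPQ W E k hW hE hk
  have m1 := mul_le_mul_of_nonneg_left hn1R (hc0 a)
  have m2 := mul_le_mul_of_nonneg_left hn2R (hc0 a)
  simp only [mul_add, sum_add_distrib, mul_left_comm _ (2 : ℝ), ← mul_sum] at hb m1 m2 ⊢
  simp only [z, Nat.cast_zero, mul_zero]
  linarith

theorem ec_split (ha : a ∉ N) (D : Finset α → Prop) : ec (insert a N) c D =
    ∑ E ∈ N.powerset, (c a * (ind (D E ∧ ¬ D (insert a E)) : ℝ) +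
      ∑ k ∈ N, c k * ((ind (k ∉ E ∧ D E ∧ ¬ D (insert k E)) : ℝ) +
        ind (k ∉ E ∧ D (insert a E) ∧ ¬ D (insert a (insert k E))))) := by
  unfold ec
  rw [sum_powerset_insert ha, ← sum_add_distrib]
  refine sum_congr rfl fun E hE => ?_
  have haE : a ∉ E := fun h => ha (mem_powerset.1 hE h)
  rw [sum_insert ha, sum_insert ha]
  have h1 : ind (a ∉ insert a E ∧ D (insert a E) ∧ ¬ D (insert a (insert a E))) = 0 := by
    simp [ind]
  have h2 : ind (a ∉ E ∧ D E ∧ ¬ D (insert a E)) = ind (D E ∧ ¬ D (insert a E)) := by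
    congr 1; simp [haE]
  have h3 : ∑ k ∈ N, c k * (ind (k ∉ insert a E ∧ D (insert a E) ∧
      ¬ D (insert k (insert a E))) : ℝ) =
      ∑ k ∈ N, c k * (ind (k ∉ E ∧ D (insert a E) ∧ ¬ D (insert a (insert k E))) : ℝ) := by
    refine sum_congr rfl fun k hk => ?_
    have hka : k ≠ a := fun h => ha (h ▸ hk)
    rw [insert_comm k a E]
    congr 2
    simp [hka]
  rw [h1, h2, h3]
  simp only [mul_add, sum_add_distrib]
  push_cast
  ring

theorem ec_step (hc0 : ∀ x, 0 ≤ c x) (ha : a ∉ N) :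
    ec (insert a N) c (opC a D) + ec (insert a N) c (opD a D) ≤ 2 * ec (insert a N) c D := by
  rw [ec_split ha, ec_split ha, ec_split ha, ← sum_add_distrib, mul_sum]
  refine sum_le_sum fun E hE => ?_
  have haE : a ∉ E := fun h => ha (mem_powerset.1 hE h)
  have c0 : ∀ A : Finset α, a ∉ A → (opC a D A ↔ (D A ∨ D (insert a A))) := fun A _ => Iff.rfl
  have c1 : ∀ A : Finset α, (opC a D (insert a A) ↔ D (insert a A)) := by
    intro A; unfold opC; rw [insert_eq_of_mem (mem_insert_self a A)]; exact or_self_iff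
  have d0 : ∀ A : Finset α, a ∉ A → (opD a D A ↔ D A) := by
    intro A h; unfold opD; rw [erase_eq_of_notMem h]; exact and_self_iff
  have d1 : ∀ A : Finset α, a ∉ A → (opD a D (insert a A) ↔ (D A ∧ D (insert a A))) := by
    intro A h; unfold opD; rw [erase_insert h]; exact and_comm
  rw [c0 E haE, c1 E, d0 E haE, d1 E haE]
  have hn : ind ((D E ∨ D (insert a E)) ∧ ¬ D (insert a E)) +
      ind (D E ∧ ¬ (D E ∧ D (insert a E))) ≤ 2 * ind (D E ∧ ¬ D (insert a E)) := by
    by_cases h1 : D E <;> by_cases h2 : D (insert a E) <;> simp [ind, h1, h2]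
  have hnR : (ind ((D E ∨ D (insert a E)) ∧ ¬ D (insert a E)) : ℝ) +
      ind (D E ∧ ¬ (D E ∧ D (insert a E))) ≤ 2 * ind (D E ∧ ¬ D (insert a E)) := by
    exact_mod_cast hn
  have hk : ∑ k ∈ N, c k * ((((ind (k ∉ E ∧ (D E ∨ D (insert a E)) ∧
          ¬ opC a D (insert k E)) : ℝ) +
        ind (k ∉ E ∧ D (insert a E) ∧ ¬ opC a D (insert a (insert k E)))) +
      (ind (k ∉ E ∧ D E ∧ ¬ opD a D (insert k E)) +
        ind (k ∉ E ∧ (D E ∧ D (insert a E)) ∧ ¬ opD a D (insert a (insert k E)))))) ≤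
      ∑ k ∈ N, c k * (2 * ((ind (k ∉ E ∧ D E ∧ ¬ D (insert k E)) : ℝ) +
        ind (k ∉ E ∧ D (insert a E) ∧ ¬ D (insert a (insert k E))))) := by
    refine sum_le_sum fun k hkN => mul_le_mul_of_nonneg_left ?_ (hc0 k)
    have hka : a ≠ k := fun h => ha (h ▸ hkN)
    have hakE : a ∉ insert k E := by simp [hka, haE]
    by_cases hkE : k ∈ E
    · simp [ind, hkE]
    · rw [c0 _ hakE, c1, d0 _ hakE, d1 _ hakE]
      have := sub_ineq (d0 := D E) (d1 := D (insert a E)) (e0 := D (insert k E))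
        (e1 := D (insert a (insert k E)))
      simp only [hkE, not_false_eq_true, true_and]
      exact_mod_cast this
  have m1 := mul_le_mul_of_nonneg_left hnR (hc0 a)
  simp only [mul_add, sum_add_distrib, mul_left_comm _ (2 : ℝ), ← mul_sum] at hk m1 ⊢
  linarith

theorem base_upc (hc0 : ∀ x, 0 ≤ c x) (hQ : MonoIn N Q) (hP : MonoIn N P) :
    2 ^ N.card * ec N c (fun A => Q A ∧ ¬ P A) ≤ Lc N c Q P := by
  have h1 : 2 ^ N.card * ec N c (fun A => Q A ∧ ¬ P A) =
      ∑ W ∈ N.powerset, ec N c (fun A => Q A ∧ ¬ P A) := by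
    rw [sum_const, card_powerset, nsmul_eq_mul]
    push_cast
    ring
  rw [h1]
  unfold Lc ec
  refine sum_le_sum fun W _ => sum_le_sum fun E hE => sum_le_sum fun k hk => ?_
  rw [mem_powerset] at hE
  refine mul_le_mul_of_nonneg_left ?_ (hc0 k)
  have h7 : ind (k ∉ E ∧ (Q E ∧ ¬ P E) ∧ ¬ (Q (insert k E) ∧ ¬ P (insert k E))) ≤
      ind (Ed Q P W E k) := by
    apply ind_mono
    rintro ⟨h2, ⟨h3, h4⟩, h5⟩
    refine ⟨h2, ⟨E, h3, Subset.rfl, subset_union_left⟩, ?_, ?_⟩
    · rintro ⟨B, hB, hBE⟩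
      exact h4 (mono_up hP hB hBE hE)
    · by_contra h6
      exact h5 ⟨hQ k hk E h3, h6⟩
  exact_mod_cast h7

end step

theorem set_aux {N R : Finset α} {a : α} (haN : a ∈ N) (haR : a ∉ R) :
    insert a (N \ insert a R) = N \ R := by
  ext x
  simp only [mem_insert, mem_sdiff]
  constructor
  · rintro (rfl | ⟨h1, h2⟩)
    · exact ⟨haN, haR⟩
    · exact ⟨h1, fun h3 => h2 (Or.inr h3)⟩
  · rintro ⟨h1, h2⟩
    by_cases hx : x = a
    · exact Or.inl hx
    · exact Or.inr ⟨h1, fun h3 => h3.elim hx h2⟩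

/-- From down-sets to arbitrary families. -/
theorem ec_ge {N : Finset α} {Y : Finset α → Prop} {l : ℝ} {c : α → ℝ} (hc0 : ∀ x, 0 ≤ c x)
    (h : ∀ D : Finset α → Prop, DownIn N D → (∀ A, D A → ¬ Up Y A) → l * cnt N D ≤ ec N c D)
    (R : Finset α) : R ⊆ N → ∀ D : Finset α → Prop, DownIn (N \ R) D →
    (∀ A, D A → ¬ Up Y A) → l * cnt N D ≤ ec N c D := by
  induction R using Finset.induction_on with
  | empty =>
    intro _ D hD hY
    rw [sdiff_empty] at hD
    exact h D hD hY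
  | insert a R haR ih =>
    intro hR D hD hY
    have haN : a ∈ N := hR (mem_insert_self _ _)
    have hRN : R ⊆ N := (subset_insert _ _).trans hR
    have hC := opC_down (a := a) hD
    have hDD := opD_down (a := a) hD
    rw [set_aux haN haR] at hC hDD
    have i1 := ih hRN (opC a D) hC (by
      rintro A (hA | hA) ⟨B, hB, hBA⟩
      · exact hY A hA ⟨B, hB, hBA⟩
      · exact hY _ hA ⟨B, hB, hBA.trans (subset_insert _ _)⟩)
    have i2 := ih hRN (opD a D) hDD (fun A hA => hY A hA.1)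
    obtain ⟨N', hN', rfl⟩ : ∃ N', a ∉ N' ∧ insert a N' = N :=
      ⟨N.erase a, notMem_erase _ _, insert_erase haN⟩
    have h1 := ec_step (D := D) hc0 hN'
    have h2 := cnt_stepCD (D := D) hN'
    have h2R : (cnt (insert a N') (opC a D) : ℝ) + cnt (insert a N') (opD a D) =
        2 * cnt (insert a N') D := by exact_mod_cast h2
    have h3 : l * (cnt (insert a N') (opC a D) : ℝ) + l * cnt (insert a N') (opD a D) =
        2 * (l * cnt (insert a N') D) := by rw [← mul_add, h2R]; ring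
    linarith

theorem zedc_of_edges {N : Finset α} {Y : Finset α → Prop} {l : ℝ} {c : α → ℝ}
    (hc0 : ∀ x, 0 ≤ c x) (hl : 0 ≤ l)
    (h : ∀ D : Finset α → Prop, (∀ A, D A → ¬ Up Y A) → l * cnt N D ≤ ec N c D)
    (R : Finset α) : R ⊆ N → ∀ Q P : Finset α → Prop, MonoIn (N \ R) Q → MonoIn (N \ R) P →
    (∀ A B, P A → Q B → P (A ∪ B)) → (∀ A B, Y A → Q B → P (A ∪ B)) → (∀ A, P A → Q A) →
    2 ^ N.card * (l * cnt N (fun A => Q A ∧ ¬ P A)) ≤ Lc N c Q P := by
  induction R using Finset.induction_on with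
  | empty =>
    intro _ Q P hQ hP hPQ hYQ _
    rw [sdiff_empty] at hQ hP
    refine le_trans (mul_le_mul_of_nonneg_left (h _ ?_) (by positivity)) (base_upc hc0 hQ hP)
    rintro A ⟨h1, h2⟩ ⟨B, hB, hBA⟩
    have := hYQ _ _ hB h1
    rw [union_eq_right.2 hBA] at this
    exact h2 this
  | insert a R haR ih =>
    intro hR Q P hQ hP hPQ hYQ hsub
    have haN : a ∈ N := hR (mem_insert_self _ _)
    have hRN : R ⊆ N := (subset_insert _ _).trans hR
    have hQA := opA_mono (a := a) hQ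
    have hPA := opA_mono (a := a) hP
    have hQB := opB_mono (a := a) hQ
    have hPB := opB_mono (a := a) hP
    rw [set_aux haN haR] at hQA hPA hQB hPB
    have i1 := ih hRN (opA a Q) (opA a P) hQA hPA (opA_join hPQ) (opA_join' hYQ)
      (fun A hA => hA.elim (fun h => Or.inl (hsub _ h)) (fun h => Or.inr ⟨h.1, hsub _ h.2⟩))
    have i2 := ih hRN (opB a Q) (opB a P) hQB hPB (opB_join hPQ) (opB_join' hYQ)
      (fun A hA => ⟨hsub _ hA.1, hsub _ hA.2⟩)
    obtain ⟨N', hN', rfl⟩ : ∃ N', a ∉ N' ∧ insert a N' = N :=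
      ⟨N.erase a, notMem_erase _ _, insert_erase haN⟩
    have h1 := Lc_step (Q := Q) (P := P) hc0 hN' hPQ
    have h2 := cnt_step (Q := Q) (P := P) hN' hPQ hsub
    have h2R : 2 * (cnt (insert a N') (fun A => Q A ∧ ¬ P A) : ℝ) ≤
        cnt (insert a N') (fun A => opA a Q A ∧ ¬ opA a P A) +
        cnt (insert a N') (fun A => opB a Q A ∧ ¬ opB a P A) := by exact_mod_cast h2
    have h3 := mul_le_mul_of_nonneg_left h2R
      (by positivity : (0 : ℝ) ≤ 2 ^ (insert a N').card * l)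
    nlinarith

theorem zedc {N : Finset α} {Y Q P : Finset α → Prop} {l : ℝ} {c : α → ℝ}
    (hc0 : ∀ x, 0 ≤ c x) (hl : 0 ≤ l)
    (h : ∀ D : Finset α → Prop, DownIn N D → (∀ A, D A → ¬ Up Y A) → l * cnt N D ≤ ec N c D)
    (hPQ : ∀ A B, P A → Q B → P (A ∪ B)) (hPP : ∀ A B, P A → P B → P (A ∪ B))
    (hYQ : ∀ A B, Y A → Q B → P (A ∪ B)) (hYP : ∀ A B, Y A → P B → P (A ∪ B)) :
    2 ^ N.card * (l * cnt N (fun A => Q A ∧ ¬ P A)) ≤ Lc N c Q P := by
  have hall : ∀ D : Finset α → Prop, (∀ A, D A → ¬ Up Y A) → l * cnt N D ≤ ec N c D := by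
    intro D hD
    refine ec_ge hc0 h N Subset.rfl D ?_ hD
    intro t ht
    rw [sdiff_self] at ht
    exact absurd ht (notMem_empty t)
  have h1 := zedc_of_edges hc0 hl hall N Subset.rfl (fun A => Q A ∨ P A) P
    (by intro t ht; rw [sdiff_self] at ht; exact absurd ht (notMem_empty t))
    (by intro t ht; rw [sdiff_self] at ht; exact absurd ht (notMem_empty t))
    (fun A B hA hB => hB.elim (hPQ A B hA) (hPP A B hA))
    (fun A B hA hB => hB.elim (hYQ A B hA) (hYP A B hA)) (fun A hA => Or.inr hA)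
  have h2 : cnt N (fun A => Q A ∧ ¬ P A) ≤ cnt N (fun A => (Q A ∨ P A) ∧ ¬ P A) :=
    cnt_mono _ _ _ (fun A _ hA => ⟨Or.inl hA.1, hA.2⟩)
  have h3 : Lc N c (fun A => Q A ∨ P A) P ≤ Lc N c Q P := by
    unfold Lc
    refine sum_le_sum fun W _ => sum_le_sum fun E _ => sum_le_sum fun k _ =>
      mul_le_mul_of_nonneg_left ?_ (hc0 k)
    have h7 : ind (Ed (fun A => Q A ∨ P A) P W E k) ≤ ind (Ed Q P W E k) := by
      apply ind_mono
      rintro ⟨g1, ⟨A, hA, g2, g3⟩, g4, g5⟩
      exact ⟨g1, ⟨A, hA.resolve_right (fun hP => g4 ⟨A, hP, g2⟩), g2, g3⟩, g4, g5⟩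
    exact_mod_cast h7
  have h2R : (cnt N (fun A => Q A ∧ ¬ P A) : ℝ) ≤ cnt N (fun A => (Q A ∨ P A) ∧ ¬ P A) := by
    exact_mod_cast h2
  have h4 := mul_le_mul_of_nonneg_left h2R (by positivity : (0 : ℝ) ≤ 2 ^ N.card * l)
  nlinarith

section

variable {K : Finset (Finset α)} {S : Finset α} {c : α → ℝ}

theorem Lc_le {w : α} (hc0 : ∀ x, 0 ≤ c x) (hw : w ∈ S) :
    Lc (S.erase w) c (fun A => A ∈ K) (fun A => insert w A ∈ K) ≤
      ∑ X ∈ S.powerset, ∑ k ∈ S.erase w, c k * ∑ W ∈ S.powerset, (ind (T K X k w W) : ℝ) := by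
  have erase_sumR : ∀ f : Finset α → ℝ, ∑ E ∈ (S.erase w).powerset, f E =
      ∑ X ∈ S.powerset, if w ∈ X then f (X.erase w) else 0 := by
    intro f
    have hN : w ∉ S.erase w := notMem_erase _ _
    conv_rhs => rw [← insert_erase hw]
    rw [sum_powerset_insert hN]
    have h1 : ∑ t ∈ (S.erase w).powerset, (if w ∈ t then f (t.erase w) else 0) = 0 := by
      refine sum_eq_zero fun t ht => ?_
      rw [mem_powerset] at ht
      rw [if_neg (fun h => hN (ht h))]
    rw [h1, zero_add]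
    refine sum_congr rfl fun t ht => ?_
    rw [mem_powerset] at ht
    rw [if_pos (mem_insert_self _ _), erase_insert (fun h => hN (ht h))]
  unfold Lc
  calc ∑ W ∈ (S.erase w).powerset, ∑ E ∈ (S.erase w).powerset, ∑ k ∈ S.erase w,
        c k * (ind (Ed (fun A => A ∈ K) (fun A => insert w A ∈ K) W E k) : ℝ)
      = ∑ W ∈ (S.erase w).powerset, ∑ X ∈ S.powerset, (if w ∈ X then ∑ k ∈ S.erase w,
        c k * (ind (Ed (fun A => A ∈ K) (fun A => insert w A ∈ K) W (X.erase w) k) : ℝ)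
        else 0) := sum_congr rfl fun W _ => erase_sumR _
    _ = ∑ W ∈ (S.erase w).powerset, ∑ X ∈ S.powerset, ∑ k ∈ S.erase w,
        c k * (ind (T K X k w W) : ℝ) := by
        refine sum_congr rfl fun W hW => sum_congr rfl fun X _ => ?_
        rw [mem_powerset] at hW
        have hwW : w ∉ W := fun h => notMem_erase w S (hW h)
        split_ifs with h
        · refine sum_congr rfl fun k _ => ?_
          unfold T
          congr 2
          simp [h, hwW]
        · symm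
          refine sum_eq_zero fun k _ => ?_
          unfold ind T
          rw [if_neg (by tauto)]
          simp
    _ ≤ ∑ W ∈ S.powerset, ∑ X ∈ S.powerset, ∑ k ∈ S.erase w, c k * (ind (T K X k w W) : ℝ) := by
        refine sum_le_sum_of_subset_of_nonneg (powerset_mono.2 (erase_subset _ _)) ?_
        intro W _ _
        exact sum_nonneg fun X _ => sum_nonneg fun k _ => mul_nonneg (hc0 k) (Nat.cast_nonneg _)
    _ = _ := by
        rw [sum_comm]
        refine sum_congr rfl fun X _ => ?_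
        rw [sum_comm]
        refine sum_congr rfl fun k _ => ?_
        rw [mul_sum]

/-- the number of the edges entering `K` in direction `w` -/
noncomputable def Uw (S : Finset α) (K : Finset (Finset α)) (w : α) : ℕ :=
  ∑ X ∈ S.powerset, ind (w ∉ X ∧ X ∉ K ∧ insert w X ∈ K)

/-- The weighted isoperimetric hypothesis for `x`. -/
def IsoW (S : Finset α) (G : Finset (Finset α)) (c : α → ℝ) (l : ℝ) (x : α) : Prop :=
  ∀ D : Finset α → Prop, DownIn (S.erase x) D →
    (∀ A, D A → ¬ Up (fun B => insert x B ∈ G) A) →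
      l * c x * cnt (S.erase x) D ≤ ec (S.erase x) c D

theorem boundary_w {G : Finset (Finset α)} {l : ℝ} (hc0 : ∀ x, 0 ≤ c x) (hl : 0 ≤ l)
    (hU : ∀ A ∈ K, ∀ B ∈ K, A ∪ B ∈ K) (ha : ∀ A ∈ K, ∀ B ∈ G, A ∪ B ∈ K)
    (hc : ∀ w ∈ S, IsoW S G c l w) :
    l * ∑ w ∈ S, c w * (D S K w : ℝ) ≤ ∑ w ∈ S, c w * (Uw S K w : ℝ) := by
  have h1 : ∀ w ∈ S, (2 : ℝ) ^ (S.erase w).card * (l * c w * D S K w) ≤
      ∑ X ∈ S.powerset, ∑ k ∈ S.erase w, c k * ∑ W ∈ S.powerset, (ind (T K X k w W) : ℝ) := by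
    intro w hw
    refine le_trans ?_ (Lc_le (K := K) hc0 hw)
    have := zedc (N := S.erase w) (Q := fun A => A ∈ K) (P := fun A => insert w A ∈ K)
      (Y := fun B => insert w B ∈ G) hc0 (mul_nonneg hl (hc0 w)) (hc w hw)
      (by
        intro A B hA hB
        have := hU _ hA _ hB
        rwa [insert_union] at this)
      (by
        intro A B hA hB
        have := hU _ hA _ hB
        have e : insert w A ∪ insert w B = insert w (A ∪ B) := by
          ext x; simp only [mem_union, mem_insert]; tauto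
        rwa [e] at this)
      (by
        intro A B hA hB
        have := ha _ hB _ hA
        rwa [union_comm, insert_union] at this)
      (by
        intro A B hA hB
        have := ha _ hB _ hA
        have e : insert w B ∪ insert w A = insert w (A ∪ B) := by
          ext x; simp only [mem_union, mem_insert]; tauto
        rwa [e] at this)
    exact this
  have h2 : ∀ w ∈ S, ∑ X ∈ S.powerset, ∑ k ∈ S.erase w, c k *
      ∑ W ∈ S.powerset, (ind (T K X k w W) : ℝ) =
      ∑ X ∈ S.powerset, ∑ k ∈ S, c k * ∑ W ∈ S.powerset,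
        ((if k ∈ S.erase w then ind (T K X k w W) else 0 : ℕ) : ℝ) := by
    intro w hw
    refine sum_congr rfl fun X _ => ?_
    have h3 : ∀ k, c k * ∑ W ∈ S.powerset,
        ((if k ∈ S.erase w then ind (T K X k w W) else 0 : ℕ) : ℝ) =
        if k ∈ S.erase w then c k * ∑ W ∈ S.powerset, (ind (T K X k w W) : ℝ) else 0 := by
      intro k; split_ifs <;> simp
    simp_rw [h3]
    rw [← sum_filter]
    congr 1
    ext k
    simp only [mem_filter, mem_erase]
    tauto
  have h3 : 2 * ∑ w ∈ S, ∑ X ∈ S.powerset, ∑ k ∈ S.erase w, c k *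
      ∑ W ∈ S.powerset, (ind (T K X k w W) : ℝ) ≤
      2 ^ S.card * ∑ w ∈ S, c w * (Uw S K w : ℝ) := by
    calc 2 * ∑ w ∈ S, ∑ X ∈ S.powerset, ∑ k ∈ S.erase w, c k *
        ∑ W ∈ S.powerset, (ind (T K X k w W) : ℝ)
        = 2 * ∑ w ∈ S, ∑ X ∈ S.powerset, ∑ k ∈ S, c k * ∑ W ∈ S.powerset,
        ((if k ∈ S.erase w then ind (T K X k w W) else 0 : ℕ) : ℝ) := by
          rw [sum_congr rfl h2]
      _ = ∑ X ∈ S.powerset, ∑ k ∈ S, c k * (2 * ∑ w ∈ S, ∑ W ∈ S.powerset,
          ((if k ∈ S.erase w then ind (T K X k w W) else 0 : ℕ) : ℝ)) := by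
          rw [sum_comm, mul_sum]
          refine sum_congr rfl fun X _ => ?_
          rw [sum_comm, mul_sum]
          refine sum_congr rfl fun k _ => ?_
          rw [← mul_sum]
          ring
      _ ≤ ∑ X ∈ S.powerset, ∑ k ∈ S, c k *
          (2 ^ S.card * (ind (k ∉ X ∧ X ∉ K ∧ insert k X ∈ K) : ℝ)) := by
          refine sum_le_sum fun X hX => sum_le_sum fun k _ =>
            mul_le_mul_of_nonneg_left ?_ (hc0 k)
          exact_mod_cast T_sum X (mem_powerset.1 hX) k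
      _ = 2 ^ S.card * ∑ w ∈ S, c w * (Uw S K w : ℝ) := by
          rw [sum_comm, mul_sum]
          refine sum_congr rfl fun k _ => ?_
          unfold Uw
          push_cast
          rw [mul_sum, mul_sum]
          refine sum_congr rfl fun X _ => ?_
          ring
  have h4 : (2 : ℝ) ^ S.card * (l * ∑ w ∈ S, c w * (D S K w : ℝ)) ≤
      2 * ∑ w ∈ S, ∑ X ∈ S.powerset, ∑ k ∈ S.erase w, c k *
      ∑ W ∈ S.powerset, (ind (T K X k w W) : ℝ) := by
    rw [mul_sum, mul_sum, mul_sum]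
    refine sum_le_sum fun w hw => ?_
    have h5 := h1 w hw
    have h6 : (2 : ℝ) ^ S.card = 2 * 2 ^ (S.erase w).card := by
      rw [← pow_succ', card_erase_of_mem hw]
      congr 1
      have : 0 < S.card := card_pos.2 ⟨w, hw⟩
      omega
    rw [h6]
    nlinarith
  exact le_of_mul_le_mul_left (h4.trans h3) (by positivity)

theorem balance_pt (hK : ∀ A ∈ K, A ⊆ S) {w : α} (hw : w ∈ S) :
    K.card + Uw S K w = 2 * (K.filter (fun A => w ∈ A)).card + D S K w := by
  have hN : w ∉ S.erase w := notMem_erase _ _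
  have e0 : Uw S K w = cnt (S.erase w) (fun E => E ∉ K ∧ insert w E ∈ K) := by
    unfold Uw
    conv_lhs => rw [← insert_erase hw]
    rw [sum_powerset_insert (notMem_erase _ _)]
    have h1 : ∑ t ∈ (S.erase w).powerset, ind (w ∉ insert w t ∧ insert w t ∉ K ∧
        insert w (insert w t) ∈ K) = 0 := by
      refine sum_eq_zero fun t _ => ?_
      unfold ind; simp
    rw [h1, add_zero]
    unfold cnt
    refine sum_congr rfl fun t ht => ?_
    have : w ∉ t := fun h => notMem_erase w S (mem_powerset.1 ht h)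
    congr 1
    simp [this]
  have e1 : K.card = cnt (S.erase w) (fun A => A ∈ K) +
      cnt (S.erase w) (fun A => insert w A ∈ K) := by
    rw [← cnt_insert hN, insert_erase hw, cnt_eq_card]
    congr 1
    ext A
    simp only [mem_filter, mem_powerset]
    exact ⟨fun h => ⟨hK A h, h⟩, fun h => h.2⟩
  have e2 : (K.filter (fun A => w ∈ A)).card = cnt (S.erase w) (fun A => insert w A ∈ K) := by
    have h2 : (K.filter (fun A => w ∈ A)).card = cnt S (fun A => A ∈ K ∧ w ∈ A) := by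
      rw [cnt_eq_card]
      congr 1
      ext A
      simp only [mem_filter, mem_powerset]
      exact ⟨fun h => ⟨hK A h.1, h⟩, fun h => h.2⟩
    rw [h2]
    conv_lhs => rw [← insert_erase hw]
    rw [cnt_insert hN]
    have h3 : cnt (S.erase w) (fun A => A ∈ K ∧ w ∈ A) = 0 := by
      unfold cnt
      refine sum_eq_zero fun A hA => ?_
      have : w ∉ A := fun h => hN (mem_powerset.1 hA h)
      unfold ind; simp [this]
    rw [h3, zero_add]
    unfold cnt
    refine sum_congr rfl fun A _ => ?_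
    congr 1
    simp
  have e3 : cnt (S.erase w) (fun A => A ∈ K) +
      cnt (S.erase w) (fun E => E ∉ K ∧ insert w E ∈ K) =
      cnt (S.erase w) (fun A => insert w A ∈ K) + D S K w := by
    unfold D cnt
    rw [← sum_add_distrib, ← sum_add_distrib]
    refine sum_congr rfl fun A _ => ?_
    unfold ind
    by_cases hA : A ∈ K <;> by_cases hB : insert w A ∈ K <;> simp [hA, hB]
  rw [e0, e2]
  omega

theorem D_le_pt (w : α) : D S K w + (K.filter (fun A => w ∈ A)).card ≤ K.card := by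
  have h2 : D S K w ≤ (K.filter (fun A => ¬ w ∈ A)).card := by
    unfold D
    rw [cnt_eq_card]
    refine card_le_card fun A hA => ?_
    simp only [mem_filter, mem_powerset] at hA ⊢
    exact ⟨hA.2.1, fun h => notMem_erase w S (hA.1 h)⟩
  have h3 := card_filter_add_card_filter_not (s := K) (fun A => w ∈ A)
  omega

theorem avg_w {G : Finset (Finset α)} {l : ℝ} (hc0 : ∀ x, 0 ≤ c x) (hl : 0 ≤ l) (h1 : l ≤ 1)
    (hK : ∀ A ∈ K, A ⊆ S)
    (hU : ∀ A ∈ K, ∀ B ∈ K, A ∪ B ∈ K) (ha : ∀ A ∈ K, ∀ B ∈ G, A ∪ B ∈ K)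
    (hc : ∀ w ∈ S, IsoW S G c l w) :
    0 ≤ ∑ A ∈ K, ((1 + l) * ∑ x ∈ A, c x - l * ∑ x ∈ S, c x) := by
  have e3 := boundary_w hc0 hl hU ha hc
  have e4 : ∑ w ∈ S, c w * ((K.card : ℝ) + Uw S K w) =
      ∑ w ∈ S, c w * (2 * ((K.filter (fun A => w ∈ A)).card : ℝ) + D S K w) := by
    refine sum_congr rfl fun w hw => ?_
    congr 1
    exact_mod_cast balance_pt hK hw
  have e5 : ∑ w ∈ S, c w * ((D S K w : ℝ) + (K.filter (fun A => w ∈ A)).card) ≤
      ∑ w ∈ S, c w * (K.card : ℝ) := by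
    refine sum_le_sum fun w _ => mul_le_mul_of_nonneg_left ?_ (hc0 w)
    exact_mod_cast D_le_pt w
  have e6 : ∑ A ∈ K, ∑ x ∈ A, c x = ∑ w ∈ S, c w * ((K.filter (fun A => w ∈ A)).card : ℝ) := by
    have h7 : ∀ A ∈ K, ∑ x ∈ A, c x = ∑ w ∈ S, if w ∈ A then c w else 0 := by
      intro A hA
      rw [← sum_filter, filter_mem_eq_inter, inter_eq_right.2 (hK A hA)]
    rw [sum_congr rfl h7, sum_comm]
    refine sum_congr rfl fun w _ => ?_
    rw [← sum_filter, sum_const, nsmul_eq_mul, mul_comm]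
  have e7 : ∑ w ∈ S, c w * (K.card : ℝ) = K.card * ∑ x ∈ S, c x := by
    rw [← sum_mul, mul_comm]
  rw [sum_sub_distrib, ← mul_sum, sum_const, nsmul_eq_mul, e6]
  simp only [mul_add, sum_add_distrib, mul_left_comm _ (2 : ℝ), ← mul_sum] at e4 e5
  rw [e7] at e4 e5
  nlinarith

end

section

variable {F G : Finset (Finset α)} {S : Finset α} {c : α → ℝ}

open Pool.Agent.N188.LD in
theorem fib_nonneg (F : Finset (Finset α)) (S : Finset α) (φ : Finset α → ℝ)
    (h : ∀ T, 0 ≤ ∑ A ∈ fib F S T, φ A) : 0 ≤ ∑ A ∈ F, φ (A ∩ S) := by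
  have hm : ∀ A ∈ F, (fun A => A \ S) A ∈ F.image (fun A => A \ S) :=
    fun A hA => mem_image_of_mem _ hA
  rw [← sum_fiberwise_of_maps_to hm]
  refine sum_nonneg fun T _ => ?_
  have h1 := h T
  unfold fib at h1
  rw [sum_image (fib_inj F S T)] at h1
  exact h1

open Pool.Agent.N188.LD in
/-- The weighted isoperimetric criterion. -/
theorem crit_w (hF : ∀ A ∈ F, ∀ B ∈ F, A ∪ B ∈ F) (hG : ∀ B ∈ G, B ⊆ S)
    (ha : ∀ A ∈ F, ∀ B ∈ G, A ∪ B ∈ F) {l : ℝ} (hc0 : ∀ x, 0 ≤ c x) (hl : 0 ≤ l) (h1 : l ≤ 1)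
    (hc : ∀ w ∈ S, IsoW S G c l w) :
    l * (F.card * ∑ x ∈ S, c x) ≤ (1 + l) * ∑ A ∈ F, ∑ x ∈ A ∩ S, c x := by
  have h := fib_nonneg F S (fun A => (1 + l) * ∑ x ∈ A, c x - l * ∑ x ∈ S, c x) (fun T =>
    avg_w (S := S) (K := fib F S T) (G := G) hc0 hl h1 (fib_sub T) (fib_union hF T)
      (fib_absorb hG ha T) hc)
  rw [sum_sub_distrib, ← mul_sum, sum_const, nsmul_eq_mul] at h
  linarith

/-- The isoperimetric hypothesis in terms of families. -/
theorem isoW_of {l : ℝ} {x : α} (hc0 : ∀ x, 0 ≤ c x)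
    (h : ∀ 𝒟 : Finset (Finset α), (∀ D ∈ 𝒟, D ⊆ S.erase x) → (∀ D ∈ 𝒟, ∀ D' ⊆ D, D' ∈ 𝒟) →
      (∀ D ∈ 𝒟, ∀ B ∈ G, x ∈ B → ¬ B ⊆ insert x D) →
      l * c x * 𝒟.card ≤
        ∑ D ∈ 𝒟, ∑ k ∈ (S.erase x).filter (fun k => k ∉ D ∧ insert k D ∉ 𝒟), c k) :
    IsoW S G c l x := by
  intro D hD hY
  have h1 := h ((S.erase x).powerset.filter D) (fun E hE => by
      simp only [mem_filter, mem_powerset] at hE
      exact hE.1)
    (fun E hE E' hE' => by
      simp only [mem_filter, mem_powerset] at hE ⊢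
      exact ⟨hE'.trans hE.1, down_of hD hE.2 hE' hE.1⟩)
    (fun E hE B hB hxB hBE => by
      simp only [mem_filter, mem_powerset] at hE
      refine hY E hE.2 ⟨B.erase x, ?_, down_insert hBE⟩
      show insert x (B.erase x) ∈ G
      rwa [insert_erase hxB])
  rw [cnt_eq_card]
  refine h1.trans ?_
  unfold ec
  rw [sum_filter]
  refine sum_le_sum fun E hE => ?_
  split_ifs with hDE
  · rw [sum_filter]
    refine sum_le_sum fun k hk => ?_
    unfold ind
    split_ifs with hc1 hc2 hc2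
    · simp
    · exfalso
      apply hc2
      refine ⟨hc1.1, hDE, fun h4 => hc1.2 ?_⟩
      simp only [mem_filter, mem_powerset]
      exact ⟨insert_subset hk (mem_powerset.1 hE), h4⟩
    · simpa using hc0 k
    · simp
  · exact sum_nonneg fun k _ => mul_nonneg (hc0 k) (Nat.cast_nonneg _)

end

end Pool.Agent.N188.FC
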