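import Mathlib

set_option autoImplicit false

/-!
# The edge inequality behind the local criterion

For a finite set `N` and predicates `Q`, `P`, `Y` on finite sets with `P ∨ Q ⊆ P` and `Y ∨ Q ⊆ P` we
count, over all `W ⊆ N`, the pairs `(E, k)` where `E` is the union of a member of `Q` with a subset of
`W`, contains no member of `P`, and `E ∪ {k}` is a member of `P`. Their number is at least
`2 |Y↑| |Q \ P|`.
-/

namespace Pool.Agent.N188.FC

open Finset
open scoped Classical

variable {α : Type*} [DecidableEq α]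

/-- `E` is the union of a member of `Q` and a subset of `W`. -/
def Jn (Q : Finset α → Prop) (W E : Finset α) : Prop := ∃ A, Q A ∧ A ⊆ E ∧ E ⊆ A ∪ W

/-- `E` contains a member of `P`. -/
def Up (P : Finset α → Prop) (E : Finset α) : Prop := ∃ B, P B ∧ B ⊆ E

/-- the condition counted. -/
def Ed (Q P : Finset α → Prop) (W E : Finset α) (k : α) : Prop :=
  k ∉ E ∧ Jn Q W E ∧ ¬ Up P E ∧ P (insert k E)

/-- indicator. -/
noncomputable def ind (p : Prop) : ℕ := if p then 1 else 0

/-- the number of triples. -/
noncomputable def L (N : Finset α) (Q P : Finset α → Prop) : ℕ :=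
  ∑ W ∈ N.powerset, ∑ E ∈ N.powerset, ∑ k ∈ N, ind (Ed Q P W E k)

/-- counting subsets of `N`. -/
noncomputable def cnt (N : Finset α) (R : Finset α → Prop) : ℕ := ∑ A ∈ N.powerset, ind (R A)

theorem ind_mono {p q : Prop} (h : p → q) : ind p ≤ ind q := by
  unfold ind
  split_ifs with h1 h2
  · exact le_rfl
  · exact absurd (h h1) h2
  · exact Nat.zero_le _
  · exact le_rfl

omit [DecidableEq α] in
theorem cnt_mono (N : Finset α) (R R' : Finset α → Prop)
    (h : ∀ A ∈ N.powerset, R A → R' A) : cnt N R ≤ cnt N R' :=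
  sum_le_sum fun A hA => ind_mono (h A hA)

omit [DecidableEq α] in
theorem cnt_le (N : Finset α) (R : Finset α → Prop) : cnt N R ≤ 2 ^ N.card := by
  unfold cnt
  calc ∑ A ∈ N.powerset, ind (R A) ≤ ∑ A ∈ N.powerset, 1 := by
        refine sum_le_sum fun A _ => ?_
        unfold ind; split_ifs <;> simp
    _ = 2 ^ N.card := by simp

theorem cnt_insert {a : α} {N : Finset α} (ha : a ∉ N) (R : Finset α → Prop) :
    cnt (insert a N) R = cnt N R + cnt N (fun A => R (insert a A)) := by
  unfold cnt
  rw [sum_powerset_insert ha]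

theorem prop_ineq {p q r s t u : Prop} (h1 : q → p) (h2 : r → t ∨ (p ∧ ¬ q)) (h3 : s → u) :
    ind p + ind q + ind r + ind s ≤ 2 * ind p + ind t + ind u := by
  by_cases hp : p <;> by_cases hq : q <;> by_cases hr : r <;> by_cases hs : s <;>
    by_cases ht : t <;> by_cases hu : u <;> simp_all [ind]

theorem count_ineq (C D M : ℕ) (hCD : D ≤ C) (hCM : C ≤ M) {q q1 p p1 : Prop}
    (h : p → q1 → p1) :
    C * ind (q ∧ ¬ p) + D * ind (q1 ∧ ¬ p1) ≤
      D * ind ((q ∧ q1) ∧ ¬ p) + C * ind ((q ∨ q1) ∧ ¬ (p ∨ p1)) + M * ind (q ∧ ¬ p ∧ p1) := by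
  by_cases hq : q <;> by_cases hq1 : q1 <;> by_cases hp : p <;> by_cases hp1 : p1 <;>
    simp_all [ind] <;> omega

variable {a : α} {N : Finset α} {Q P Y : Finset α → Prop}

/-- lower bound of one block. -/
theorem block (ha : a ∉ N) (hPQ : ∀ A B, P A → Q B → P (A ∪ B)) (W E : Finset α) (k : α)
    (hE : E ⊆ N) (hk : k ∈ N) :
    ind (Ed Q P W E k) + ind (Ed (fun A => Q A ∧ Q (insert a A)) P W E k) +
      ind (Ed (fun A => Q A ∨ Q (insert a A)) (fun A => P A ∨ P (insert a A)) W E k) +
      ind (Ed (fun A => Q (insert a A)) (fun A => P (insert a A)) W E k) ≤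
    2 * ind (Ed Q P W E k) + ind (Ed Q P (insert a W) (insert a E) k) +
      ind (Ed Q P W (insert a E) k) := by
  have haE : a ∉ E := fun h => ha (hE h)
  have hka : k ≠ a := fun h => ha (h ▸ hk)
  apply prop_ineq
  · rintro ⟨h1, ⟨A, hA, h2, h3⟩, h4, h5⟩
    exact ⟨h1, ⟨A, hA.1, h2, h3⟩, h4, h5⟩
  · rintro ⟨h1, ⟨A, hA, h2, h3⟩, h4, h5⟩
    have hup : ¬ Up P (insert a E) := by
      rintro ⟨B, hB, hBE⟩
      by_cases hBa : a ∈ B
      · exact h4 ⟨B.erase a, Or.inr (by rwa [insert_erase hBa]), by
          intro x hx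
          rcases mem_insert.1 (hBE (mem_of_mem_erase hx)) with h | h
          · exact absurd h (ne_of_mem_erase hx)
          · exact h⟩
      · exact h4 ⟨B, Or.inl hB, fun x hx => by
          rcases mem_insert.1 (hBE hx) with h | h
          · exact absurd (h ▸ hx) hBa
          · exact h⟩
    by_cases hP1 : P (insert a (insert k E))
    · left
      refine ⟨?_, ?_, hup, ?_⟩
      · simp [hka, h1]
      · rcases hA with hA | hA
        · exact ⟨A, hA, h2.trans (subset_insert _ _), by
            intro x hx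
            rcases mem_insert.1 hx with h | h
            · simp [h]
            · have := h3 h
              simp only [mem_union, mem_insert] at this ⊢
              tauto⟩
        · exact ⟨insert a A, hA, insert_subset_insert _ h2, by
            intro x hx
            rcases mem_insert.1 hx with h | h
            · simp [h]
            · have := h3 h
              simp only [mem_union, mem_insert] at this ⊢
              tauto⟩
      · rwa [insert_comm]
    · right
      have hP0 : P (insert k E) := by tauto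
      have key : ∀ A', A' ⊆ E → ¬ Q (insert a A') := by
        intro A' hA' hQ
        have := hPQ _ _ hP0 hQ
        have h6 : insert k E ∪ insert a A' = insert a (insert k E) := by
          ext x
          simp only [mem_union, mem_insert]
          have := @hA' x
          tauto
        rw [h6] at this
        exact hP1 this
      refine ⟨⟨h1, ⟨A, ?_, h2, h3⟩, ?_, hP0⟩, ?_⟩
      · rcases hA with hA | hA
        · exact hA
        · exact absurd hA (key A h2)
      · rintro ⟨B, hB, hBE⟩
        exact h4 ⟨B, Or.inl hB, hBE⟩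
      · rintro ⟨_, ⟨A', hA', h2', _⟩, _⟩
        exact key A' h2' hA'.2
  · rintro ⟨h1, ⟨A, hA, h2, h3⟩, h4, h5⟩
    refine ⟨?_, ?_, ?_, ?_⟩
    · simp [hka, h1]
    · exact ⟨insert a A, hA, insert_subset_insert _ h2, by
        intro x hx
        rcases mem_insert.1 hx with h | h
        · simp [h]
        · have := h3 h
          simp only [mem_union, mem_insert] at this ⊢
          tauto⟩
    · rintro ⟨B, hB, hBE⟩
      have := hPQ _ _ hB hA
      apply h4
      refine ⟨B.erase a ∪ A, ?_, ?_⟩
      · have h6 : insert a (B.erase a ∪ A) = B ∪ insert a A := by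
          ext x
          simp only [mem_union, mem_insert, mem_erase]
          tauto
        show P (insert a (B.erase a ∪ A))
        rwa [h6]
      · intro x hx
        rcases mem_union.1 hx with h | h
        · rcases mem_insert.1 (hBE (mem_of_mem_erase h)) with h' | h'
          · exact absurd h' (ne_of_mem_erase h)
          · exact h'
        · exact h2 h
    · rw [insert_comm]; exact h5

/-- the new edges in the direction `a`. -/
theorem newedge (ha : a ∉ N) (hPQ : ∀ A B, P A → Q B → P (A ∪ B)) (W E : Finset α)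
    (hE : E ⊆ N) : ind (Q E ∧ ¬ P E ∧ P (insert a E)) ≤ ind (Ed Q P W E a) := by
  apply ind_mono
  rintro ⟨h1, h2, h3⟩
  refine ⟨fun h => ha (hE h), ⟨E, h1, Subset.rfl, subset_union_left⟩, ?_, h3⟩
  rintro ⟨B, hB, hBE⟩
  have := hPQ _ _ hB h1
  rw [union_eq_right.2 hBE] at this
  exact h2 this

theorem Ed_mono (W W' E : Finset α) (k : α) (hW : W ⊆ W') :
    ind (Ed Q P W E k) ≤ ind (Ed Q P W' E k) := by
  apply ind_mono
  rintro ⟨h1, ⟨A, hA, h2, h3⟩, h4, h5⟩
  exact ⟨h1, ⟨A, hA, h2, h3.trans (union_subset_union_right hW)⟩, h4, h5⟩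

/-- The induction step for the number of triples. -/
theorem L_insert (ha : a ∉ N) (hPQ : ∀ A B, P A → Q B → P (A ∪ B)) :
    L N Q P + L N (fun A => Q A ∧ Q (insert a A)) P +
      L N (fun A => Q A ∨ Q (insert a A)) (fun A => P A ∨ P (insert a A)) +
      L N (fun A => Q (insert a A)) (fun A => P (insert a A)) +
      2 * 2 ^ N.card * cnt N (fun A => Q A ∧ ¬ P A ∧ P (insert a A)) ≤ L (insert a N) Q P := by
  have h1 : 2 * 2 ^ N.card * cnt N (fun A => Q A ∧ ¬ P A ∧ P (insert a A)) =
      ∑ W ∈ N.powerset, ∑ E ∈ N.powerset, 2 * ind (Q E ∧ ¬ P E ∧ P (insert a E)) := by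
    rw [sum_const, card_powerset, smul_eq_mul, ← mul_sum]
    unfold cnt
    ring
  rw [h1]
  unfold L
  rw [sum_powerset_insert ha]
  simp only [← sum_add_distrib]
  refine sum_le_sum fun W hW => ?_
  rw [mem_powerset] at hW
  rw [sum_powerset_insert ha]
  simp only [← sum_add_distrib]
  refine sum_le_sum fun E hE => ?_
  rw [mem_powerset] at hE
  simp only [sum_insert ha, sum_add_distrib]
  have h2 := newedge (Q := Q) (P := P) ha hPQ W E hE
  have h3 := newedge (Q := Q) (P := P) ha hPQ (insert a W) E hE
  have h4 : ∑ k ∈ N, (ind (Ed Q P W E k) + ind (Ed (fun A => Q A ∧ Q (insert a A)) P W E k) +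
      ind (Ed (fun A => Q A ∨ Q (insert a A)) (fun A => P A ∨ P (insert a A)) W E k) +
      ind (Ed (fun A => Q (insert a A)) (fun A => P (insert a A)) W E k)) ≤
      ∑ k ∈ N, (2 * ind (Ed Q P W E k) + ind (Ed Q P (insert a W) (insert a E) k) +
      ind (Ed Q P W (insert a E) k)) :=
    sum_le_sum fun k hk => block ha hPQ W E k hE hk
  have h5 : ∑ k ∈ N, ind (Ed Q P W E k) ≤ ∑ k ∈ N, ind (Ed Q P (insert a W) E k) :=
    sum_le_sum fun k _ => Ed_mono W (insert a W) E k (subset_insert _ _)
  simp only [sum_add_distrib, ← mul_sum] at h4 ⊢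
  omega

/-- **The edge inequality.** -/
theorem zed (N : Finset α) : ∀ Q P Y : Finset α → Prop,
    (∀ A B, P A → Q B → P (A ∪ B)) → (∀ A B, Y A → Q B → P (A ∪ B)) →
    2 * cnt N (Up Y) * cnt N (fun A => Q A ∧ ¬ P A) ≤ L N Q P := by
  induction N using Finset.induction_on with
  | empty =>
    intro Q P Y _ hYQ
    have : cnt ∅ (Up Y) * cnt ∅ (fun A => Q A ∧ ¬ P A) = 0 := by
      by_contra hne
      have h1 : cnt ∅ (Up Y) ≠ 0 := left_ne_zero_of_mul hne
      have h2 : cnt ∅ (fun A => Q A ∧ ¬ P A) ≠ 0 := right_ne_zero_of_mul hne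
      simp only [cnt, powerset_empty, sum_singleton, ind, ne_eq, ite_eq_right_iff,
        one_ne_zero, imp_false, not_not] at h1 h2
      obtain ⟨B, hB, hB'⟩ := h1
      have hB0 : B = ∅ := subset_empty.1 hB'
      subst hB0
      exact h2.2 (by simpa using hYQ _ _ hB h2.1)
    rw [mul_assoc, this]
    simp
  | insert a N ha ih =>
    intro Q P Y hPQ hYQ
    have hIns : ∀ A B : Finset α, insert a A ∪ insert a B = insert a (A ∪ B) := by
      intro A B; ext x; simp only [mem_union, mem_insert]; tauto
    have hIl : ∀ A B : Finset α, insert a A ∪ B = insert a (A ∪ B) := by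
      intro A B; ext x; simp only [mem_union, mem_insert]; tauto
    have hIr : ∀ A B : Finset α, A ∪ insert a B = insert a (A ∪ B) := by
      intro A B; ext x; simp only [mem_union, mem_insert]; tauto
    have i1 := ih Q P Y hPQ hYQ
    have i2 := ih (fun A => Q A ∧ Q (insert a A)) P Y (fun A B hA hB => hPQ A B hA hB.1)
      (fun A B hA hB => hYQ A B hA hB.1)
    have i3 := ih (fun A => Q A ∨ Q (insert a A)) (fun A => P A ∨ P (insert a A))
      (fun A => Y A ∨ Y (insert a A))
      (by
        rintro A B (hA | hA) (hB | hB)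
        · exact Or.inl (hPQ _ _ hA hB)
        · right; have := hPQ _ _ hA hB; rwa [hIr] at this
        · right; have := hPQ _ _ hA hB; rwa [hIl] at this
        · right; have := hPQ _ _ hA hB; rwa [hIns] at this)
      (by
        rintro A B (hA | hA) (hB | hB)
        · exact Or.inl (hYQ _ _ hA hB)
        · right; have := hYQ _ _ hA hB; rwa [hIr] at this
        · right; have := hYQ _ _ hA hB; rwa [hIl] at this
        · right; have := hYQ _ _ hA hB; rwa [hIns] at this)
    have i4 := ih (fun A => Q (insert a A)) (fun A => P (insert a A))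
      (fun A => Y A ∨ Y (insert a A))
      (by
        intro A B hA hB
        have := hPQ _ _ hA hB; rwa [hIns] at this)
      (by
        rintro A B (hA | hA) hB
        · have := hYQ _ _ hA hB; rwa [hIr] at this
        · have := hYQ _ _ hA hB; rwa [hIns] at this)
    have hstep := L_insert (Q := Q) (P := P) ha hPQ
    set D := cnt N (Up Y) with hD
    set C := cnt N (Up (fun A => Y A ∨ Y (insert a A))) with hC
    have hDC : D ≤ C := cnt_mono _ _ _ (by
      rintro A _ ⟨B, hB, hBA⟩
      exact ⟨B, Or.inl hB, hBA⟩)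
    have hCM : C ≤ 2 ^ N.card := cnt_le _ _
    have hC' : cnt N (fun A => Up Y (insert a A)) ≤ C := cnt_mono _ _ _ (by
      rintro A _ ⟨B, hB, hBA⟩
      by_cases hBa : a ∈ B
      · exact ⟨B.erase a, Or.inr (by rwa [insert_erase hBa]), by
          intro x hx
          rcases mem_insert.1 (hBA (mem_of_mem_erase hx)) with h | h
          · exact absurd h (ne_of_mem_erase hx)
          · exact h⟩
      · exact ⟨B, Or.inl hB, fun x hx => by
          rcases mem_insert.1 (hBA hx) with h | h
          · exact absurd (h ▸ hx) hBa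
          · exact h⟩)
    rw [cnt_insert ha, cnt_insert ha]
    set E0 := cnt N (fun A => Q A ∧ ¬ P A) with hE0
    set E1 := cnt N (fun A => Q (insert a A) ∧ ¬ P (insert a A)) with hE1
    set E2 := cnt N (fun A => (Q A ∧ Q (insert a A)) ∧ ¬ P A) with hE2
    set E3 := cnt N (fun A => (Q A ∨ Q (insert a A)) ∧ ¬ (P A ∨ P (insert a A))) with hE3
    set NE := cnt N (fun A => Q A ∧ ¬ P A ∧ P (insert a A)) with hNE
    have hsum : C * E0 + D * E1 ≤ D * E2 + C * E3 + 2 ^ N.card * NE := by
      rw [hE0, hE1, hE2, hE3, hNE]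
      unfold cnt
      simp only [mul_sum, ← sum_add_distrib]
      refine sum_le_sum fun A hA => ?_
      apply count_ineq C D (2 ^ N.card) hDC hCM
      intro h1 h2
      have := hPQ _ _ h1 h2
      rwa [hIr, union_self] at this
    have h7 : 2 * (D + cnt N (fun A => Up Y (insert a A))) * (E0 + E1) ≤
        2 * (D + C) * (E0 + E1) := by gcongr
    calc 2 * (D + cnt N (fun A => Up Y (insert a A))) * (E0 + E1)
        ≤ 2 * (D + C) * (E0 + E1) := h7
      _ = 2 * D * E0 + 2 * C * E1 + 2 * (C * E0 + D * E1) := by ring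
      _ ≤ 2 * D * E0 + 2 * C * E1 + 2 * (D * E2 + C * E3 + 2 ^ N.card * NE) := by gcongr
      _ = 2 * D * E0 + 2 * D * E2 + 2 * C * E3 + 2 * C * E1 + 2 * 2 ^ N.card * NE := by ring
      _ ≤ L N Q P + L N (fun A => Q A ∧ Q (insert a A)) P +
          L N (fun A => Q A ∨ Q (insert a A)) (fun A => P A ∨ P (insert a A)) +
          L N (fun A => Q (insert a A)) (fun A => P (insert a A)) +
          2 * 2 ^ N.card * NE := by gcongr
      _ ≤ L (insert a N) Q P := hstep

end Pool.Agent.N188.FC
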